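import Mathlib
import Pool.Agent.Run7.h113.LE.Ap

/-!
General Euler products of bounded rank on the edge of absolute convergence.
-/

set_option autoImplicit false

open MeasureTheory Filter Topology Finset NumberField IsDedekindDomain
open scoped ENNReal
open Pool.Agent.H921R2.TatePole (nm two_le_nm below deg nm_eq below_le_nm card_above)
open Pool.Agent.R433.MD (norm_nm_cpow nm_pos)
open Pool.Agent.W350.EdgeV (FV mem_FV tendsto_FV abel_V)
open Pool.Agent.W350.EdgeNF (hfin below_sq_summable hpow)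
open Pool.Agent.W350.Edge (lg lg_le lt_lg ps term divSet dimH_divSet)
open Run7.h113.LE (mu below_ge sum_below card_FV card_nm eLp_of_int eLp_bdd main_int dl dl_tendsto finrank_pos' vol_zero
  below_inv mu_ac)

namespace Run7.h113.GE

/-- the logarithms of the local factors of an Euler product, as functions of `z = q ^ (-u)`; `u = 0` is the edge -/
structure Sys (K : Type) [Field K] [NumberField K] (m A : ℝ) where
  G : HeightOneSpectrum (𝓞 K) → ℂ → ℂ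
  c : HeightOneSpectrum (𝓞 K) → ℂ
  m_nonneg : 0 ≤ m
  A_nonneg : 0 ≤ A
  cont : ∀ v, ContinuousOn (G v) (Metric.closedBall 0 1)
  diff : ∀ v, DifferentiableOn ℂ (G v) (Metric.ball 0 1)
  zero : ∀ v, G v 0 = 0
  c_norm : ∀ v, ‖c v‖ ≤ m / (nm v : ℝ)
  near : ∀ v z, ‖z‖ ≤ 1 → ‖G v z - c v * z‖ ≤ A * ((below v : ℕ) : ℝ) ^ (-(2:ℝ))
  lip : ∀ v z w, ‖z‖ ≤ 1 → ‖w‖ ≤ 1 → ‖G v z - G v w‖ ≤ A * ‖z - w‖

section
variable {K : Type} [Field K] [NumberField K] {m A : ℝ} (S : Sys K m A)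

lemma cp_norm (v : HeightOneSpectrum (𝓞 K)) (u : ℂ) : ‖((nm v : ℕ) : ℂ) ^ (-u)‖ = (nm v : ℝ) ^ (-u.re) := by
  rw [norm_nm_cpow, Complex.neg_re]

lemma cp_le (v : HeightOneSpectrum (𝓞 K)) {u : ℂ} (hu : 0 ≤ u.re) : ‖((nm v : ℕ) : ℂ) ^ (-u)‖ ≤ 1 := by
  have hq : (2 : ℝ) ≤ nm v := by exact_mod_cast two_le_nm v
  rw [cp_norm]
  exact Real.rpow_le_one_of_one_le_of_nonpos (by linarith) (by linarith)

/-- the logarithm of a local factor -/
noncomputable def Sys.ll (u : ℂ) (v : HeightOneSpectrum (𝓞 K)) : ℂ := S.G v (((nm v : ℕ) : ℂ) ^ (-u))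

/-- the first order term -/
noncomputable def Sys.f1 (u : ℂ) (v : HeightOneSpectrum (𝓞 K)) : ℂ := S.c v * ((nm v : ℕ) : ℂ) ^ (-u)

/-- the partial sums -/
noncomputable def Sys.Sx (x : ℕ) (u : ℂ) : ℂ := ∑ v ∈ FV nm (hfin (K := K)) x, S.ll u v

open Classical in
/-- the coefficients at the primes -/
noncomputable def Sys.cc (σ : ℝ) (p : ℕ) : ℂ :=
  ∑ v ∈ (FV nm (hfin (K := K)) (p + 1)).filter (fun v => nm v = p), S.c v * ((nm v : ℝ) ^ (-σ) : ℝ)

/-- the remainder -/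
noncomputable def Sys.rm (u : ℂ) (v : HeightOneSpectrum (𝓞 K)) : ℂ := S.ll u v - S.f1 u v

lemma Sys.rm_norm {u : ℂ} (hu : 0 ≤ u.re) (v : HeightOneSpectrum (𝓞 K)) :
    ‖S.rm u v‖ ≤ A * ((below v : ℕ) : ℝ) ^ (-(2:ℝ)) := S.near v _ (cp_le v hu)

lemma Sys.f1_norm {u : ℂ} (v : HeightOneSpectrum (𝓞 K)) : ‖S.f1 u v‖ ≤ m * (nm v : ℝ) ^ (-(1 + u.re)) := by
  have hq : (2 : ℝ) ≤ nm v := by exact_mod_cast two_le_nm v
  unfold Sys.f1
  rw [norm_mul, cp_norm]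
  have h1 : (nm v : ℝ) ^ (-(1 + u.re)) = (1 / (nm v : ℝ)) * (nm v : ℝ) ^ (-u.re) := by
    rw [one_div, ← Real.rpow_neg_one, ← Real.rpow_add (by linarith)]
    congr 1; ring
  rw [h1, ← mul_assoc, mul_one_div]
  exact mul_le_mul_of_nonneg_right (S.c_norm v) (by positivity)

lemma Sys.f1_edge {u : ℂ} (hu : 0 ≤ u.re) (v : HeightOneSpectrum (𝓞 K)) : ‖S.f1 u v‖ ≤ m * (1 / (nm v : ℝ)) := by
  unfold Sys.f1
  rw [norm_mul, mul_one_div]
  have h1 := S.c_norm v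
  have h2 := cp_le v hu
  have h3 : 0 ≤ m / (nm v : ℝ) := (norm_nonneg _).trans h1
  calc ‖S.c v‖ * ‖((nm v : ℕ) : ℂ) ^ (-u)‖ ≤ m / (nm v : ℝ) * 1 := mul_le_mul h1 h2 (norm_nonneg _) h3
    _ = _ := mul_one _

lemma nm_inv_le (v : HeightOneSpectrum (𝓞 K)) : 1 / (nm v : ℝ) ≤ 1 / 2 := by
  have hq : (2 : ℝ) ≤ nm v := by exact_mod_cast two_le_nm v
  exact one_div_le_one_div_of_le (by norm_num) hq

lemma below_le_one (v : HeightOneSpectrum (𝓞 K)) : ((below v : ℕ) : ℝ) ^ (-(2:ℝ)) ≤ 1 := by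
  have hp : (2 : ℝ) ≤ ((below v : ℕ) : ℝ) := by exact_mod_cast (below v).2.two_le
  exact Real.rpow_le_one_of_one_le_of_nonpos (by linarith) (by norm_num)

lemma Sys.ll_triv {u : ℂ} (hu : 0 ≤ u.re) (v : HeightOneSpectrum (𝓞 K)) : ‖S.ll u v‖ ≤ A := by
  have h := S.lip v (((nm v : ℕ) : ℂ) ^ (-u)) 0 (cp_le v hu) (by simp)
  rw [S.zero v, sub_zero, sub_zero] at h
  refine h.trans ?_
  have := cp_le v hu
  have := S.A_nonneg
  nlinarith

lemma Sys.rm_summable {u : ℂ} (hu : 0 ≤ u.re) : Summable (S.rm u) :=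
  Summable.of_norm_bounded (below_sq_summable.mul_left A) fun v => S.rm_norm hu v

lemma Sys.f1_summable {u : ℂ} (hu : 0 < u.re) : Summable (S.f1 u) :=
  Summable.of_norm_bounded ((hpow (1 + u.re) (by linarith)).mul_left m) fun v => S.f1_norm v

lemma Sys.ll_summable {u : ℂ} (hu : 0 < u.re) : Summable (S.ll u) := by
  have h1 := (S.f1_summable hu).add (S.rm_summable hu.le)
  refine h1.congr fun v => ?_
  unfold Sys.rm
  ring

lemma Sys.first_eq (v : HeightOneSpectrum (𝓞 K)) (σ t : ℝ) :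
    S.f1 ((σ:ℂ) + t * Complex.I) v =
      S.c v * ((nm v : ℝ) ^ (-σ) : ℝ) * Complex.exp (-(t * Real.log (nm v)) * Complex.I) := by
  have h0 : (0:ℝ) < nm v := by exact_mod_cast nm_pos v
  have hne : ((nm v : ℕ) : ℂ) ≠ 0 := by exact_mod_cast (nm_pos v).ne'
  unfold Sys.f1
  rw [mul_assoc]
  congr 1
  have e1 : (-((σ:ℂ) + t * Complex.I)) = ((-σ : ℝ) : ℂ) + (-(t * Complex.I)) := by
    push_cast; ring
  rw [e1, Complex.cpow_add _ _ hne]
  congr 1
  · rw [Complex.ofReal_cpow h0.le]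
    push_cast
    rfl
  · rw [Complex.cpow_def_of_ne_zero hne]
    congr 1
    rw [← Complex.natCast_log]
    ring

lemma Sys.cs_norm {σ : ℝ} (hσ : 0 ≤ σ) (v : HeightOneSpectrum (𝓞 K)) :
    ‖S.c v * ((nm v : ℝ) ^ (-σ) : ℝ)‖ ≤ m * (1 / (nm v : ℝ)) := by
  have hq : (2 : ℝ) ≤ nm v := by exact_mod_cast two_le_nm v
  rw [norm_mul, Complex.norm_real, Real.norm_of_nonneg (by positivity), mul_one_div]
  have h1 := S.c_norm v
  have h3 : 0 ≤ m / (nm v : ℝ) := (norm_nonneg _).trans h1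
  calc ‖S.c v‖ * (nm v : ℝ) ^ (-σ) ≤ m / (nm v : ℝ) * 1 :=
        mul_le_mul h1 (Real.rpow_le_one_of_one_le_of_nonpos (by linarith) (by linarith)) (by positivity) h3
    _ = _ := mul_one _

lemma Sys.cc_norm {σ : ℝ} (hσ : 0 ≤ σ) {p : ℕ} (hp : p.Prime) :
    ‖S.cc σ p‖ ≤ (m * Module.finrank ℚ K) * (1 / (p:ℝ)) := by
  classical
  unfold Sys.cc
  set G := (FV nm (hfin (K := K)) (p + 1)).filter (fun v => nm v = p) with hG
  have hGm : ∀ v ∈ G, nm v = p := fun v hv => (mem_filter.1 hv).2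
  have h1 : ∀ v ∈ G, ‖S.c v * ((nm v : ℝ) ^ (-σ) : ℝ)‖ ≤ m * (1 / (p:ℝ)) := by
    intro v hv
    have h8 := S.cs_norm hσ v
    rwa [hGm v hv] at h8 ⊢
  refine (norm_sum_le_of_le _ h1).trans ?_
  rw [Finset.sum_const, nsmul_eq_mul]
  have h9 : (G.card : ℝ) ≤ Module.finrank ℚ K := by exact_mod_cast card_nm hp G hGm
  have h10 : 0 ≤ m * (1 / (p:ℝ)) := mul_nonneg S.m_nonneg (by positivity)
  calc (G.card : ℝ) * (m * (1 / (p:ℝ))) ≤ Module.finrank ℚ K * (m * (1 / (p:ℝ))) :=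
        mul_le_mul_of_nonneg_right h9 h10
    _ = _ := by ring

/-- **decomposition of a block** -/
theorem Sys.decomp {d P0 : ℕ} (hd : Module.finrank ℚ K ≤ d)
    (hP : 1 ≤ P0) {x : ℕ} (hx : P0 ^ d ≤ x) {σ : ℝ} (hσ : 0 ≤ σ) (t : ℝ) :
    ‖(S.Sx x ((σ:ℂ) + t * Complex.I) - S.Sx (P0 ^ d) ((σ:ℂ) + t * Complex.I)) -
      ∑ p ∈ (Ico (P0 ^ d) x).filter Nat.Prime, S.cc σ p * Complex.exp (-(t * Real.log p) * Complex.I)‖ ≤
      2 * (A + m) * d / P0 := by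
  classical
  set u : ℂ := (σ:ℂ) + t * Complex.I with hu
  have hure : u.re = σ := by simp [hu]
  set G := (FV nm (hfin (K := K)) x).filter (fun v => P0 ^ d ≤ nm v) with hG
  have hGm : ∀ v ∈ G, P0 ^ d ≤ nm v ∧ nm v < x := by
    intro v hv
    rw [hG, mem_filter, mem_FV] at hv
    exact ⟨hv.2, hv.1⟩
  have hGb : ∀ v ∈ G, P0 ≤ (below v : ℕ) := fun v hv => below_ge hd (hGm v hv).1
  have hdiff : S.Sx x u - S.Sx (P0 ^ d) u = ∑ v ∈ G, S.ll u v := by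
    unfold Sys.Sx
    rw [sub_eq_iff_eq_add, ← Finset.sum_filter_add_sum_filter_not (FV nm (hfin (K := K)) x) (fun v => P0 ^ d ≤ nm v)]
    congr 1
    apply Finset.sum_congr _ fun _ _ => rfl
    ext v
    rw [mem_filter, mem_FV, mem_FV]
    omega
  have hmain : ∑ v ∈ G with (nm v).Prime, S.f1 u v =
      ∑ p ∈ (Ico (P0 ^ d) x).filter Nat.Prime, S.cc σ p * Complex.exp (-(t * Real.log p) * Complex.I) := by
    have hmaps : ∀ v ∈ G.filter (fun v => (nm v).Prime), nm v ∈ (Ico (P0 ^ d) x).filter Nat.Prime := by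
      intro v hv
      rw [mem_filter] at hv
      rw [mem_filter, mem_Ico]
      exact ⟨hGm v hv.1, hv.2⟩
    rw [← sum_fiberwise_of_maps_to hmaps]
    refine Finset.sum_congr rfl fun p hp => ?_
    rw [mem_filter, mem_Ico] at hp
    unfold Sys.cc
    rw [Finset.sum_mul]
    apply Finset.sum_congr
    · ext v
      rw [hG]
      simp only [mem_filter, mem_FV]
      constructor
      · rintro ⟨⟨⟨h1, h2⟩, h3⟩, h4⟩
        exact ⟨by omega, h4⟩
      · rintro ⟨h1, h2⟩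
        exact ⟨⟨⟨by omega, by omega⟩, by rw [h2]; exact hp.2⟩, h2⟩
    · intro v hv
      rw [mem_filter] at hv
      rw [hu, S.first_eq, hv.2]
  rw [← hmain, hdiff]
  have e1 : ∑ v ∈ G, S.ll u v - ∑ v ∈ G with (nm v).Prime, S.f1 u v =
      ∑ v ∈ G, S.rm u v + ∑ v ∈ G with ¬ (nm v).Prime, S.f1 u v := by
    unfold Sys.rm
    rw [Finset.sum_sub_distrib, ← Finset.sum_filter_add_sum_filter_not G (fun v => (nm v).Prime) (S.f1 u)]
    ring
  rw [e1]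
  have hd0 : (0:ℝ) ≤ d := Nat.cast_nonneg d
  have hP0 : (0:ℝ) < P0 := by exact_mod_cast hP
  have hdr : (Module.finrank ℚ K : ℝ) ≤ d := by exact_mod_cast hd
  have hA := S.A_nonneg
  have hm := S.m_nonneg
  have hb1 : ‖∑ v ∈ G, S.rm u v‖ ≤ A * (d * (2 / P0)) := by
    have h1 : ∀ v ∈ G, ‖S.rm u v‖ ≤ A * (1 / ((below v : ℕ) : ℝ) ^ 2) := by
      intro v hv
      have := S.rm_norm (u := u) (by rw [hure]; exact hσ) v
      rwa [below_inv] at this
    refine (norm_sum_le_of_le _ h1).trans ?_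
    rw [← Finset.mul_sum]
    apply mul_le_mul_of_nonneg_left _ hA
    refine (sum_below hP G hGb).trans ?_
    exact mul_le_mul_of_nonneg_right hdr (by positivity)
  have hb2 : ‖∑ v ∈ G with ¬ (nm v).Prime, S.f1 u v‖ ≤ m * (d * (2 / P0)) := by
    have h1 : ∀ v ∈ G.filter (fun v => ¬ (nm v).Prime), ‖S.f1 u v‖ ≤ m * (1 / ((below v : ℕ) : ℝ) ^ 2) := by
      intro v hv
      rw [mem_filter] at hv
      refine (S.f1_edge (u := u) (by rw [hure]; exact hσ) v).trans ?_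
      apply mul_le_mul_of_nonneg_left _ hm
      obtain ⟨h3, h4, h5⟩ := nm_eq v
      have h6 : 2 ≤ deg v := by
        by_contra h7
        have h8 : deg v = 1 := by omega
        rw [h8, pow_one] at h3
        exact hv.2 (by rw [h3]; exact (below v).prop)
      have h7 : (below v : ℕ) ^ 2 ≤ nm v := by
        rw [h3]
        exact Nat.pow_le_pow_right (below v).prop.pos h6
      have h8 : (0:ℝ) < ((below v : ℕ) : ℝ) := by exact_mod_cast (below v).prop.pos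
      exact one_div_le_one_div_of_le (by positivity) (by exact_mod_cast h7)
    refine (norm_sum_le_of_le _ h1).trans ?_
    rw [← Finset.mul_sum]
    apply mul_le_mul_of_nonneg_left _ hm
    refine (sum_below (P0 := P0) hP _ fun v hv => hGb v (mem_filter.1 hv).1).trans ?_
    exact mul_le_mul_of_nonneg_right hdr (by positivity)
  refine (norm_add_le _ _).trans ((add_le_add hb1 hb2).trans (le_of_eq ?_))
  ring

lemma Sys.ll_cont (v : HeightOneSpectrum (𝓞 K)) {σ : ℝ} (hσ : 0 ≤ σ) :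
    Continuous fun t : ℝ => S.ll ((σ:ℂ) + t * Complex.I) v := by
  have hne : ((nm v : ℕ) : ℂ) ≠ 0 := by exact_mod_cast (nm_pos v).ne'
  unfold Sys.ll
  have h1 : Continuous fun t : ℝ => ((nm v : ℕ) : ℂ) ^ (-((σ:ℂ) + t * Complex.I)) :=
    (by fun_prop : Continuous fun t : ℝ => (-((σ:ℂ) + t * Complex.I))).const_cpow (Or.inl hne)
  refine (S.cont v).comp_continuous h1 fun t => ?_
  rw [mem_closedBall_zero_iff]
  exact cp_le v (by simp [hσ])

lemma Sys.Sx_cont (x : ℕ) {σ : ℝ} (hσ : 0 ≤ σ) : Continuous fun t : ℝ => S.Sx x ((σ:ℂ) + t * Complex.I) := by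
  unfold Sys.Sx
  exact continuous_finsetSum _ fun v _ => S.ll_cont v hσ

/-- translation -/
lemma Sys.ll_shift (v : HeightOneSpectrum (𝓞 K)) {σ : ℝ} (hσ : 0 ≤ σ) (t τ : ℝ) :
    ‖S.ll ((σ:ℂ) + ((t + τ : ℝ) : ℂ) * Complex.I) v - S.ll ((σ:ℂ) + t * Complex.I) v‖ ≤
      A * ‖((nm v : ℕ) : ℂ) ^ (-((τ:ℂ) * Complex.I)) - 1‖ := by
  have hne : ((nm v : ℕ) : ℂ) ≠ 0 := by exact_mod_cast (nm_pos v).ne'
  unfold Sys.ll
  refine (S.lip v _ _ (cp_le v (by simp [hσ])) (cp_le v (by simp [hσ]))).trans ?_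
  apply mul_le_mul_of_nonneg_left _ S.A_nonneg
  have e1 : ((nm v : ℕ) : ℂ) ^ (-((σ:ℂ) + ((t + τ : ℝ) : ℂ) * Complex.I)) =
      ((nm v : ℕ) : ℂ) ^ (-((σ:ℂ) + t * Complex.I)) * ((nm v : ℕ) : ℂ) ^ (-((τ:ℂ) * Complex.I)) := by
    rw [← Complex.cpow_add _ _ hne]
    congr 1
    push_cast
    ring
  have e2 : ((nm v : ℕ) : ℂ) ^ (-((σ:ℂ) + ((t + τ : ℝ) : ℂ) * Complex.I)) - ((nm v : ℕ) : ℂ) ^ (-((σ:ℂ) + t * Complex.I)) =
      ((nm v : ℕ) : ℂ) ^ (-((σ:ℂ) + t * Complex.I)) * (((nm v : ℕ) : ℂ) ^ (-((τ:ℂ) * Complex.I)) - 1) := by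
    rw [e1]
    ring
  rw [e2, norm_mul]
  have := cp_le v (u := (σ:ℂ) + t * Complex.I) (by simp [hσ])
  exact mul_le_of_le_one_left (norm_nonneg _) this

end

/-- **uniform approximation by the partial sums** -/
theorem unif (d : ℕ) (A M : ℝ) (hM : 0 ≤ M) (k : ℕ) {ε : ℝ} (hε : 0 < ε) : ∃ P0 : ℕ, 1 ≤ P0 ∧
    ∀ (K : Type) [Field K] [NumberField K] (m : ℝ) (S : Sys K m A), Module.finrank ℚ K ≤ d → m * Module.finrank ℚ K ≤ M →
    ∀ (σ : ℝ), 0 ≤ σ → ∀ (T : ℝ) (x : ℕ),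
      P0 ^ d ≤ x → eLpNorm (fun t : ℝ => S.Sx x ((σ:ℂ) + t * Complex.I) - S.Sx (P0 ^ d) ((σ:ℂ) + t * Complex.I))
        ((2 * (k + 1) : ℕ) : ℝ≥0∞) (mu T) ≤ ENNReal.ofReal ε := by
  -- the size of the main part
  have h1 : Tendsto (fun L : ℕ => 72 * Real.exp (k + 1) * M ^ (2 * (k + 1)) * dl k L) atTop (𝓝 0) := by
    have := (dl_tendsto k).const_mul (72 * Real.exp (k + 1) * M ^ (2 * (k + 1)))
    rwa [mul_zero] at this
  have h2 : ∀ᶠ L : ℕ in atTop, 72 * Real.exp (k + 1) * M ^ (2 * (k + 1)) * dl k L ≤ (ε / 2) ^ (2 * (k + 1)) :=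
    (h1.eventually (gt_mem_nhds (by positivity))).mono fun L hL => le_of_lt hL
  have h3 : ∀ᶠ P0 : ℕ in atTop, 2 * (A + M) * (d:ℝ) / P0 ≤ ε / 2 := by
    have : Tendsto (fun P0 : ℕ => 2 * (A + M) * (d:ℝ) / (P0:ℝ)) atTop (𝓝 0) :=
      tendsto_const_nhds.div_atTop tendsto_natCast_atTop_atTop
    exact (this.eventually (gt_mem_nhds (by positivity))).mono fun L hL => le_of_lt hL
  have h4 : Tendsto lg atTop atTop := by
    unfold Pool.Agent.W350.Edge.lg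
    exact tendsto_nat_floor_atTop.comp (Real.tendsto_log_atTop.comp tendsto_natCast_atTop_atTop)
  obtain ⟨P0, ⟨h5, h6⟩, h7, h8⟩ := (((h4.eventually (h2.and (eventually_ge_atTop 1))).and
    (h3.and (eventually_ge_atTop 1))).exists)
  refine ⟨P0, h8, ?_⟩
  intro K _ _ m S hd hmM σ hσ T x hx
  have hd1 : 0 < d := lt_of_lt_of_le (finrank_pos' (K := K)) hd
  set L := lg P0 with hL
  set F := (Ico (P0 ^ d) x).filter Nat.Prime with hF
  have hFp : ∀ p ∈ F, p.Prime ∧ L ≤ lg p := by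
    intro p hp
    rw [hF, mem_filter, mem_Ico] at hp
    have h9 : P0 ≤ p := (Nat.le_self_pow hd1.ne' P0).trans hp.1.1
    refine ⟨hp.2, ?_⟩
    rw [hL]
    unfold Pool.Agent.W350.Edge.lg
    apply Nat.floor_le_floor
    apply Real.log_le_log
    · exact_mod_cast h8
    · exact_mod_cast h9
  have hmain := main_int k (F := F) (L := L) h6 (fun p hp => ⟨(hFp p hp).1, (hFp p hp).2⟩) (S.cc σ)
    (M := M) hM (fun p hp => by
      refine (S.cc_norm hσ (hFp p hp).1).trans ?_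
      exact mul_le_mul_of_nonneg_right hmM (by positivity)) T
  set B : ℝ → ℂ := fun t => ∑ p ∈ F, S.cc σ p * Complex.exp (-(t * Real.log p) * Complex.I) with hB
  have hAc : Continuous B := by
    rw [hB]
    fun_prop
  have hDc : Continuous fun t : ℝ => S.Sx x ((σ:ℂ) + t * Complex.I) - S.Sx (P0 ^ d) ((σ:ℂ) + t * Complex.I) :=
    (S.Sx_cont x hσ).sub (S.Sx_cont _ hσ)
  have e1 : (fun t : ℝ => S.Sx x ((σ:ℂ) + t * Complex.I) - S.Sx (P0 ^ d) ((σ:ℂ) + t * Complex.I)) =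
      B + fun t : ℝ => (S.Sx x ((σ:ℂ) + t * Complex.I) - S.Sx (P0 ^ d) ((σ:ℂ) + t * Complex.I)) - B t := by
    funext t
    simp only [Pi.add_apply]
    ring
  rw [e1]
  have hp1 : (1:ℝ≥0∞) ≤ ((2 * (k + 1) : ℕ) : ℝ≥0∞) := by
    have : 1 ≤ 2 * (k + 1) := by omega
    exact_mod_cast this
  refine (eLpNorm_add_le hAc.aestronglyMeasurable (hDc.sub hAc).aestronglyMeasurable hp1).trans ?_
  have h9 : eLpNorm B ((2 * (k + 1) : ℕ) : ℝ≥0∞) (mu T) ≤ ENNReal.ofReal (ε / 2) :=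
    eLp_of_int hAc T _ (by omega) (by positivity) (hmain.trans h5)
  have hfr : (1:ℝ) ≤ Module.finrank ℚ K := by exact_mod_cast finrank_pos' (K := K)
  have hmM' : m ≤ M := by
    have := S.m_nonneg
    nlinarith
  have hP0 : (0:ℝ) < P0 := by exact_mod_cast h8
  have h10 : eLpNorm (fun t : ℝ => (S.Sx x ((σ:ℂ) + t * Complex.I) - S.Sx (P0 ^ d) ((σ:ℂ) + t * Complex.I)) - B t)
      ((2 * (k + 1) : ℕ) : ℝ≥0∞) (mu T) ≤ ENNReal.ofReal (ε / 2) :=
    eLp_bdd T _ fun t => (S.decomp hd h8 hx hσ t).trans (le_trans (by gcongr) h7)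
  refine (add_le_add h9 h10).trans (le_of_eq ?_)
  rw [← ENNReal.ofReal_add (by positivity) (by positivity)]
  congr 1
  ring

end Run7.h113.GE
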