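import Mathlib
import Pool.Agent.Run7.h113.LE.KW

/-!
Concentration on the cube.
-/

set_option autoImplicit false

open MeasureTheory Filter Topology Finset
open Run7.h113.LE (cube pt)

namespace Run7.h113.GE

/-- the lemma of Hoeffding -/
lemma one_exp {X : ℝ → ℝ} (hX : Continuous X) (h0 : ∫ x in Set.Icc (0:ℝ) 1, X x = 0) {b : ℝ} (hb : ∀ x, |X x| ≤ b)
    (s : ℝ) : ∫ x in Set.Icc (0:ℝ) 1, Real.exp (s * X x) ≤ Real.exp (s ^ 2 * b ^ 2 / 2) := by
  have hb0 : 0 ≤ b := (abs_nonneg _).trans (hb 0)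
  rcases eq_or_lt_of_le hb0 with h | h
  · have h1 : ∀ x, X x = 0 := fun x => by
      have := hb x
      rw [← h] at this
      exact abs_eq_zero.1 (le_antisymm this (abs_nonneg _))
    simp_rw [h1]
    simp [← h]
  · have hXi : IntegrableOn X (Set.Icc (0:ℝ) 1) := hX.integrableOn_Icc
    have h1 : ∀ x, Real.exp (s * X x) ≤ Real.cosh (s * b) + X x * (Real.sinh (s * b) / b) := by
      intro x
      have h2 : |X x / b| ≤ 1 := by
        rw [abs_div, abs_of_pos h, div_le_one h]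
        exact hb x
      have h3 := Real.exp_mul_le_cosh_add_mul_sinh h2 (s * b)
      have e1 : X x / b * (s * b) = s * X x := by field_simp
      have e2 : X x / b * Real.sinh (s * b) = X x * (Real.sinh (s * b) / b) := by ring
      rwa [e1, e2] at h3
    have h2 : ∫ x in Set.Icc (0:ℝ) 1, Real.exp (s * X x) ≤
        ∫ x in Set.Icc (0:ℝ) 1, (Real.cosh (s * b) + X x * (Real.sinh (s * b) / b)) := by
      refine integral_mono ?_ ?_ h1
      · exact (Real.continuous_exp.comp (continuous_const.mul hX)).integrableOn_Icc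
      · exact (continuous_const.add (hX.mul continuous_const)).integrableOn_Icc
    have h3 : ∫ x in Set.Icc (0:ℝ) 1, (Real.cosh (s * b) + X x * (Real.sinh (s * b) / b)) = Real.cosh (s * b) := by
      rw [integral_add (integrable_const _) (hXi.mul_const _), integral_mul_const, h0]
      simp
    rw [h3] at h2
    refine h2.trans ((Real.cosh_le_exp_half_sq _).trans (le_of_eq ?_))
    congr 1
    ring

variable {ι : Type} [Fintype ι]

/-- exponential moments of sums of independent variables -/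
lemma cube_exp {X : ι → ℝ → ℝ} (hX : ∀ i, Continuous (X i)) (h0 : ∀ i, ∫ x in Set.Icc (0:ℝ) 1, X i x = 0) {b : ι → ℝ}
    (hb : ∀ i x, |X i x| ≤ b i) (s : ℝ) :
    ∫ θ, Real.exp (s * ∑ i, X i (θ i)) ∂(cube ι) ≤ Real.exp (s ^ 2 / 2 * ∑ i, b i ^ 2) := by
  have h1 : ∀ θ : ι → ℝ, Real.exp (s * ∑ i, X i (θ i)) = ∏ i, Real.exp (s * X i (θ i)) := by
    intro θ
    rw [← Real.exp_sum, Finset.mul_sum]
  simp_rw [h1]
  unfold Run7.h113.LE.cube
  rw [integral_fintype_prod_eq_prod (fun i (x : ℝ) => Real.exp (s * X i x))]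
  have h2 : ∀ i, ∫ x in Set.Icc (0:ℝ) 1, Real.exp (s * X i x) ≤ Real.exp (s ^ 2 * b i ^ 2 / 2) := fun i =>
    one_exp (hX i) (h0 i) (hb i) s
  refine (Finset.prod_le_prod (fun i _ => integral_nonneg fun x => (Real.exp_pos _).le) fun i _ => h2 i).trans
    (le_of_eq ?_)
  rw [← Real.exp_sum]
  congr 1
  rw [Finset.mul_sum]
  refine Finset.sum_congr rfl fun i _ => ?_
  ring

lemma cube_bdd_int {F : (ι → ℝ) → ℝ} (hF : Continuous F) {B : ℝ} (hB : ∀ θ, |F θ| ≤ B) : Integrable F (cube ι) :=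
  Integrable.of_bound (C := B) hF.aestronglyMeasurable (Eventually.of_forall fun θ => by
    rw [Real.norm_eq_abs]; exact hB θ)

lemma cube_tail1 {X : ι → ℝ → ℝ} (hX : ∀ i, Continuous (X i)) (h0 : ∀ i, ∫ x in Set.Icc (0:ℝ) 1, X i x = 0) {b : ι → ℝ}
    (hb : ∀ i x, |X i x| ≤ b i) {s : ℝ} (hs : 0 ≤ s) (a : ℝ) :
    (cube ι).real {θ | a ≤ ∑ i, X i (θ i)} ≤ Real.exp (-(s * a) + s ^ 2 / 2 * ∑ i, b i ^ 2) := by
  have hc : Continuous fun θ : ι → ℝ => ∑ i, X i (θ i) :=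
    continuous_finsetSum _ fun i _ => (hX i).comp (continuous_apply i)
  have hbd : ∀ θ : ι → ℝ, |∑ i, X i (θ i)| ≤ ∑ i, b i := fun θ =>
    (Finset.abs_sum_le_sum_abs _ _).trans (Finset.sum_le_sum fun i _ => hb i _)
  have hint : Integrable (fun θ : ι → ℝ => Real.exp (s * ∑ i, X i (θ i))) (cube ι) := by
    refine cube_bdd_int (Real.continuous_exp.comp (continuous_const.mul hc)) (B := Real.exp (s * ∑ i, b i)) fun θ => ?_
    rw [abs_of_pos (Real.exp_pos _)]
    exact Real.exp_le_exp.2 (mul_le_mul_of_nonneg_left ((le_abs_self _).trans (hbd θ)) hs)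
  have h1 := ProbabilityTheory.measure_ge_le_exp_mul_mgf (μ := cube ι) (X := fun θ : ι → ℝ => ∑ i, X i (θ i)) a hs hint
  refine h1.trans ?_
  have h2 := cube_exp hX h0 hb s
  unfold ProbabilityTheory.mgf
  calc Real.exp (-s * a) * ∫ θ, Real.exp (s * ∑ i, X i (θ i)) ∂(cube ι)
      ≤ Real.exp (-s * a) * Real.exp (s ^ 2 / 2 * ∑ i, b i ^ 2) := mul_le_mul_of_nonneg_left h2 (Real.exp_pos _).le
    _ = _ := by
      rw [← Real.exp_add]
      congr 1
      ring

/-- **the tail bound** -/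
theorem cube_tail [DecidableEq ι] {r : ι → ℝ → ℂ} (hr : ∀ i, Continuous (r i)) (h0 : ∀ i, ∫ x in Set.Icc (0:ℝ) 1, r i x = 0) {b : ι → ℝ}
    (hb : ∀ i x, ‖r i x‖ ≤ b i) (J : Finset ι) {s : ℝ} (hs : 0 ≤ s) (a : ℝ) :
    (cube ι).real {θ | (∑ i ∈ J, b i) + 2 * a ≤ ‖∑ i, r i (θ i)‖} ≤
      4 * Real.exp (-(s * a) + s ^ 2 / 2 * ∑ i ∈ Jᶜ, b i ^ 2) := by
  have hb0 : ∀ i, 0 ≤ b i := fun i => (norm_nonneg _).trans (hb i 0)
  set J' : Finset ι := Jᶜ with hJ'
  -- four real families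
  have key : ∀ L : ℂ →L[ℝ] ℝ, ‖L‖ ≤ 1 → (cube ι).real {θ | a ≤ ∑ i ∈ J', L (r i (θ i))} ≤
      Real.exp (-(s * a) + s ^ 2 / 2 * ∑ i ∈ J', b i ^ 2) := by
    intro L hL
    set X : ι → ℝ → ℝ := fun i x => if i ∈ J' then L (r i x) else 0 with hX
    set b' : ι → ℝ := fun i => if i ∈ J' then b i else 0 with hb'
    have hXc : ∀ i, Continuous (X i) := by
      intro i
      simp only [hX]
      split_ifs
      · exact L.continuous.comp (hr i)
      · exact continuous_const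
    have hX0 : ∀ i, ∫ x in Set.Icc (0:ℝ) 1, X i x = 0 := by
      intro i
      simp only [hX]
      split_ifs
      · rw [ContinuousLinearMap.integral_comp_comm L ((hr i).integrableOn_Icc), h0 i, map_zero]
      · simp
    have hXb : ∀ i x, |X i x| ≤ b' i := by
      intro i x
      simp only [hX, hb']
      split_ifs
      · have h1 := L.le_opNorm (r i x)
        rw [Real.norm_eq_abs] at h1
        have h2 := hb i x
        have h3 := norm_nonneg (r i x)
        nlinarith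
      · simp
    have h1 := cube_tail1 hXc hX0 hXb hs a
    have e1 : ∀ θ : ι → ℝ, ∑ i, X i (θ i) = ∑ i ∈ J', L (r i (θ i)) := by
      intro θ
      simp only [hX]
      rw [Finset.sum_ite_mem, Finset.univ_inter]
    have e2 : ∑ i, b' i ^ 2 = ∑ i ∈ J', b i ^ 2 := by
      simp only [hb', ite_pow]
      rw [show (0:ℝ) ^ 2 = 0 by norm_num, Finset.sum_ite_mem, Finset.univ_inter]
    simp_rw [e1] at h1
    rwa [e2] at h1
  have k1 := key Complex.reCLM (by rw [Complex.reCLM_norm])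
  have k2 := key (-Complex.reCLM) (by rw [norm_neg, Complex.reCLM_norm])
  have k3 := key Complex.imCLM (by rw [Complex.imCLM_norm])
  have k4 := key (-Complex.imCLM) (by rw [norm_neg, Complex.imCLM_norm])
  have hsub : {θ : ι → ℝ | (∑ i ∈ J, b i) + 2 * a ≤ ‖∑ i, r i (θ i)‖} ⊆
      (({θ | a ≤ ∑ i ∈ J', Complex.reCLM (r i (θ i))} ∪ {θ | a ≤ ∑ i ∈ J', (-Complex.reCLM) (r i (θ i))}) ∪
      ({θ | a ≤ ∑ i ∈ J', Complex.imCLM (r i (θ i))} ∪ {θ | a ≤ ∑ i ∈ J', (-Complex.imCLM) (r i (θ i))})) := by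
    intro θ hθ
    simp only [Set.mem_ofPred_eq] at hθ
    set W := ∑ i ∈ J', r i (θ i) with hW
    have h1 : ∑ i, r i (θ i) = (∑ i ∈ J, r i (θ i)) + W := by
      rw [hW, hJ', Finset.sum_add_sum_compl]
    have h2 : ‖∑ i ∈ J, r i (θ i)‖ ≤ ∑ i ∈ J, b i := norm_sum_le_of_le _ fun i _ => hb i _
    have h3 : 2 * a ≤ ‖W‖ := by
      have := norm_add_le (∑ i ∈ J, r i (θ i)) W
      rw [h1] at hθ
      linarith
    have h4 := Complex.norm_le_abs_re_add_abs_im W
    have h5 : ∀ L : ℂ →L[ℝ] ℝ, ∑ i ∈ J', L (r i (θ i)) = L W := fun L => by rw [hW, map_sum]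
    simp only [Set.mem_union, Set.mem_ofPred_eq]
    rw [h5, h5, h5, h5]
    simp only [Complex.reCLM_apply, Complex.imCLM_apply, neg_apply]
    by_contra hcon
    push Not at hcon
    obtain ⟨⟨h6, h7⟩, h8, h9⟩ := hcon
    have h10 : |W.re| < a := abs_lt.2 ⟨by linarith, h6⟩
    have h11 : |W.im| < a := abs_lt.2 ⟨by linarith, h8⟩
    linarith
  have h6 := measureReal_mono (μ := cube ι) hsub
  refine h6.trans ((measureReal_union_le _ _).trans ?_)
  have h7 := (measureReal_union_le (μ := cube ι) {θ : ι → ℝ | a ≤ ∑ i ∈ J', Complex.reCLM (r i (θ i))}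
    {θ | a ≤ ∑ i ∈ J', (-Complex.reCLM) (r i (θ i))})
  have h8 := (measureReal_union_le (μ := cube ι) {θ : ι → ℝ | a ≤ ∑ i ∈ J', Complex.imCLM (r i (θ i))}
    {θ | a ≤ ∑ i ∈ J', (-Complex.imCLM) (r i (θ i))})
  linarith

end Run7.h113.GE
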