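import Mathlib
import Pool.Agent.Run7.h113.GE.Sys

/-!
The boundary values and the simultaneous almost periods.
-/

set_option autoImplicit false

open MeasureTheory Filter Topology Finset NumberField IsDedekindDomain
open scoped ENNReal
open Pool.Agent.H921R2.TatePole (nm two_le_nm below deg nm_eq below_le_nm card_above)
open Pool.Agent.R433.MD (norm_nm_cpow nm_pos)
open Pool.Agent.W350.EdgeV (FV mem_FV tendsto_FV abel_V)
open Pool.Agent.W350.EdgeNF (hfin below_sq_summable hpow)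
open Pool.Agent.W350.Edge (lg lg_le lt_lg ps term divSet dimH_divSet)
open Run7.h113.LE (mu below_ge sum_below card_FV card_nm eLp_of_int eLp_bdd main_int dl dl_tendsto finrank_pos' vol_zero
  below_inv mu_ac RelDense Per relDense_Per norm_nat_cpow mp_shift eLp_shift)

namespace Run7.h113.GE

section
variable {K : Type} [Field K] [NumberField K] {m A : ℝ} (S : Sys K m A)

/-- the coefficients of the sum over the primes -/
noncomputable def Sys.ac (p : ℕ) : ℂ := if p.Prime then p * S.cc 0 p else 0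

lemma Sys.ac_norm (p : ℕ) : ‖S.ac p‖ ≤ m * Module.finrank ℚ K := by
  unfold Sys.ac
  split_ifs with h
  · have h1 := S.cc_norm le_rfl h
    have hp0 : (0:ℝ) < p := by exact_mod_cast h.pos
    rw [norm_mul, Complex.norm_natCast]
    calc (p:ℝ) * ‖S.cc 0 p‖ ≤ p * ((m * Module.finrank ℚ K) * (1 / (p:ℝ))) :=
          mul_le_mul_of_nonneg_left h1 hp0.le
      _ = _ := by field_simp
  · rw [norm_zero]
    exact mul_nonneg S.m_nonneg (Nat.cast_nonneg _)

/-- the exceptional set -/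
noncomputable def Sys.Ex : Set ℝ := divSet S.ac

lemma Sys.Ex_null : volume S.Ex = 0 := vol_zero (dimH_divSet _ _ S.ac_norm)

/-- the part of the first order terms that is absolutely summable on the edge -/
noncomputable def Sys.f2 (t : ℝ) (v : HeightOneSpectrum (𝓞 K)) : ℂ :=
  if (nm v).Prime then 0 else S.f1 (((0:ℝ):ℂ) + t * Complex.I) v

lemma Sys.f2_summable (t : ℝ) : Summable (S.f2 t) := by
  refine Summable.of_norm_bounded (below_sq_summable.mul_left m) fun v => ?_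
  have hm := S.m_nonneg
  unfold Sys.f2
  split_ifs with h
  · rw [norm_zero]; positivity
  · have h5 := S.f1_edge (u := ((0:ℝ):ℂ) + t * Complex.I) (by simp) v
    refine h5.trans (mul_le_mul_of_nonneg_left ?_ hm)
    obtain ⟨h7, h8, h9⟩ := nm_eq v
    have h10 : 2 ≤ deg v := by
      by_contra h11
      have h12 : deg v = 1 := by omega
      rw [h12, pow_one] at h7
      exact h (by rw [h7]; exact (below v).prop)
    have h11 : (below v : ℕ) ^ 2 ≤ nm v := by
      rw [h7]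
      exact Nat.pow_le_pow_right (below v).prop.pos h10
    have h12 : (0:ℝ) < ((below v : ℕ) : ℝ) := by exact_mod_cast (below v).prop.pos
    rw [below_inv]
    exact one_div_le_one_div_of_le (by positivity) (by exact_mod_cast h11)

/-- the sum over the primes -/
lemma Sys.ps_eq (t : ℝ) (x : ℕ) :
    ps S.ac t x = ∑ v ∈ FV nm (hfin (K := K)) x, if (nm v).Prime then S.f1 (((0:ℝ):ℂ) + t * Complex.I) v else 0 := by
  classical
  have hmaps : ∀ v ∈ FV nm (hfin (K := K)) x, nm v ∈ range x := fun v hv => mem_range.2 (mem_FV.1 hv)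
  rw [← sum_fiberwise_of_maps_to hmaps]
  unfold ps
  refine Finset.sum_congr rfl fun p hp => ?_
  rw [mem_range] at hp
  unfold term
  split_ifs with h
  · unfold Sys.ac
    rw [if_pos h]
    have hp0 : (p:ℂ) ≠ 0 := by exact_mod_cast h.ne_zero
    rw [mul_div_cancel_left₀ _ hp0]
    unfold Sys.cc
    rw [Finset.sum_mul]
    apply Finset.sum_congr
    · ext v
      simp only [mem_filter, mem_FV]
      constructor
      · rintro ⟨h1, h2⟩
        exact ⟨by omega, h2⟩
      · rintro ⟨h1, h2⟩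
        exact ⟨by omega, h2⟩
    · intro v hv
      rw [mem_filter] at hv
      rw [if_pos (by rw [hv.2]; exact h), S.first_eq, hv.2]
  · symm
    apply Finset.sum_eq_zero
    intro v hv
    rw [mem_filter] at hv
    rw [if_neg (by rw [hv.2]; exact h)]

/-- convergence of the first order terms on the edge -/
lemma Sys.f1_conv {t : ℝ} (ht : t ∉ S.Ex) :
    ∃ l, Tendsto (fun x => ∑ v ∈ FV nm (hfin (K := K)) x, S.f1 (((0:ℝ):ℂ) + t * Complex.I) v) atTop (𝓝 l) := by
  unfold Sys.Ex divSet at ht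
  simp only [Set.mem_ofPred_eq, not_not] at ht
  obtain ⟨l, hl⟩ := ht
  have h1 := (S.f2_summable t).hasSum.comp (tendsto_FV (hfin (K := K)))
  refine ⟨l + ∑' v, S.f2 t v, (hl.add h1).congr fun x => ?_⟩
  rw [S.ps_eq]
  simp only [Function.comp_apply]
  rw [← Finset.sum_add_distrib]
  refine Finset.sum_congr rfl fun v _ => ?_
  unfold Sys.f2
  split_ifs <;> simp

/-- the logarithm of the Euler product to the right of the edge -/
noncomputable def Sys.LL (u : ℂ) : ℂ := ∑' v, S.ll u v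

/-- the boundary values -/
noncomputable def Sys.Lam (t : ℝ) : ℂ := limUnder atTop (fun x => S.Sx x (((0:ℝ):ℂ) + t * Complex.I))

/-- **convergence on the edge** -/
theorem Sys.Lam_tendsto {t : ℝ} (ht : t ∉ S.Ex) :
    Tendsto (fun x => S.Sx x (((0:ℝ):ℂ) + t * Complex.I)) atTop (𝓝 (S.Lam t)) := by
  obtain ⟨l, hl⟩ := S.f1_conv ht
  have h1 := (S.rm_summable (u := ((0:ℝ):ℂ) + t * Complex.I) (by simp)).hasSum.comp (tendsto_FV (hfin (K := K)))
  have h2 : Tendsto (fun x => S.Sx x (((0:ℝ):ℂ) + t * Complex.I)) atTop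
      (𝓝 (l + ∑' v, S.rm (((0:ℝ):ℂ) + t * Complex.I) v)) := by
    refine (hl.add h1).congr fun x => ?_
    simp only [Function.comp_apply]
    rw [← Finset.sum_add_distrib]
    unfold Sys.Sx
    refine Finset.sum_congr rfl fun v _ => ?_
    unfold Sys.rm
    ring
  unfold Sys.Lam
  exact tendsto_nhds_limUnder ⟨_, h2⟩

lemma Sys.rm_contWithin (v : HeightOneSpectrum (𝓞 K)) {u₀ : ℂ} (hu : 0 ≤ u₀.re) :
    ContinuousWithinAt (fun u => S.rm u v) {u : ℂ | 0 ≤ u.re} u₀ := by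
  have hne : ((nm v : ℕ) : ℂ) ≠ 0 := by exact_mod_cast (nm_pos v).ne'
  have h1 : Continuous fun u : ℂ => ((nm v : ℕ) : ℂ) ^ (-u) :=
    (by fun_prop : Continuous fun u : ℂ => (-u)).const_cpow (Or.inl hne)
  unfold Sys.rm Sys.ll Sys.f1
  refine ContinuousWithinAt.sub ?_ (continuous_const.mul h1).continuousWithinAt
  have h2 : ContinuousWithinAt (S.G v) (Metric.closedBall 0 1) (((nm v : ℕ) : ℂ) ^ (-u₀)) :=
    S.cont v _ (by rw [mem_closedBall_zero_iff]; exact cp_le v hu)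
  exact ContinuousWithinAt.comp (f := fun u : ℂ => ((nm v : ℕ) : ℂ) ^ (-u)) h2 h1.continuousWithinAt fun u hu' => by
    rw [mem_closedBall_zero_iff]
    exact cp_le v hu'

/-- **boundary values in every angle** -/
theorem Sys.LL_angle {t : ℝ} (ht : t ∉ S.Ex) (C : ℝ) :
    Tendsto S.LL (𝓝[{u : ℂ | 0 < u.re ∧ ‖u - t * Complex.I‖ ≤ C * u.re}] (t * Complex.I)) (𝓝 (S.Lam t)) := by
  obtain ⟨l, hl⟩ := S.f1_conv ht
  set u₀ : ℂ := ((0:ℝ):ℂ) + t * Complex.I with hu₀
  have hu₀' : u₀ = t * Complex.I := by rw [hu₀]; simp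
  have hre0 : u₀.re = 0 := by rw [hu₀]; simp
  -- the first order terms
  have hexp : ∀ z : ℂ, ∀ v : HeightOneSpectrum (𝓞 K), Complex.exp (-z * Real.log (nm v)) * S.f1 u₀ v = S.f1 (u₀ + z) v := by
    intro z v
    have hne : ((nm v : ℕ) : ℂ) ≠ 0 := by exact_mod_cast (nm_pos v).ne'
    unfold Sys.f1
    have e1 : Complex.exp (-z * Real.log (nm v)) = ((nm v : ℕ) : ℂ) ^ (-z) := by
      rw [Complex.cpow_def_of_ne_zero hne, ← Complex.natCast_log]
      congr 1
      ring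
    rw [e1, mul_left_comm, ← Complex.cpow_add _ _ hne]
    congr 2
    ring
  have h1 := abel_V (hfin (K := K)) (S.f1 u₀) l hl (fun z hz => by
    simp only [hexp]
    exact S.f1_summable (by rw [Complex.add_re, hre0, zero_add]; exact hz)) C
  simp only [hexp] at h1
  -- translate
  have hmap : Tendsto (fun u : ℂ => u - u₀) (𝓝[{u : ℂ | 0 < u.re ∧ ‖u - t * Complex.I‖ ≤ C * u.re}] u₀)
      (𝓝[{z : ℂ | 0 < z.re ∧ ‖z‖ ≤ C * z.re}] 0) := by
    apply tendsto_nhdsWithin_of_tendsto_nhds_of_eventually_within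
    · have : Tendsto (fun u : ℂ => u - u₀) (𝓝 u₀) (𝓝 (u₀ - u₀)) := (continuous_id.sub continuous_const).tendsto _
      rw [sub_self] at this
      exact this.mono_left nhdsWithin_le_nhds
    · filter_upwards [self_mem_nhdsWithin] with u hu
      have e1 : (u - u₀).re = u.re := by rw [Complex.sub_re, hre0, sub_zero]
      refine ⟨by rw [e1]; exact hu.1, ?_⟩
      rw [e1, hu₀']
      exact hu.2
  have h2 := h1.comp hmap
  have h3 : ((fun z : ℂ => ∑' v, S.f1 (u₀ + z) v) ∘ fun u : ℂ => u - u₀) = fun u => ∑' v, S.f1 u v := by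
    funext u
    simp
  rw [h3] at h2
  -- the remainders
  have h4 : Tendsto (fun u => ∑' v, S.rm u v) (𝓝[{u : ℂ | 0 < u.re ∧ ‖u - t * Complex.I‖ ≤ C * u.re}] u₀)
      (𝓝 (∑' v, S.rm u₀ v)) := by
    refine tendsto_tsum_of_dominated_convergence (below_sq_summable.mul_left A) (fun v => ?_) ?_
    · refine (S.rm_contWithin v (by rw [hre0])).tendsto.mono_left (nhdsWithin_mono _ ?_)
      intro u hu
      exact hu.1.le
    · filter_upwards [self_mem_nhdsWithin] with u hu v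
      exact S.rm_norm hu.1.le v
  have h5 := h2.add h4
  -- identify the limit
  have h6 : S.Lam t = l + ∑' v, S.rm u₀ v := by
    have h7 := (S.rm_summable (u := u₀) (by rw [hre0])).hasSum.comp (tendsto_FV (hfin (K := K)))
    have h8 : Tendsto (fun x => S.Sx x u₀) atTop (𝓝 (l + ∑' v, S.rm u₀ v)) := by
      refine (hl.add h7).congr fun x => ?_
      simp only [Function.comp_apply]
      rw [← Finset.sum_add_distrib]
      unfold Sys.Sx
      refine Finset.sum_congr rfl fun v _ => ?_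
      unfold Sys.rm
      ring
    exact tendsto_nhds_unique (S.Lam_tendsto ht) h8
  rw [h6, ← hu₀']
  simp only [← hu₀'] at h5
  refine h5.congr' ?_
  filter_upwards [self_mem_nhdsWithin] with u hu
  unfold Sys.LL
  rw [← (S.f1_summable hu.1).tsum_add (S.rm_summable hu.1.le)]
  refine tsum_congr fun v => ?_
  unfold Sys.rm
  ring

/-! ### almost periods -/

lemma Sys.Ex_ae : ∀ᵐ t : ℝ, t ∉ S.Ex := measure_eq_zero_iff_ae_notMem.1 S.Ex_null

lemma Sys.Lam_lim : ∀ᵐ t : ℝ, Tendsto (fun x => S.Sx x (((0:ℝ):ℂ) + t * Complex.I)) atTop (𝓝 (S.Lam t)) := by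
  filter_upwards [S.Ex_ae] with t ht
  exact S.Lam_tendsto ht

lemma Sys.LL_lim {σ : ℝ} (hσ : 0 < σ) (t : ℝ) :
    Tendsto (fun x => S.Sx x ((σ:ℂ) + t * Complex.I)) atTop (𝓝 (S.LL ((σ:ℂ) + t * Complex.I))) :=
  (S.ll_summable (u := (σ:ℂ) + t * Complex.I) (by simpa using hσ)).hasSum.comp (tendsto_FV (hfin (K := K)))

/-- the limit functions -/
def Sys.IsLim (σ : ℝ) (g : ℝ → ℂ) : Prop :=
  ∀ᵐ t : ℝ, Tendsto (fun x => S.Sx x ((σ:ℂ) + t * Complex.I)) atTop (𝓝 (g t))

variable {S}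

lemma Sys.IsLim.aesm {σ : ℝ} (hσ : 0 ≤ σ) {g : ℝ → ℂ} (hg : S.IsLim σ g) : AEStronglyMeasurable g volume :=
  aestronglyMeasurable_of_tendsto_ae (u := atTop)
    (f := fun (x : ℕ) (t : ℝ) => S.Sx x ((σ:ℂ) + t * Complex.I)) (fun x => (S.Sx_cont x hσ).aestronglyMeasurable) hg

/-- the tail -/
lemma Sys.IsLim.tail {σ : ℝ} (hσ : 0 ≤ σ) {g : ℝ → ℂ}
    (hg : S.IsLim σ g) {Y : ℕ} {q : ℝ≥0∞} {T : ℝ} {δ : ℝ≥0∞}
    (h : ∀ x : ℕ, Y ≤ x → eLpNorm (fun t : ℝ => S.Sx x ((σ:ℂ) + t * Complex.I) - S.Sx Y ((σ:ℂ) + t * Complex.I)) q (mu T) ≤ δ) :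
    eLpNorm (fun t : ℝ => g t - S.Sx Y ((σ:ℂ) + t * Complex.I)) q (mu T) ≤ δ := by
  refine (Lp.eLpNorm_lim_le_liminf_eLpNorm
    (f := fun (x : ℕ) (t : ℝ) => S.Sx x ((σ:ℂ) + t * Complex.I) - S.Sx Y ((σ:ℂ) + t * Complex.I))
    (fun x => ((S.Sx_cont x hσ).sub (S.Sx_cont Y hσ)).aestronglyMeasurable) _ ?_).trans ?_
  · apply (mu_ac T).ae_le
    filter_upwards [hg] with t ht
    exact ht.sub_const _
  · apply Filter.liminf_le_of_frequently_le'
    apply Eventually.frequently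
    filter_upwards [eventually_ge_atTop Y] with x hx
    exact h x hx

variable (S)

lemma Sys.Sx_shift {d : ℕ} (hd : Module.finrank ℚ K ≤ d) {σ : ℝ}
    (hσ : 0 ≤ σ) (Y : ℕ) {η : ℝ} (hη : 0 ≤ η) {τ : ℝ} (hτ : τ ∈ Per Y η) (t : ℝ) :
    ‖S.Sx Y ((σ:ℂ) + ((t + τ : ℝ) : ℂ) * Complex.I) - S.Sx Y ((σ:ℂ) + t * Complex.I)‖ ≤ A * (d * Y * η) := by
  unfold Sys.Sx
  rw [← Finset.sum_sub_distrib]
  have h1 : ∀ v ∈ FV nm (hfin (K := K)) Y, ‖S.ll ((σ:ℂ) + ((t + τ : ℝ) : ℂ) * Complex.I) v -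
      S.ll ((σ:ℂ) + t * Complex.I) v‖ ≤ A * η := by
    intro v hv
    rw [mem_FV] at hv
    refine (S.ll_shift v hσ t τ).trans ?_
    apply mul_le_mul_of_nonneg_left _ S.A_nonneg
    exact hτ (nm v) (nm_pos v) hv
  refine (norm_sum_le_of_le _ h1).trans ?_
  rw [Finset.sum_const, nsmul_eq_mul]
  have h2 : ((FV nm (hfin (K := K)) Y).card : ℝ) ≤ d * Y := by
    have := card_FV (K := K) Y
    have h3 : (FV nm (hfin (K := K)) Y).card ≤ d * Y := this.trans (Nat.mul_le_mul_right _ hd)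
    exact_mod_cast h3
  have hA := S.A_nonneg
  calc ((FV nm (hfin (K := K)) Y).card : ℝ) * (A * η) ≤ (d * Y) * (A * η) :=
        mul_le_mul_of_nonneg_right h2 (by positivity)
    _ = _ := by ring

end

/-- **Simultaneous almost periods** -/
theorem ap_main (d : ℕ) (A M : ℝ) (hA : 0 ≤ A) (hM : 0 ≤ M) {r : ℝ≥0∞} (hr : r ≠ ∞) {ε : ℝ} (hε : 0 < ε) :
    ∃ P : Set ℝ, RelDense P ∧
    ∀ (K : Type) [Field K] [NumberField K] (m : ℝ) (S : Sys K m A), Module.finrank ℚ K ≤ d → m * Module.finrank ℚ K ≤ M →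
    ∀ (σ : ℝ), 0 ≤ σ → ∀ g : ℝ → ℂ, S.IsLim σ g →
    ∀ τ ∈ P, ∀ T : ℝ, eLpNorm (fun t => g (t + τ) - g t) r (mu T) ≤ ENNReal.ofReal ε := by
  obtain ⟨k, hk⟩ : ∃ k : ℕ, r ≤ (k : ℝ≥0∞) := ENNReal.exists_nat_gt hr |>.imp fun _ h => h.le
  set q : ℝ≥0∞ := ((2 * (k + 1) : ℕ) : ℝ≥0∞) with hq
  have hrq : r ≤ q := by
    refine hk.trans ?_
    rw [hq]
    exact_mod_cast (by omega : k ≤ 2 * (k + 1))
  have hq1 : 1 ≤ q := by
    rw [hq]
    exact_mod_cast (by omega : 1 ≤ 2 * (k + 1))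
  obtain ⟨P0, hP0, hunif⟩ := unif d A M hM k (ε := ε / 4) (by positivity)
  set Y := P0 ^ d with hY
  set η : ℝ := ε / (4 * (A + 1) * (d * Y + 1)) with hη
  have hη0 : 0 < η := by positivity
  refine ⟨Per Y η, relDense_Per Y hη0, ?_⟩
  intro K _ _ m S hd hmM σ hσ g hg τ hτ T
  have hgm := hg.aesm hσ
  have hSc := S.Sx_cont Y hσ
  have hDm : AEStronglyMeasurable (fun t : ℝ => g t - S.Sx Y ((σ:ℂ) + t * Complex.I)) volume :=
    hgm.sub hSc.aestronglyMeasurable
  -- decomposition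
  set F : ℝ → ℂ := fun t => g (t + τ) - S.Sx Y ((σ:ℂ) + ((t + τ : ℝ) : ℂ) * Complex.I) with hF
  set B : ℝ → ℂ := fun t => g t - S.Sx Y ((σ:ℂ) + t * Complex.I) with hB
  set C : ℝ → ℂ := fun t => S.Sx Y ((σ:ℂ) + ((t + τ : ℝ) : ℂ) * Complex.I) - S.Sx Y ((σ:ℂ) + t * Complex.I) with hC
  have e1 : (fun t => g (t + τ) - g t) = (F + C) - B := by
    funext t
    simp only [hF, hB, hC, Pi.add_apply, Pi.sub_apply]
    ring
  have hAm : AEStronglyMeasurable F (mu T) := by
    have h1 : AEStronglyMeasurable (fun t : ℝ => g t - S.Sx Y ((σ:ℂ) + t * Complex.I)) (mu (T + τ)) :=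
      hDm.mono_ac (mu_ac _)
    exact h1.comp_measurePreserving (mp_shift T τ)
  have hBm : AEStronglyMeasurable B (mu T) := hDm.mono_ac (mu_ac _)
  have hCm : AEStronglyMeasurable C (mu T) := by
    apply Continuous.aestronglyMeasurable
    exact (hSc.comp (continuous_id.add continuous_const)).sub hSc
  have hA1 : eLpNorm F q (mu T) ≤ ENNReal.ofReal (ε / 4) := by
    have h1 := eLp_shift hDm q T τ
    rw [h1]
    exact hg.tail hσ fun x hx => hunif K m S hd hmM σ hσ (T + τ) x hx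
  have hB1 : eLpNorm B q (mu T) ≤ ENNReal.ofReal (ε / 4) :=
    hg.tail hσ fun x hx => hunif K m S hd hmM σ hσ T x hx
  have hC1 : eLpNorm C q (mu T) ≤ ENNReal.ofReal (ε / 4) := by
    apply eLp_bdd
    intro t
    refine (S.Sx_shift hd hσ Y hη0.le hτ t).trans ?_
    rw [hη]
    have h1 : (0:ℝ) ≤ d * Y := by positivity
    rw [show A * ((d:ℝ) * Y * (ε / (4 * (A + 1) * (d * Y + 1)))) = (ε / 4) * ((A / (A + 1)) * ((d * Y) / (d * Y + 1))) by
      field_simp]
    apply mul_le_of_le_one_right (by positivity)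
    have h2 : A / (A + 1) ≤ 1 := by
      rw [div_le_one (by positivity)]
      linarith
    have h3 : (d * Y : ℝ) / (d * Y + 1) ≤ 1 := by
      rw [div_le_one (by positivity)]
      linarith
    exact mul_le_one₀ h2 (by positivity) h3
  rw [e1]
  refine (eLpNorm_le_eLpNorm_of_exponent_le hrq ((hAm.add hCm).sub hBm)).trans ?_
  refine (eLpNorm_sub_le (hAm.add hCm) hBm hq1).trans ?_
  refine (add_le_add (eLpNorm_add_le hAm hCm hq1) le_rfl).trans ?_
  refine (add_le_add (add_le_add hA1 hC1) hB1).trans ?_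
  rw [← ENNReal.ofReal_add (by positivity) (by positivity), ← ENNReal.ofReal_add (by positivity) (by positivity)]
  apply ENNReal.ofReal_le_ofReal
  linarith

end Run7.h113.GE
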