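import Mathlib
import Pool.Agent.Run7.h113.GE.Edge
import Pool.Agent.Run7.h113.LE.LawMain

/-!
Exponential moments, the random Euler product and uniform distribution.
-/

set_option autoImplicit false

open MeasureTheory Filter Topology Finset NumberField IsDedekindDomain
open scoped ENNReal
open Pool.Agent.H921R2.TatePole (nm two_le_nm below deg nm_eq below_le_nm card_above)
open Pool.Agent.R433.MD (norm_nm_cpow nm_pos)
open Pool.Agent.W350.EdgeV (FV mem_FV tendsto_FV abel_V)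
open Pool.Agent.W350.EdgeNF (hfin below_sq_summable hpow)
open Pool.Agent.W350.Edge (lg)
open Run7.h113.LE

namespace Run7.h113.GE

/-- the exponent -/
noncomputable def kp (M : ℝ) : ℝ := kap ⌈M⌉₊

lemma kp_pos (M : ℝ) : 0 < kp M := kap_pos _

/-- the common bound for the exponential moments -/
noncomputable def BB (d : ℕ) (A M : ℝ) : ℝ :=
  Real.exp (kp M * (A * (d * 4 ^ d) + 2 * (A + M) * d)) * (3 * (1 + 36 * Zc))

lemma BB_nonneg (d : ℕ) (A M : ℝ) : 0 ≤ BB d A M := by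
  unfold BB
  have := Zc_nonneg
  positivity

section
variable {K : Type} [Field K] [NumberField K] {m A : ℝ} (S : Sys K m A)

lemma Sys.Sx_le {d : ℕ} (hd : Module.finrank ℚ K ≤ d) (Y : ℕ)
    {u : ℂ} (hu : 0 ≤ u.re) : ‖S.Sx Y u‖ ≤ A * (d * Y) := by
  unfold Sys.Sx
  refine (norm_sum_le_of_le _ fun v _ => S.ll_triv hu v).trans ?_
  rw [Finset.sum_const, nsmul_eq_mul]
  have h2 : ((FV nm (hfin (K := K)) Y).card : ℝ) ≤ d * Y := by
    have := card_FV (K := K) Y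
    have h3 : (FV nm (hfin (K := K)) Y).card ≤ d * Y := this.trans (Nat.mul_le_mul_right _ hd)
    exact_mod_cast h3
  have := S.A_nonneg
  nlinarith

include S in
lemma Sys.m_le {M : ℝ} (hmM : m * Module.finrank ℚ K ≤ M) : m ≤ M := by
  have hfr : (1:ℝ) ≤ Module.finrank ℚ K := by exact_mod_cast finrank_pos' (K := K)
  have := S.m_nonneg
  nlinarith

include S in
lemma Sys.M_nonneg {M : ℝ} (hmM : m * Module.finrank ℚ K ≤ M) : 0 ≤ M := S.m_nonneg.trans (S.m_le hmM)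

/-- uniform exponential moments -/
theorem Sys.exp_Sx {d : ℕ} (hd : Module.finrank ℚ K ≤ d) {M : ℝ} (hmM : m * Module.finrank ℚ K ≤ M) {σ : ℝ}
    (hσ : 0 ≤ σ) {x : ℕ} (hx : 4 ^ d ≤ x) (T : ℝ) :
    ∫⁻ t : ℝ, ENNReal.ofReal (Real.exp (kp M * ‖S.Sx x ((σ:ℂ) + t * Complex.I)‖)) ∂(mu T) ≤
      ENNReal.ofReal (BB d A M) := by
  have hκ := kp_pos M
  have hd1 : 0 < d := lt_of_lt_of_le (finrank_pos'' (K := K)) hd
  have hM := S.M_nonneg hmM
  have hmM' := S.m_le hmM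
  have hA := S.A_nonneg
  set F := (Ico (4 ^ d) x).filter Nat.Prime with hF
  have hFp : ∀ p ∈ F, p.Prime ∧ 4 ≤ p := by
    intro p hp
    rw [hF, mem_filter, mem_Ico] at hp
    exact ⟨hp.2, (Nat.le_self_pow hd1.ne' 4).trans hp.1.1⟩
  have h1 := exp_mom ⌈M⌉₊ (F := F) (L := 1) le_rfl (fun p hp => ⟨(hFp p hp).1, one_le_lg (hFp p hp).2⟩) (S.cc σ)
    (fun p hp => by
      refine (S.cc_norm hσ (hFp p hp).1).trans ?_
      apply mul_le_mul_of_nonneg_right _ (by positivity)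
      have := Nat.le_ceil M
      linarith) T
  have h2 : ∀ t : ℝ, ENNReal.ofReal (Real.exp (kp M * ‖S.Sx x ((σ:ℂ) + t * Complex.I)‖)) ≤
      ENNReal.ofReal (Real.exp (kp M * (A * (d * 4 ^ d) + 2 * (A + M) * d))) *
        ENNReal.ofReal (Real.exp (kap ⌈M⌉₊ * ‖∑ p ∈ F, S.cc σ p * Complex.exp (-(t * Real.log p) * Complex.I)‖)) := by
    intro t
    rw [← ENNReal.ofReal_mul (Real.exp_pos _).le, ← Real.exp_add]
    apply ENNReal.ofReal_le_ofReal
    apply Real.exp_le_exp.2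
    show kp M * _ ≤ kp M * _ + kp M * _
    rw [← mul_add]
    apply mul_le_mul_of_nonneg_left _ hκ.le
    have h3 := S.decomp hd (P0 := 4) (by norm_num) hx hσ t
    have h4 := S.Sx_le hd (4 ^ d) (u := (σ:ℂ) + t * Complex.I) (by simp [hσ])
    set a := S.Sx x ((σ:ℂ) + t * Complex.I)
    set b := S.Sx (4 ^ d) ((σ:ℂ) + t * Complex.I)
    set c := ∑ p ∈ F, S.cc σ p * Complex.exp (-(t * Real.log p) * Complex.I)
    have h5 : ‖a‖ ≤ ‖b‖ + ‖a - b - c‖ + ‖c‖ := by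
      have e : a = b + (a - b - c) + c := by ring
      calc ‖a‖ = ‖b + (a - b - c) + c‖ := by rw [← e]
        _ ≤ _ := norm_add₃_le
    push_cast at h3 h4
    have h6 : 2 * (A + m) * (d:ℝ) / 4 ≤ 2 * (A + M) * d := by
      have hd0 : (0:ℝ) ≤ d := Nat.cast_nonneg d
      have h7 : 2 * (A + m) * (d:ℝ) ≤ 2 * (A + M) * d := by gcongr
      have h8 : 0 ≤ 2 * (A + M) * (d:ℝ) := by positivity
      linarith
    linarith
  refine (lintegral_mono h2).trans ?_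
  rw [lintegral_const_mul' _ _ ENNReal.ofReal_ne_top]
  unfold BB
  rw [ENNReal.ofReal_mul (Real.exp_pos _).le]
  exact mul_le_mul_right h1 _

variable {S}

/-- exponential moments of the limit functions -/
theorem Sys.exp_lim {d : ℕ} (hd : Module.finrank ℚ K ≤ d) {M : ℝ} (hmM : m * Module.finrank ℚ K ≤ M) {σ : ℝ}
    (hσ : 0 ≤ σ) {g : ℝ → ℂ} (hg : S.IsLim σ g) (T : ℝ) :
    ∫⁻ t : ℝ, ENNReal.ofReal (Real.exp (kp M * ‖g t‖)) ∂(mu T) ≤ ENNReal.ofReal (BB d A M) := by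
  have h1 : ∫⁻ t : ℝ, ENNReal.ofReal (Real.exp (kp M * ‖g t‖)) ∂(mu T) ≤
      ∫⁻ t : ℝ, liminf (fun x : ℕ => ENNReal.ofReal (Real.exp (kp M * ‖S.Sx x ((σ:ℂ) + t * Complex.I)‖))) atTop ∂(mu T) := by
    apply lintegral_mono_ae
    apply (mu_ac T).ae_le
    filter_upwards [hg] with t ht
    have h2 : Tendsto (fun x : ℕ => ENNReal.ofReal (Real.exp (kp M * ‖S.Sx x ((σ:ℂ) + t * Complex.I)‖))) atTop
        (𝓝 (ENNReal.ofReal (Real.exp (kp M * ‖g t‖)))) := by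
      apply ENNReal.tendsto_ofReal
      exact (Real.continuous_exp.tendsto _).comp (ht.norm.const_mul _)
    rw [h2.liminf_eq]
  refine h1.trans ?_
  refine (lintegral_liminf_le' fun x => ?_).trans ?_
  · exact (Real.continuous_exp.comp (continuous_const.mul (S.Sx_cont x hσ).norm)).measurable.ennreal_ofReal.aemeasurable
  · apply Filter.liminf_le_of_frequently_le'
    apply Eventually.frequently
    filter_upwards [eventually_ge_atTop (4 ^ d)] with x hx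
    exact S.exp_Sx hd hmM hσ hx T

end

/-- uniform tails in the mean -/
theorem tail_one (d : ℕ) (A M : ℝ) (hM : 0 ≤ M) {ε : ℝ} (hε : 0 < ε) : ∃ Y0 : ℕ,
    ∀ (K : Type) [Field K] [NumberField K] (m : ℝ) (S : Sys K m A), Module.finrank ℚ K ≤ d → m * Module.finrank ℚ K ≤ M →
    ∀ (σ : ℝ), 0 ≤ σ → ∀ g : ℝ → ℂ, S.IsLim σ g → ∀ (T : ℝ) (Y : ℕ), Y0 ≤ Y →
      eLpNorm (fun t : ℝ => g t - S.Sx Y ((σ:ℂ) + t * Complex.I)) 1 (mu T) ≤ ENNReal.ofReal ε := by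
  obtain ⟨P0, hP0, h⟩ := unif d A M hM 0 (ε := ε / 2) (by positivity)
  refine ⟨P0 ^ d, ?_⟩
  intro K _ _ m S hd hmM σ hσ g hg T Y hY
  have h2 : ((2 * (0 + 1) : ℕ) : ℝ≥0∞) = 2 := by norm_num
  have h3 : ∀ x : ℕ, Y ≤ x → eLpNorm (fun t : ℝ => S.Sx x ((σ:ℂ) + t * Complex.I) - S.Sx Y ((σ:ℂ) + t * Complex.I))
      2 (mu T) ≤ ENNReal.ofReal ε := by
    intro x hx
    have h4 := h K m S hd hmM σ hσ T x (hY.trans hx)
    have h5 := h K m S hd hmM σ hσ T Y hY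
    rw [h2] at h4 h5
    have hm : ∀ z : ℕ, AEStronglyMeasurable (fun t : ℝ => S.Sx z ((σ:ℂ) + t * Complex.I) -
        S.Sx (P0 ^ d) ((σ:ℂ) + t * Complex.I)) (mu T) :=
      fun z => ((S.Sx_cont z hσ).sub (S.Sx_cont _ hσ)).aestronglyMeasurable
    have e : (fun t : ℝ => S.Sx x ((σ:ℂ) + t * Complex.I) - S.Sx Y ((σ:ℂ) + t * Complex.I)) =
        (fun t : ℝ => S.Sx x ((σ:ℂ) + t * Complex.I) - S.Sx (P0 ^ d) ((σ:ℂ) + t * Complex.I)) -
        (fun t : ℝ => S.Sx Y ((σ:ℂ) + t * Complex.I) - S.Sx (P0 ^ d) ((σ:ℂ) + t * Complex.I)) := by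
      funext t
      simp
    rw [e]
    refine (eLpNorm_sub_le (hm x) (hm Y) (by norm_num)).trans ?_
    refine (add_le_add h4 h5).trans (le_of_eq ?_)
    rw [← ENNReal.ofReal_add (by positivity) (by positivity)]
    congr 1
    ring
  refine (eLpNorm_le_eLpNorm_of_exponent_le (q := 2) (by norm_num) ?_).trans (hg.tail hσ h3)
  exact ((hg.aesm hσ).mono_ac (mu_ac _)).sub (S.Sx_cont Y hσ).aestronglyMeasurable

section
variable {K : Type} [Field K] [NumberField K] {m A : ℝ} (S : Sys K m A)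

lemma Sys.arg_le {σ : ℝ} (hσ : 0 ≤ σ) (v : HeightOneSpectrum (𝓞 K)) {z : ℂ} (hz : ‖z‖ ≤ 1) :
    ‖(((nm v : ℝ) ^ (-σ) : ℝ) : ℂ) * z‖ ≤ 1 := by
  have hq : (2 : ℝ) ≤ nm v := by exact_mod_cast two_le_nm v
  rw [norm_mul, Complex.norm_real, Real.norm_of_nonneg (by positivity)]
  have h1 : (nm v : ℝ) ^ (-σ) ≤ 1 := Real.rpow_le_one_of_one_le_of_nonpos (by linarith) (by linarith)
  exact mul_le_one₀ h1 (norm_nonneg _) hz

/-- the logarithm of the random Euler product -/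
noncomputable def Sys.RY (σ : ℝ) (Y : ℕ) (x : UnitAddTorus (Nat.primesBelow Y)) : ℂ :=
  ∑ v ∈ FV nm (hfin (K := K)) Y, S.G v ((((nm v : ℝ) ^ (-σ) : ℝ) : ℂ) * Xn Y (nm v) x)

lemma Sys.RY_cont {σ : ℝ} (hσ : 0 ≤ σ) (Y : ℕ) : Continuous (S.RY σ Y) := by
  unfold Sys.RY
  refine continuous_finsetSum _ fun v _ => ?_
  have h1 : Continuous fun x => Xn Y (nm v) x := by
    unfold Xn
    exact (UnitAddTorus.mFourier (ch Y (nm v))).continuous
  refine (S.cont v).comp_continuous (continuous_const.mul h1) fun x => ?_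
  rw [mem_closedBall_zero_iff]
  exact Sys.arg_le hσ v (Xn_norm Y (nm v) x).le

lemma cp_split (v : HeightOneSpectrum (𝓞 K)) (σ t : ℝ) :
    ((nm v : ℕ) : ℂ) ^ (-((σ:ℂ) + t * Complex.I)) = (((nm v : ℝ) ^ (-σ) : ℝ) : ℂ) * ((nm v : ℕ) : ℂ) ^ (-((t:ℂ) * Complex.I)) := by
  have h0 : (0:ℝ) < nm v := by exact_mod_cast nm_pos v
  have hne : ((nm v : ℕ) : ℂ) ≠ 0 := by exact_mod_cast (nm_pos v).ne'
  have e1 : (-((σ:ℂ) + t * Complex.I)) = ((-σ : ℝ) : ℂ) + (-(t * Complex.I)) := by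
    push_cast; ring
  rw [e1, Complex.cpow_add _ _ hne]
  congr 1
  rw [Complex.ofReal_cpow h0.le]
  push_cast
  rfl

lemma Sys.RY_flow (σ : ℝ) (Y : ℕ) (t : ℝ) :
    S.RY σ Y (pt fun p => t * om Y p) = S.Sx Y ((σ:ℂ) + t * Complex.I) := by
  unfold Sys.RY Sys.Sx Sys.ll
  refine Finset.sum_congr rfl fun v hv => ?_
  rw [mem_FV] at hv
  rw [Xn_flow (nm_pos v) hv, cp_split]

/-- the mean of a function of the partial sums -/
theorem Sys.mean_Sx {σ : ℝ} (hσ : 0 ≤ σ) (Y : ℕ) {f : ℂ → ℝ}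
    (hf : Continuous f) : Tendsto (fun H : ℕ => (1 / (H:ℝ)) * ∫ t in (0:ℝ)..H, f (S.Sx Y ((σ:ℂ) + t * Complex.I))) atTop
      (𝓝 (∫ θ, f (S.RY σ Y (pt θ)) ∂(cube (Nat.primesBelow Y)))) := by
  set G : C(UnitAddTorus (Nat.primesBelow Y), ℂ) := ⟨fun x => ((f (S.RY σ Y x) : ℝ) : ℂ),
    Complex.continuous_ofReal.comp (hf.comp (S.RY_cont hσ Y))⟩ with hG
  have h1 := kw (om_indep Y) G
  have h2 : ∫ θ, G (pt θ) ∂(cube (Nat.primesBelow Y)) =
      ((∫ θ, f (S.RY σ Y (pt θ)) ∂(cube (Nat.primesBelow Y)) : ℝ) : ℂ) := by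
    rw [← integral_complex_ofReal]
    rfl
  have h3 : ∀ H : ℕ, avg (om Y) G H = (((1 / (H:ℝ)) * ∫ t in (0:ℝ)..H, f (S.Sx Y ((σ:ℂ) + t * Complex.I)) : ℝ) : ℂ) := by
    intro H
    unfold avg
    push_cast
    rw [← intervalIntegral.integral_ofReal]
    congr 1
    apply intervalIntegral.integral_congr
    intro t _
    show ((f (S.RY σ Y (pt fun p => t * om Y p)) : ℝ) : ℂ) = _
    rw [S.RY_flow]
  rw [h2] at h1
  simp_rw [h3] at h1
  exact (Complex.continuous_re.tendsto _).comp h1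

end

/-- the common bound for the lengths -/
lemma common (d : ℕ) (A M : ℝ) (hA : 0 ≤ A) (hM : 0 ≤ M) : ∃ ℓ : ℝ → ℝ,
    ∀ (K : Type) [Field K] [NumberField K] (m : ℝ) (S : Sys K m A), Module.finrank ℚ K ≤ d → m * Module.finrank ℚ K ≤ M →
    ∀ (σ : ℝ), 0 ≤ σ → ∀ g : ℝ → ℂ, S.IsLim σ g → Good (kp M) (BB d A M) g ∧ SAP g ℓ := by
  have h := fun ε : {ε : ℝ // 0 < ε} => ap_main d A M hA hM (r := 1) (by simp) ε.2
  choose P hP hmain using h
  choose l hl hP using hP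
  refine ⟨fun ε => if hε : 0 < ε then l ⟨ε, hε⟩ else 0, ?_⟩
  intro K _ _ m S hd hmM σ hσ g hg
  have hgood : Good (kp M) (BB d A M) g := ⟨hg.aesm hσ, fun T => Sys.exp_lim hd hmM hσ hg T⟩
  refine ⟨hgood, fun ε hε => ⟨P ⟨ε, hε⟩, ?_, fun τ hτ T => ?_⟩⟩
  · simp only [dif_pos hε]
    exact hP ⟨ε, hε⟩
  · exact int_of_eLp (((hgood.shift τ).aem T).sub (hgood.aem T)) hε.le (hmain ⟨ε, hε⟩ K m S hd hmM σ hσ g hg τ hτ T)

/-- **uniform distribution** -/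
theorem main_law (d : ℕ) (A M : ℝ) (hA : 0 ≤ A) (hM : 0 ≤ M) {f : ℂ → ℝ} (hf : Cls (kp M) f) {ε : ℝ} (hε : 0 < ε) :
    ∃ (H₀ : ℝ) (Y₀ : ℕ), 0 < H₀ ∧
    ∀ (K : Type) [Field K] [NumberField K] (m : ℝ) (S : Sys K m A), Module.finrank ℚ K ≤ d → m * Module.finrank ℚ K ≤ M →
    ∀ (σ : ℝ), 0 ≤ σ → ∀ g : ℝ → ℂ, S.IsLim σ g → ∀ (H : ℝ), H₀ ≤ H → ∀ (T : ℝ) (Y : ℕ), Y₀ ≤ Y →
      |(1 / H) * (∫ t in T..(T + H), f (g t)) - ∫ θ, f (S.RY σ Y (pt θ)) ∂(cube (Nat.primesBelow Y))| ≤ ε := by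
  obtain ⟨ℓ, hℓ⟩ := common d A M hA hM
  have hκ := kp_pos M
  have hB := BB_nonneg d A M
  obtain ⟨hfc, C, hC⟩ := id hf
  have hC0 : 0 ≤ C := by
    have := (abs_nonneg _).trans (hC 0)
    rwa [norm_zero, mul_zero, Real.exp_zero, mul_one] at this
  obtain ⟨ℓ', hℓ'⟩ := good_APM hfc hC hκ hB ℓ
  -- the tails
  obtain ⟨Q, hA0, hA1⟩ := test_ineq hfc hC hκ (ε := ε / (8 * (BB d A M + 1))) (by positivity)
  obtain ⟨Y0, hY0⟩ := tail_one d A M hM (ε := ε / (4 * (Q + 1))) (by positivity)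
  refine ⟨max 1 (H0 (ε / 2 / 2) (C * BB d A M) ℓ'), max Y0 (4 ^ d), lt_of_lt_of_le one_pos (le_max_left _ _), ?_⟩
  intro K _ _ m S hd hmM σ hσ g hg H hH T Y hY
  obtain ⟨hgood, hsap⟩ := hℓ K m S hd hmM σ hσ g hg
  have hapm := hℓ' g hgood hsap
  obtain ⟨N, hM⟩ := hapm.mean
  have hHp : 0 < H := lt_of_lt_of_le one_pos ((le_max_left _ _).trans hH)
  have h1 : |(1 / H) * (∫ t in T..(T + H), f (g t)) - N| ≤ ε / 2 := by
    have h2 := hM (ε / 2) (by positivity) H ((le_max_right _ _).trans hH) T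
    have e : (1 / H) * (∫ t in T..(T + H), f (g t)) - N = (1 / H) * ((∫ t in T..(T + H), f (g t)) - N * H) := by
      field_simp
    rw [e, abs_mul, abs_of_pos (by positivity)]
    calc 1 / H * |(∫ t in T..(T + H), f (g t)) - N * H| ≤ 1 / H * (ε / 2 * H) :=
          mul_le_mul_of_nonneg_left h2 (by positivity)
      _ = ε / 2 := by field_simp
  -- the averages tend to `N`
  have hav : Tendsto (av g f) atTop (𝓝 N) := by
    rw [Metric.tendsto_atTop]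
    intro η hη
    obtain ⟨N', hN⟩ := exists_nat_ge (max 1 (H0 (η / 2 / 2) (C * BB d A M) ℓ'))
    refine ⟨N', fun n hn => ?_⟩
    have hn' : (N':ℝ) ≤ n := by exact_mod_cast hn
    have h2 := hM (η / 2) (by positivity) n (((le_max_right _ _).trans hN).trans hn') 0
    have hn0 : (0:ℝ) < n := lt_of_lt_of_le one_pos (((le_max_left _ _).trans hN).trans hn')
    rw [zero_add] at h2
    rw [Real.dist_eq]
    unfold av
    have e : (1 / (n:ℝ)) * (∫ t in (0:ℝ)..n, f (g t)) - N = (1 / (n:ℝ)) * ((∫ t in (0:ℝ)..n, f (g t)) - N * n) := by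
      field_simp
    rw [e, abs_mul, abs_of_pos (by positivity)]
    calc 1 / (n:ℝ) * |(∫ t in (0:ℝ)..n, f (g t)) - N * n| ≤ 1 / (n:ℝ) * (η / 2 * n) :=
          mul_le_mul_of_nonneg_left h2 (by positivity)
      _ = η / 2 := by field_simp
      _ < η := by linarith
  -- the partial sums
  have hY4 : 4 ^ d ≤ Y := (le_max_right _ _).trans hY
  set s : ℝ → ℂ := fun t => S.Sx Y ((σ:ℂ) + t * Complex.I) with hs
  have hsgood : Good (kp M) (BB d A M) s := ⟨(S.Sx_cont Y hσ).aestronglyMeasurable, fun T => S.exp_Sx hd hmM hσ hY4 T⟩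
  have hdiff : ∀ T, ∫ t, |f (g t) - f (s t)| ∂(mu T) ≤ ε / 2 := by
    intro T
    have h2 := Good.diff hfc hC hκ hB hgood hsgood (ε := ε / (8 * (BB d A M + 1))) (by positivity) hA0 hA1 T
    refine h2.trans ?_
    have h3 : ∫ t, ‖g t - s t‖ ∂(mu T) ≤ ε / (4 * (Q + 1)) :=
      int_of_eLp ((hgood.aem T).sub (hsgood.aem T)) (by positivity) (hY0 K m S hd hmM σ hσ g hg T Y ((le_max_left _ _).trans hY))
    have h4 : 2 * (ε / (8 * (BB d A M + 1))) * BB d A M ≤ ε / 4 := by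
      have : 2 * (ε / (8 * (BB d A M + 1))) * BB d A M = ε / 4 * (BB d A M / (BB d A M + 1)) := by field_simp; ring
      rw [this]
      apply mul_le_of_le_one_right (by positivity)
      rw [div_le_one (by positivity)]
      linarith
    have h5 : Q * ∫ t, ‖g t - s t‖ ∂(mu T) ≤ ε / 4 := by
      calc Q * ∫ t, ‖g t - s t‖ ∂(mu T) ≤ Q * (ε / (4 * (Q + 1))) := mul_le_mul_of_nonneg_left h3 hA0
        _ = ε / 4 * (Q / (Q + 1)) := by field_simp
        _ ≤ ε / 4 := by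
          apply mul_le_of_le_one_right (by positivity)
          rw [div_le_one (by positivity)]
          linarith
    linarith
  have h2 : |N - ∫ θ, f (S.RY σ Y (pt θ)) ∂(cube (Nat.primesBelow Y))| ≤ ε / 2 := by
    have h3 := (hav.sub (S.mean_Sx hσ Y hfc)).abs
    refine le_of_tendsto h3 ?_
    filter_upwards [eventually_gt_atTop 0] with n hn
    exact av_diff hf hκ hgood hsgood hdiff hn
  have h3 : (1 / H) * (∫ t in T..(T + H), f (g t)) - ∫ θ, f (S.RY σ Y (pt θ)) ∂(cube (Nat.primesBelow Y)) =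
      ((1 / H) * (∫ t in T..(T + H), f (g t)) - N) + (N - ∫ θ, f (S.RY σ Y (pt θ)) ∂(cube (Nat.primesBelow Y))) := by ring
  rw [h3]
  refine (abs_add_le _ _).trans ?_
  linarith

/-- **the limit law** -/
theorem law_exists {K : Type} [Field K] [NumberField K] {m A : ℝ} (S : Sys K m A) {d : ℕ} (hd : Module.finrank ℚ K ≤ d)
    {M : ℝ} (hmM : m * Module.finrank ℚ K ≤ M) {σ : ℝ} (hσ : 0 ≤ σ) {g : ℝ → ℂ} (hg : S.IsLim σ g) :
    ∃ ν : Measure ℂ, IsProbabilityMeasure ν ∧ ∀ f : ℂ → ℝ, Cls (kp M) f →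
      Integrable f ν ∧ Tendsto (av g f) atTop (𝓝 (∫ z, f z ∂ν)) := by
  obtain ⟨ℓ, hℓ⟩ := common d A M S.A_nonneg (S.M_nonneg hmM)
  have hκ := kp_pos M
  have hB := BB_nonneg d A M
  obtain ⟨hgood, hsap⟩ := hℓ K m S hd hmM σ hσ g hg
  refine exists_law hκ hB hgood fun f hf => ?_
  obtain ⟨hfc, C, hC⟩ := id hf
  obtain ⟨ℓ', hℓ'⟩ := good_APM hfc hC hκ hB ℓ
  obtain ⟨N, hM⟩ := (hℓ' g hgood hsap).mean
  refine ⟨N, ?_⟩
  rw [Metric.tendsto_atTop]
  intro η hη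
  obtain ⟨N', hN⟩ := exists_nat_ge (max 1 (H0 (η / 2 / 2) (C * BB d A M) ℓ'))
  refine ⟨N', fun n hn => ?_⟩
  have hn' : (N':ℝ) ≤ n := by exact_mod_cast hn
  have h2 := hM (η / 2) (by positivity) n (((le_max_right _ _).trans hN).trans hn') 0
  have hn0 : (0:ℝ) < n := lt_of_lt_of_le one_pos (((le_max_left _ _).trans hN).trans hn')
  rw [zero_add] at h2
  rw [Real.dist_eq]
  unfold av
  have e : (1 / (n:ℝ)) * (∫ t in (0:ℝ)..n, f (g t)) - N = (1 / (n:ℝ)) * ((∫ t in (0:ℝ)..n, f (g t)) - N * n) := by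
    field_simp
  rw [e, abs_mul, abs_of_pos (by positivity)]
  calc 1 / (n:ℝ) * |(∫ t in (0:ℝ)..n, f (g t)) - N * n| ≤ 1 / (n:ℝ) * (η / 2 * n) :=
        mul_le_mul_of_nonneg_left h2 (by positivity)
    _ = η / 2 := by field_simp
    _ < η := by linarith

end Run7.h113.GE
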