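import Mathlib
import Pool.Agent.Run7.h113.GE.Exq
import Pool.Agent.Run7.h113.GE.Conc
import Pool.Agent.Helper256.KM.Mertens

/-!
Large deviations of the random Euler product and of the boundary values.
-/

set_option autoImplicit false

open MeasureTheory Filter Topology Finset NumberField IsDedekindDomain
open scoped ENNReal
open Pool.Agent.H921R2.TatePole (nm two_le_nm below deg nm_eq below_le_nm card_above)
open Pool.Agent.R433.MD (norm_nm_cpow nm_pos)
open Pool.Agent.W350.EdgeV (FV mem_FV tendsto_FV abel_V)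
open Pool.Agent.W350.EdgeNF (hfin below_sq_summable hpow)
open Run7.h113.LE

namespace Run7.h113.GE

section
variable {K : Type} [Field K] [NumberField K] {m A : ℝ} (S : Sys K m A)

open Classical in
/-- the part of the random logarithm belonging to a prime -/
noncomputable def Sys.rp (σ : ℝ) (Y p : ℕ) (x : ℝ) : ℂ :=
  ∑ v ∈ (FV nm (hfin (K := K)) Y).filter (fun v => (below v : ℕ) = p),
    S.G v ((((nm v : ℝ) ^ (-σ) : ℝ) : ℂ) * Complex.exp (2 * Real.pi * Complex.I * ((deg v : ℕ) * x)))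

lemma Xn_nm {Y : ℕ} {v : HeightOneSpectrum (𝓞 K)} (hv : nm v < Y) (θ : Nat.primesBelow Y → ℝ) :
    Xn Y (nm v) (pt θ) = Complex.exp (2 * Real.pi * Complex.I * ((deg v : ℕ) *
      θ ⟨(below v : ℕ), Nat.mem_primesBelow.2 ⟨lt_of_le_of_lt (below_le_nm v) hv, (below v).prop⟩⟩)) := by
  rw [Xn_pt]
  congr 2
  obtain ⟨h1, h2, h3⟩ := nm_eq v
  have hfac : ∀ q : ℕ, (nm v).factorization q = if (below v : ℕ) = q then deg v else 0 := by
    intro q
    rw [h1, (below v).prop.factorization_pow, Finsupp.single_apply]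
  rw [Finset.sum_eq_single (⟨(below v : ℕ), Nat.mem_primesBelow.2 ⟨lt_of_le_of_lt (below_le_nm v) hv, (below v).prop⟩⟩ :
    Nat.primesBelow Y)]
  · rw [hfac, if_pos rfl]
  · intro q _ hq
    have h4 : (q : ℕ) ≠ (below v : ℕ) := fun h => hq (Subtype.ext h)
    rw [hfac, if_neg (fun h => h4 h.symm)]
    simp
  · intro h
    exact absurd (Finset.mem_univ _) h

lemma Sys.RY_pt (σ : ℝ) (Y : ℕ) (θ : Nat.primesBelow Y → ℝ) :
    S.RY σ Y (pt θ) = ∑ p : Nat.primesBelow Y, S.rp σ Y p (θ p) := by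
  classical
  unfold Sys.RY Sys.rp
  simp_rw [Finset.sum_filter]
  rw [Finset.sum_comm]
  refine Finset.sum_congr rfl fun v hv => ?_
  rw [mem_FV] at hv
  rw [Xn_nm hv, Finset.sum_eq_single (⟨(below v : ℕ), Nat.mem_primesBelow.2
    ⟨lt_of_le_of_lt (below_le_nm v) hv, (below v).prop⟩⟩ : Nat.primesBelow Y)]
  · rw [if_pos rfl]
  · intro q _ hq
    rw [if_neg]
    intro h
    exact hq (Subtype.ext h.symm)
  · intro h
    exact absurd (Finset.mem_univ _) h

lemma exp_le_one (f : ℕ) (x : ℝ) : ‖Complex.exp (2 * Real.pi * Complex.I * (f * x))‖ = 1 := by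
  have : (2 * Real.pi * Complex.I * (f * x) : ℂ) = ((2 * Real.pi * (f * x) : ℝ) : ℂ) * Complex.I := by
    push_cast; ring
  rw [this, Complex.norm_exp_ofReal_mul_I]

lemma Sys.rp_cont {σ : ℝ} (hσ : 0 ≤ σ) (Y p : ℕ) : Continuous (S.rp σ Y p) := by
  unfold Sys.rp
  refine continuous_finsetSum _ fun v _ => ?_
  refine (S.cont v).comp_continuous (by fun_prop) fun x => ?_
  rw [mem_closedBall_zero_iff]
  exact Sys.arg_le hσ v (exp_le_one _ x).le

lemma Sys.G_le (v : HeightOneSpectrum (𝓞 K)) {z : ℂ} (hz : ‖z‖ ≤ 1) :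
    ‖S.G v z‖ ≤ m * (1 / ((below v : ℕ) : ℝ)) + A * (1 / ((below v : ℕ) : ℝ) ^ 2) := by
  have h1 := S.near v z hz
  rw [below_inv] at h1
  have hb : (0:ℝ) < ((below v : ℕ) : ℝ) := by exact_mod_cast (below v).prop.pos
  have hbn : ((below v : ℕ) : ℝ) ≤ nm v := by exact_mod_cast below_le_nm v
  have h2 : ‖S.c v * z‖ ≤ m * (1 / ((below v : ℕ) : ℝ)) := by
    rw [norm_mul]
    have h3 := S.c_norm v
    have h4 : m / (nm v : ℝ) ≤ m * (1 / ((below v : ℕ) : ℝ)) := by
      rw [mul_one_div]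
      exact div_le_div_of_nonneg_left S.m_nonneg hb hbn
    have h5 := norm_nonneg z
    have h6 := norm_nonneg (S.c v)
    nlinarith
  have h3 : S.G v z = (S.G v z - S.c v * z) + S.c v * z := by ring
  rw [h3]
  exact (norm_add_le _ _).trans (by linarith)

lemma Sys.rp_norm {σ : ℝ} (hσ : 0 ≤ σ) (Y : ℕ) (p : Nat.primesBelow Y) (x : ℝ) :
    ‖S.rp σ Y p x‖ ≤ (Module.finrank ℚ K : ℝ) * (m * (1 / ((p:ℕ) : ℝ)) + A * (1 / ((p:ℕ) : ℝ) ^ 2)) := by
  classical
  have hp := (Nat.mem_primesBelow.1 p.2).2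
  unfold Sys.rp
  refine (norm_sum_le_of_le (f := fun v => S.G v ((((nm v : ℝ) ^ (-σ) : ℝ) : ℂ) *
    Complex.exp (2 * Real.pi * Complex.I * ((deg v : ℕ) * x))))
    (n := fun _ => m * (1 / ((p:ℕ) : ℝ)) + A * (1 / ((p:ℕ) : ℝ) ^ 2)) _ fun v hv => ?_).trans ?_
  · have h1 := S.G_le v (Sys.arg_le hσ v (exp_le_one (deg v) x).le)
    rw [(mem_filter.1 hv).2] at h1
    exact h1
  · rw [Finset.sum_const, nsmul_eq_mul]
    apply mul_le_mul_of_nonneg_right
    · have := card_above ⟨(p:ℕ), hp⟩ ((FV nm (hfin (K := K)) Y).filter (fun v => (below v : ℕ) = p)) (by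
        intro v hv
        exact Subtype.ext (mem_filter.1 hv).2)
      exact_mod_cast this
    · have := S.m_nonneg
      have := S.A_nonneg
      positivity

/-- the mean value property -/
lemma Sys.G_mean (v : HeightOneSpectrum (𝓞 K)) {c : ℂ} (hc : ‖c‖ ≤ 1) {f : ℕ} (hf : 0 < f) :
    ∫ x in Set.Icc (0:ℝ) 1, S.G v (c * Complex.exp (2 * Real.pi * Complex.I * (f * x))) = 0 := by
  have h1 : DiffContOnCl ℂ (S.G v) (Metric.ball 0 1) := ⟨S.diff v, by
    rw [closure_ball _ one_ne_zero]; exact S.cont v⟩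
  have h2 : DiffContOnCl ℂ (fun z : ℂ => c * z ^ f) (Metric.ball 0 1) :=
    (by fun_prop : Differentiable ℂ fun z : ℂ => c * z ^ f).diffContOnCl
  have h3 : Set.MapsTo (fun z : ℂ => c * z ^ f) (Metric.ball 0 1) (Metric.ball 0 1) := by
    intro z hz
    rw [mem_ball_zero_iff] at hz ⊢
    rw [norm_mul, norm_pow]
    have h4 : ‖z‖ ^ f < 1 := pow_lt_one₀ (norm_nonneg _) hz hf.ne'
    have h5 := norm_nonneg c
    have h6 : 0 ≤ ‖z‖ ^ f := by positivity
    nlinarith
  have h4 := h1.comp h2 h3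
  have h5 := DiffContOnCl.circleAverage (c := 0) (R := 1) (f := (S.G v) ∘ fun z : ℂ => c * z ^ f) (by
    rw [abs_one]; exact h4)
  simp only [Function.comp_apply] at h5
  rw [zero_pow hf.ne', mul_zero, S.zero v] at h5
  rw [Real.circleAverage] at h5
  have hpi : (0:ℝ) < 2 * Real.pi := by positivity
  rw [smul_eq_zero] at h5
  have h6 : ∫ θ in (0:ℝ)..2 * Real.pi, ((S.G v) ∘ fun z : ℂ => c * z ^ f) (circleMap 0 1 θ) = 0 := by
    rcases h5 with h5 | h5
    · exact absurd h5 (inv_ne_zero hpi.ne')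
    · exact h5
  rw [integral_Icc_eq_integral_Ioc, ← intervalIntegral.integral_of_le zero_le_one]
  have h7 := intervalIntegral.integral_comp_mul_left (a := 0) (b := 1)
    (fun θ : ℝ => ((S.G v) ∘ fun z : ℂ => c * z ^ f) (circleMap 0 1 θ)) hpi.ne'
  rw [mul_zero, mul_one, h6, smul_zero] at h7
  rw [← h7]
  apply intervalIntegral.integral_congr
  intro x _
  simp only [Function.comp_apply, circleMap, zero_add, Complex.ofReal_one, one_mul]
  rw [← Complex.exp_nat_mul]
  congr 3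
  push_cast
  ring

lemma Sys.rp_mean {σ : ℝ} (hσ : 0 ≤ σ) (Y p : ℕ) : ∫ x in Set.Icc (0:ℝ) 1, S.rp σ Y p x = 0 := by
  unfold Sys.rp
  rw [integral_finsetSum]
  · refine Finset.sum_eq_zero fun v _ => ?_
    have hq : (2 : ℝ) ≤ nm v := by exact_mod_cast two_le_nm v
    refine S.G_mean v ?_ (nm_eq v).2.1
    rw [Complex.norm_real, Real.norm_of_nonneg (by positivity)]
    exact Real.rpow_le_one_of_one_le_of_nonpos (by linarith) (by linarith)
  · intro v _
    apply Continuous.integrableOn_Icc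
    refine (S.cont v).comp_continuous (by fun_prop) fun x => ?_
    rw [mem_closedBall_zero_iff]
    exact Sys.arg_le hσ v (exp_le_one _ x).le

end

/-- the sums over the primes -/
lemma mert_sum : ∃ C : ℝ, 0 ≤ C ∧ ∀ n : ℕ, 3 ≤ n → ∀ F : Finset ℕ, (∀ p ∈ F, p.Prime ∧ p ≤ n) →
    ∑ p ∈ F, 1 / (p:ℝ) ≤ Real.log (Real.log n) + C := by
  obtain ⟨C, hC⟩ := Pool.Agent.Helper256.KM.mertens_inv
  have hC0 : 0 ≤ C := (abs_nonneg _).trans (hC 3 le_rfl)
  refine ⟨C, hC0, fun n hn F hF => ?_⟩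
  have h1 := (abs_le.1 (hC n hn)).2
  have h2 : ∑ p ∈ F, 1 / (p:ℝ) ≤ ∑ p ∈ (Finset.Icc 1 n).filter Nat.Prime, (1:ℝ) / p := by
    apply Finset.sum_le_sum_of_subset_of_nonneg
    · intro p hp
      rw [mem_filter, mem_Icc]
      exact ⟨⟨(hF p hp).1.one_lt.le, (hF p hp).2⟩, (hF p hp).1⟩
    · intro p _ _
      positivity
  linarith

/-- **tails of the random Euler product** -/
theorem tail_RY (d : ℕ) {A M : ℝ} (hA : 0 ≤ A) (hM : 0 < M) : ∃ C : ℝ, 0 ≤ C ∧
    ∀ (K : Type) [Field K] [NumberField K] (m : ℝ) (S : Sys K m A), Module.finrank ℚ K ≤ d → m * Module.finrank ℚ K ≤ M →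
    ∀ (σ : ℝ), 0 ≤ σ → ∀ (Y : ℕ) (V : ℝ), C ≤ V →
      (cube (Nat.primesBelow Y)).real {θ | V ≤ ‖S.RY σ Y (pt θ)‖} ≤ Real.exp (-Real.exp (Real.exp ((V - C) / M))) := by
  classical
  obtain ⟨C1, hC1, hmert⟩ := mert_sum
  set D : ℝ := d * A with hD
  have hD0 : 0 ≤ D := by positivity
  set a : ℝ := (M + D) ^ 2 + 2 with ha
  refine ⟨M * (1 + C1) + 2 * D + 2 * a, by positivity, ?_⟩
  intro K _ _ m S hd hmM σ hσ Y V hV
  set C : ℝ := M * (1 + C1) + 2 * D + 2 * a with hC
  set y : ℝ := (V - C) / M with hy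
  have hy0 : 0 ≤ y := div_nonneg (by linarith) hM.le
  have hVy : V = C + M * y := by
    rw [hy]
    field_simp
    ring
  set s : ℝ := Real.exp (Real.exp y) + 1 with hs
  have hey : 1 ≤ Real.exp y := Real.one_le_exp hy0
  have hey2 : 2.7 < Real.exp (Real.exp y) := by
    have h1 : Real.exp 1 ≤ Real.exp (Real.exp y) := Real.exp_le_exp.2 hey
    have h2 := Real.exp_one_gt_d9
    linarith
  have hs3 : 3 ≤ s := by linarith
  set n : ℕ := ⌊s⌋₊ with hn
  have hn3 : 3 ≤ n := Nat.le_floor (by exact_mod_cast hs3)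
  have hns : (n:ℝ) ≤ s := Nat.floor_le (by linarith)
  have hsn : s < n + 1 := Nat.lt_floor_add_one s
  have hn0 : (0:ℝ) < n := by
    have : 0 < n := by omega
    exact_mod_cast this
  have hlog1 : 0 < Real.log n := Real.log_pos (by
    have : (3:ℝ) ≤ n := by exact_mod_cast hn3
    linarith)
  -- the iterated logarithm
  have hll : Real.log (Real.log n) ≤ y + 1 := by
    have h1 : s ≤ Real.exp (Real.exp (y + 1)) := by
      have h2 : Real.exp (y + 1) = Real.exp 1 * Real.exp y := by rw [← Real.exp_add, add_comm]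
      have h3 : Real.exp y + 1 ≤ Real.exp (y + 1) := by
        rw [h2]
        have := Real.exp_one_gt_d9
        nlinarith
      have h4 : Real.exp (Real.exp y) + 1 ≤ Real.exp (Real.exp y + 1) := by
        rw [Real.exp_add]
        have := Real.exp_one_gt_d9
        nlinarith
      exact h4.trans (Real.exp_le_exp.2 h3)
    have h2 : Real.log n ≤ Real.exp (y + 1) := by
      rw [← Real.log_exp (Real.exp (y + 1))]
      exact Real.log_le_log hn0 (hns.trans h1)
    calc Real.log (Real.log n) ≤ Real.log (Real.exp (y + 1)) := Real.log_le_log hlog1 h2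
      _ = y + 1 := Real.log_exp _
  -- the bounds
  set b : Nat.primesBelow Y → ℝ := fun p => M * (1 / ((p:ℕ) : ℝ)) + D * (1 / ((p:ℕ) : ℝ) ^ 2) with hb
  have hrb : ∀ (p : Nat.primesBelow Y) (x : ℝ), ‖S.rp σ Y p x‖ ≤ b p := by
    intro p x
    refine (S.rp_norm hσ Y p x).trans ?_
    simp only [hb]
    have h1 : (Module.finrank ℚ K : ℝ) * (m * (1 / ((p:ℕ) : ℝ)) + A * (1 / ((p:ℕ) : ℝ) ^ 2)) =
      (m * Module.finrank ℚ K) * (1 / ((p:ℕ) : ℝ)) + (Module.finrank ℚ K * A) * (1 / ((p:ℕ) : ℝ) ^ 2) := by ring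
    rw [h1]
    have h2 : (Module.finrank ℚ K : ℝ) ≤ d := by exact_mod_cast hd
    have h3 : (Module.finrank ℚ K : ℝ) * A ≤ D := mul_le_mul_of_nonneg_right h2 hA
    exact add_le_add (mul_le_mul_of_nonneg_right hmM (by positivity)) (mul_le_mul_of_nonneg_right h3 (by positivity))
  set J : Finset (Nat.primesBelow Y) := univ.filter fun p => (p:ℕ) ≤ n with hJ
  have h1 := cube_tail (ι := Nat.primesBelow Y) (r := fun p => S.rp σ Y p) (fun p => S.rp_cont hσ Y p)
    (fun p => S.rp_mean hσ Y p) (b := b) hrb J (s := s) (by linarith) a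
  have hinj : ∀ F : Finset (Nat.primesBelow Y), ∀ φ : ℕ → ℝ, ∑ p ∈ F, φ (p:ℕ) =
      ∑ p ∈ F.image (fun p : Nat.primesBelow Y => (p:ℕ)), φ p := by
    intro F φ
    rw [Finset.sum_image]
    intro p _ q _ hpq
    exact Subtype.ext hpq
  -- small primes
  have hJ1 : ∑ p ∈ J, b p ≤ M * (y + 1 + C1) + 2 * D := by
    simp only [hb]
    rw [Finset.sum_add_distrib, ← Finset.mul_sum, ← Finset.mul_sum, hinj J (fun p => 1 / (p:ℝ)),
      hinj J (fun p => 1 / (p:ℝ) ^ 2)]
    have h2 := hmert n hn3 (J.image (fun p : Nat.primesBelow Y => (p:ℕ))) (by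
      intro p hp
      rw [mem_image] at hp
      obtain ⟨q, hq, rfl⟩ := hp
      rw [hJ, mem_filter] at hq
      exact ⟨(Nat.mem_primesBelow.1 q.2).2, hq.2⟩)
    have h3 := sum_sq_tail (P0 := 1) le_rfl (J.image (fun p : Nat.primesBelow Y => (p:ℕ))) (by
      intro p hp
      rw [mem_image] at hp
      obtain ⟨q, hq, rfl⟩ := hp
      exact (Nat.mem_primesBelow.1 q.2).2.one_lt.le)
    rw [Nat.cast_one, div_one] at h3
    have h4 : M * ∑ p ∈ J.image (fun p : Nat.primesBelow Y => (p:ℕ)), 1 / (p:ℝ) ≤ M * (y + 1 + C1) :=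
      mul_le_mul_of_nonneg_left (by linarith) hM.le
    have h5 : D * ∑ p ∈ J.image (fun p : Nat.primesBelow Y => (p:ℕ)), 1 / (p:ℝ) ^ 2 ≤ D * 2 := mul_le_mul_of_nonneg_left h3 hD0
    linarith
  -- large primes
  have hJ2 : ∑ p ∈ Jᶜ, b p ^ 2 ≤ (M + D) ^ 2 * (2 / ((n + 1 : ℕ) : ℝ)) := by
    have h2 : ∀ p ∈ Jᶜ, b p ^ 2 ≤ (M + D) ^ 2 * (1 / ((p:ℕ) : ℝ) ^ 2) := by
      intro p _
      have hp : (1:ℝ) ≤ (p:ℕ) := by exact_mod_cast (Nat.mem_primesBelow.1 p.2).2.one_lt.le
      have h3 : b p ≤ (M + D) * (1 / ((p:ℕ) : ℝ)) := by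
        simp only [hb]
        have h4 : 1 / ((p:ℕ) : ℝ) ^ 2 ≤ 1 / ((p:ℕ) : ℝ) :=
          one_div_le_one_div_of_le (by linarith) (by nlinarith)
        have h5 : D * (1 / ((p:ℕ) : ℝ) ^ 2) ≤ D * (1 / ((p:ℕ) : ℝ)) := mul_le_mul_of_nonneg_left h4 hD0
        linarith
      have h6 : 0 ≤ b p := by
        simp only [hb]
        positivity
      calc b p ^ 2 ≤ ((M + D) * (1 / ((p:ℕ) : ℝ))) ^ 2 := pow_le_pow_left₀ h6 h3 2
        _ = _ := by rw [mul_pow, one_div_pow]
    refine (Finset.sum_le_sum h2).trans ?_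
    rw [← Finset.mul_sum, hinj Jᶜ (fun p => 1 / (p:ℝ) ^ 2)]
    apply mul_le_mul_of_nonneg_left _ (by positivity)
    apply sum_sq_tail (by omega)
    intro p hp
    rw [mem_image] at hp
    obtain ⟨q, hq, rfl⟩ := hp
    rw [mem_compl, hJ, mem_filter] at hq
    have : ¬ (q:ℕ) ≤ n := fun h => hq ⟨mem_univ _, h⟩
    omega
  have hsub : {θ : Nat.primesBelow Y → ℝ | V ≤ ‖S.RY σ Y (pt θ)‖} ⊆
      {θ | (∑ p ∈ J, b p) + 2 * a ≤ ‖∑ p : Nat.primesBelow Y, S.rp σ Y p (θ p)‖} := by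
    intro θ hθ
    simp only [Set.mem_ofPred_eq] at hθ ⊢
    rw [← S.RY_pt]
    refine le_trans ?_ hθ
    rw [hVy, hC]
    linarith
  refine (measureReal_mono hsub).trans (h1.trans ?_)
  have h2 : s ^ 2 / 2 * ∑ p ∈ Jᶜ, b p ^ 2 ≤ s * (M + D) ^ 2 := by
    calc s ^ 2 / 2 * ∑ p ∈ Jᶜ, b p ^ 2 ≤ s ^ 2 / 2 * ((M + D) ^ 2 * (2 / ((n + 1 : ℕ) : ℝ))) :=
          mul_le_mul_of_nonneg_left hJ2 (by positivity)
      _ = s * (M + D) ^ 2 * (s / (n + 1)) := by
          push_cast
          field_simp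
      _ ≤ s * (M + D) ^ 2 * 1 := by
          apply mul_le_mul_of_nonneg_left _ (by positivity)
          rw [div_le_one (by positivity)]
          exact hsn.le
      _ = _ := mul_one _
  have h3 : -(s * a) + s ^ 2 / 2 * ∑ p ∈ Jᶜ, b p ^ 2 ≤ -(2 * s) := by
    rw [ha]
    linarith
  calc 4 * Real.exp (-(s * a) + s ^ 2 / 2 * ∑ p ∈ Jᶜ, b p ^ 2) ≤ 4 * Real.exp (-(2 * s)) :=
        mul_le_mul_of_nonneg_left (Real.exp_le_exp.2 h3) (by norm_num)
    _ = 4 * Real.exp (-s) * Real.exp (-s) := by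
        rw [mul_assoc, ← Real.exp_add]
        congr 2
        ring
    _ ≤ 1 * Real.exp (-s) := by
        apply mul_le_mul_of_nonneg_right _ (Real.exp_pos _).le
        have h4 : Real.exp (-s) ≤ Real.exp (-2) := Real.exp_le_exp.2 (by linarith)
        have h5 : Real.exp (-2) ≤ 1 / 4 := by
          rw [Real.exp_neg, show (2:ℝ) = 1 + 1 by norm_num, Real.exp_add, one_div]
          apply inv_anti₀ (by norm_num)
          have := Real.exp_one_gt_d9
          nlinarith
        linarith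
    _ = Real.exp (-s) := one_mul _
    _ ≤ Real.exp (-Real.exp (Real.exp y)) := Real.exp_le_exp.2 (by linarith)

/-- **large deviations of the boundary values** -/
theorem tail_main (d : ℕ) {A M : ℝ} (hA : 0 ≤ A) (hM : 0 < M) : ∃ C : ℝ, 0 ≤ C ∧ ∀ V : ℝ, C ≤ V → ∃ H₀ : ℝ, 0 < H₀ ∧
    ∀ (K : Type) [Field K] [NumberField K] (m : ℝ) (S : Sys K m A), Module.finrank ℚ K ≤ d → m * Module.finrank ℚ K ≤ M →
    ∀ (σ : ℝ), 0 ≤ σ → ∀ g : ℝ → ℂ, S.IsLim σ g → ∀ H : ℝ, H₀ ≤ H → ∀ T : ℝ,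
      volume {t : ℝ | t ∈ Set.Icc T (T + H) ∧ V ≤ ‖g t‖} ≤
        ENNReal.ofReal (H * Real.exp (-Real.exp (Real.exp ((V - C) / M)))) := by
  obtain ⟨C, hC0, hC⟩ := tail_RY d hA hM
  refine ⟨C + 1 + M, by positivity, ?_⟩
  intro V hV
  set y' : ℝ := (V - (C + 1 + M)) / M with hy'
  have hy0 : 0 ≤ y' := div_nonneg (by linarith) hM.le
  have hy : (V - 1 - C) / M = y' + 1 := by
    rw [hy']
    field_simp
    ring
  set f : ℂ → ℝ := fun z => max 0 (min 1 (‖z‖ - (V - 1))) with hf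
  have hfc : Continuous f := continuous_const.max (continuous_const.min (continuous_norm.sub continuous_const))
  have hf0 : ∀ z, 0 ≤ f z := fun z => le_max_left _ _
  have hf1 : ∀ z, f z ≤ 1 := fun z => max_le zero_le_one (min_le_left _ _)
  have hκ := kp_pos M
  have hcls : Cls (kp M) f := ⟨hfc, 1, fun z => by
    rw [abs_of_nonneg (hf0 z), one_mul]
    exact (hf1 z).trans (Real.one_le_exp (by positivity))⟩
  set ε : ℝ := Real.exp (-Real.exp (Real.exp (y' + 1))) with hε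
  obtain ⟨H₀, Y₀, hH₀, hmain⟩ := main_law d A M hA hM.le hcls (ε := ε) (Real.exp_pos _)
  refine ⟨H₀, hH₀, ?_⟩
  intro K _ _ m S hd hmM σ hσ g hg H hH T
  have h1 := hmain K m S hd hmM σ hσ g hg H hH T Y₀ le_rfl
  have hHp : 0 < H := hH₀.trans_le hH
  -- the mean over the cube
  have h2 : ∫ θ, f (S.RY σ Y₀ (pt θ)) ∂(cube (Nat.primesBelow Y₀)) ≤ ε := by
    have h3 := hC K m S hd hmM σ hσ Y₀ (V - 1) (by linarith)
    rw [hy] at h3
    refine le_trans ?_ h3
    have hRc : Continuous fun θ : Nat.primesBelow Y₀ → ℝ => S.RY σ Y₀ (pt θ) := (S.RY_cont hσ Y₀).comp pt_cont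
    have hmeas : MeasurableSet {θ : Nat.primesBelow Y₀ → ℝ | V - 1 ≤ ‖S.RY σ Y₀ (pt θ)‖} :=
      (isClosed_le continuous_const hRc.norm).measurableSet
    rw [← integral_indicator_one hmeas]
    refine integral_mono_of_nonneg (Eventually.of_forall fun θ => hf0 _) ?_ (Eventually.of_forall fun θ => ?_)
    · exact (integrable_const (1:ℝ)).indicator hmeas
    · simp only [Set.indicator_apply, Set.mem_ofPred_eq, Pi.one_apply]
      split_ifs with h4
      · exact hf1 _
      · simp only [hf]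
        rw [max_eq_left]
        exact (min_le_right _ _).trans (by linarith)
  have h3 : ∫ t in T..(T + H), f (g t) ≤ H * (2 * ε) := by
    have h4 := (abs_le.1 h1).2
    have h5 : (1 / H) * (∫ t in T..(T + H), f (g t)) ≤ 2 * ε := by linarith
    rw [one_div, inv_mul_le_iff₀ hHp] at h5
    exact h5
  have h4 : 2 * ε ≤ Real.exp (-Real.exp (Real.exp y')) := by
    rw [hε]
    set X := Real.exp (Real.exp y') with hX
    have he1 := Real.exp_one_gt_d9
    have hX2 : 2 ≤ X := by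
      have h5 : Real.exp 1 ≤ X := Real.exp_le_exp.2 (Real.one_le_exp hy0)
      linarith
    have h5 : X + 1 ≤ Real.exp (Real.exp (y' + 1)) := by
      have h6 : Real.exp y' + 1 ≤ Real.exp (y' + 1) := by
        rw [Real.exp_add]
        have := Real.one_le_exp hy0
        nlinarith
      have h7 : Real.exp (Real.exp y' + 1) ≤ Real.exp (Real.exp (y' + 1)) := Real.exp_le_exp.2 h6
      rw [Real.exp_add] at h7
      nlinarith
    have h6 : Real.exp (-Real.exp (Real.exp (y' + 1))) ≤ Real.exp (-(X + 1)) := Real.exp_le_exp.2 (by linarith)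
    have h7 : Real.exp (-(X + 1)) = Real.exp (-X) * Real.exp (-1) := by
      rw [← Real.exp_add]
      congr 1
      ring
    have h8 : Real.exp (-1) ≤ 1 / 2 := by
      rw [Real.exp_neg, one_div]
      exact inv_anti₀ (by norm_num) (by linarith)
    have h9 := Real.exp_pos (-X)
    nlinarith
  -- the measure
  have hgm : AEStronglyMeasurable g (volume.restrict (Set.Icc T (T + H))) := (hg.aesm hσ).restrict
  have hfg : AEStronglyMeasurable (fun t => f (g t)) (volume.restrict (Set.Icc T (T + H))) :=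
    hfc.comp_aestronglyMeasurable hgm
  have hfi : Integrable (fun t => f (g t)) (volume.restrict (Set.Icc T (T + H))) := by
    refine Integrable.of_bound hfg 1 (Eventually.of_forall fun t => ?_)
    rw [Real.norm_eq_abs, abs_of_nonneg (hf0 _)]
    exact hf1 _
  have hnull : NullMeasurableSet {t : ℝ | V ≤ ‖g t‖} (volume.restrict (Set.Icc T (T + H))) :=
    nullMeasurableSet_le aemeasurable_const hgm.norm.aemeasurable
  have h5 : volume {t : ℝ | t ∈ Set.Icc T (T + H) ∧ V ≤ ‖g t‖} = (volume.restrict (Set.Icc T (T + H))) {t : ℝ | V ≤ ‖g t‖} := by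
    rw [Measure.restrict_apply₀ hnull]
    congr 1
    ext t
    simp only [Set.mem_ofPred_eq, Set.mem_inter_iff]
    exact and_comm
  rw [h5]
  have h6 : (volume.restrict (Set.Icc T (T + H))) {t : ℝ | V ≤ ‖g t‖} ≤
      ∫⁻ t, ENNReal.ofReal (f (g t)) ∂(volume.restrict (Set.Icc T (T + H))) := by
    rw [← lintegral_indicator_one₀ hnull]
    refine lintegral_mono fun t => ?_
    simp only [Set.indicator_apply, Set.mem_ofPred_eq, Pi.one_apply]
    split_ifs with h7
    · rw [← ENNReal.ofReal_one]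
      apply ENNReal.ofReal_le_ofReal
      simp only [hf]
      rw [le_max_iff]
      right
      rw [le_min_iff]
      exact ⟨le_rfl, by linarith⟩
    · exact zero_le
  refine h6.trans ?_
  rw [← ofReal_integral_eq_lintegral_ofReal hfi (Eventually.of_forall fun t => hf0 _)]
  apply ENNReal.ofReal_le_ofReal
  rw [integral_Icc_eq_integral_Ioc, ← intervalIntegral.integral_of_le (by linarith)]
  exact h3.trans (mul_le_mul_of_nonneg_left h4 hHp.le)

end Run7.h113.GE
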