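import Mathlib
import Pool.Agent.Run7.h113.GE.Conc

/-!
Lower bounds for the probability of large values on the cube.
-/

set_option autoImplicit false

open MeasureTheory Filter Topology Finset
open Run7.h113.LE (cube pt)
open scoped ENNReal

namespace Run7.h113.GE

lemma norm_e_sub (a b : ℝ) :
    ‖Complex.exp (2 * Real.pi * Complex.I * a) - Complex.exp (2 * Real.pi * Complex.I * b)‖ ≤ 2 * Real.pi * |a - b| := by
  have h1 : Complex.exp (2 * Real.pi * Complex.I * a) - Complex.exp (2 * Real.pi * Complex.I * b) =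
      Complex.exp (2 * Real.pi * Complex.I * b) * (Complex.exp (Complex.I * ((2 * Real.pi * (a - b) : ℝ) : ℂ)) - 1) := by
    rw [mul_sub, ← Complex.exp_add, mul_one]
    congr 2
    push_cast
    ring
  have h2 : ‖Complex.exp (2 * Real.pi * Complex.I * b)‖ = 1 := by
    have : (2 * Real.pi * Complex.I * b : ℂ) = ((2 * Real.pi * b : ℝ) : ℂ) * Complex.I := by
      push_cast; ring
    rw [this, Complex.norm_exp_ofReal_mul_I]
  rw [h1, norm_mul, h2, one_mul]
  refine (Real.norm_exp_I_mul_ofReal_sub_one_le).trans (le_of_eq ?_)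
  rw [Real.norm_eq_abs, abs_mul, abs_of_pos (by positivity)]

/-- arcs -/
lemma arc_le {w : ℂ} (hw : ‖w‖ = 1) {δ : ℝ} (hδ : 0 ≤ δ) (hδ2 : δ ≤ 1 / 2) :
    ENNReal.ofReal δ ≤ (volume.restrict (Set.Icc (0:ℝ) 1)) {x : ℝ | ‖Complex.exp (2 * Real.pi * Complex.I * x) - w‖ ≤ 2 * Real.pi * δ} := by
  have hpi := Real.pi_pos
  obtain ⟨φ, hφ0, hφ1, hφ⟩ : ∃ φ : ℝ, 0 ≤ φ ∧ φ < 1 ∧ w = Complex.exp (2 * Real.pi * Complex.I * φ) := by
    refine ⟨Int.fract (Complex.arg w / (2 * Real.pi)), Int.fract_nonneg _, Int.fract_lt_one _, ?_⟩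
    have h2 := Complex.norm_mul_exp_arg_mul_I w
    rw [hw, Complex.ofReal_one, one_mul] at h2
    rw [← h2]
    have h3 : Int.fract (Complex.arg (Complex.exp (Complex.arg w * Complex.I)) / (2 * Real.pi)) =
        Int.fract (Complex.arg w / (2 * Real.pi)) := by rw [h2]
    rw [h3]
    rw [Complex.exp_eq_exp_iff_exists_int]
    refine ⟨⌊Complex.arg w / (2 * Real.pi)⌋, ?_⟩
    have h4 : Complex.arg w / (2 * Real.pi) = ⌊Complex.arg w / (2 * Real.pi)⌋ + Int.fract (Complex.arg w / (2 * Real.pi)) :=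
      (Int.floor_add_fract _).symm
    have h5 : Complex.arg w = 2 * Real.pi * (⌊Complex.arg w / (2 * Real.pi)⌋ + Int.fract (Complex.arg w / (2 * Real.pi))) := by
      rw [← h4]
      field_simp
    generalize Int.fract (Complex.arg w / (2 * Real.pi)) = a at h5
    generalize ⌊Complex.arg w / (2 * Real.pi)⌋ = b at h5
    rw [h5]
    push_cast
    ring
  have hmeas : MeasurableSet {x : ℝ | ‖Complex.exp (2 * Real.pi * Complex.I * x) - w‖ ≤ 2 * Real.pi * δ} :=
    (isClosed_le (by fun_prop) continuous_const).measurableSet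
  rw [Measure.restrict_apply hmeas]
  have key : ∀ x : ℝ, |x - φ| ≤ δ → x ∈ {x : ℝ | ‖Complex.exp (2 * Real.pi * Complex.I * x) - w‖ ≤ 2 * Real.pi * δ} := by
    intro x hx
    show ‖Complex.exp (2 * Real.pi * Complex.I * x) - w‖ ≤ 2 * Real.pi * δ
    rw [hφ]
    refine (norm_e_sub x φ).trans ?_
    exact mul_le_mul_of_nonneg_left hx (by positivity)
  rcases le_total φ (1 / 2) with h | h
  · have hsub : Set.Icc φ (φ + δ) ⊆ {x : ℝ | ‖Complex.exp (2 * Real.pi * Complex.I * x) - w‖ ≤ 2 * Real.pi * δ} ∩ Set.Icc 0 1 := by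
      intro x hx
      refine ⟨key x ?_, ⟨by linarith [hx.1], by linarith [hx.2]⟩⟩
      rw [abs_le]
      constructor <;> linarith [hx.1, hx.2]
    refine le_trans (le_of_eq ?_) (measure_mono hsub)
    rw [Real.volume_Icc]
    congr 1
    ring
  · have hsub : Set.Icc (φ - δ) φ ⊆ {x : ℝ | ‖Complex.exp (2 * Real.pi * Complex.I * x) - w‖ ≤ 2 * Real.pi * δ} ∩ Set.Icc 0 1 := by
      intro x hx
      refine ⟨key x ?_, ⟨by linarith [hx.1], by linarith [hx.2]⟩⟩
      rw [abs_le]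
      constructor <;> linarith [hx.1, hx.2]
    refine le_trans (le_of_eq ?_) (measure_mono hsub)
    rw [Real.volume_Icc]
    congr 1
    ring

variable {ι : Type} [Fintype ι] [DecidableEq ι]

/-- the probability of a box -/
lemma cube_box (J : Finset ι) {B : ι → Set ℝ} {δ : ℝ} (hδ : 0 ≤ δ)
    (hB : ∀ i ∈ J, ENNReal.ofReal δ ≤ (volume.restrict (Set.Icc (0:ℝ) 1)) (B i)) :
    δ ^ J.card ≤ (cube ι).real {θ | ∀ i ∈ J, θ i ∈ B i} := by
  have e1 : {θ : ι → ℝ | ∀ i ∈ J, θ i ∈ B i} = Set.pi Set.univ (fun i => if i ∈ J then B i else Set.univ) := by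
    ext θ
    simp only [Set.mem_ofPred_eq, Set.mem_pi, Set.mem_univ, true_implies]
    constructor
    · intro h i
      split_ifs with hi
      · exact h i hi
      · trivial
    · intro h i hi
      have := h i
      rwa [if_pos hi] at this
  have h1 : ENNReal.ofReal (δ ^ J.card) ≤ cube ι {θ | ∀ i ∈ J, θ i ∈ B i} := by
    rw [e1]
    unfold Run7.h113.LE.cube
    rw [Measure.pi_pi]
    have h2 : ∏ i, (volume.restrict (Set.Icc (0:ℝ) 1)) (if i ∈ J then B i else Set.univ) =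
        ∏ i ∈ J, (volume.restrict (Set.Icc (0:ℝ) 1)) (B i) := by
      rw [← Finset.prod_subset (Finset.subset_univ J)]
      · refine Finset.prod_congr rfl fun i hi => ?_
        rw [if_pos hi]
      · intro i _ hi
        rw [if_neg hi, measure_univ]
    rw [h2, ENNReal.ofReal_pow hδ, ← Finset.prod_const]
    exact Finset.prod_le_prod' hB
  unfold Measure.real
  exact (ENNReal.ofReal_le_iff_le_toReal (measure_ne_top _ _)).1 h1

/-- independence of disjoint blocks of coordinates -/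
lemma cube_inter (J : Finset ι) {B : ι → Set ℝ} (hBm : ∀ i, MeasurableSet (B i)) {r : ι → ℝ → ℂ}
    (hr : ∀ i, Continuous (r i)) (c : ℝ) :
    (cube ι).real ({θ | ∀ i ∈ J, θ i ∈ B i} ∩ {θ | ‖∑ i ∈ Jᶜ, r i (θ i)‖ < c}) =
      (cube ι).real {θ | ∀ i ∈ J, θ i ∈ B i} * (cube ι).real {θ | ‖∑ i ∈ Jᶜ, r i (θ i)‖ < c} := by
  have h1 : ProbabilityTheory.iIndepFun (fun (i : ι) (θ : ι → ℝ) => θ i) (cube ι) := by
    unfold Run7.h113.LE.cube
    exact ProbabilityTheory.iIndepFun_pi (X := fun _ x => x) fun i => aemeasurable_id'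
  have h2 := h1.indepFun_finset J Jᶜ disjoint_compl_right (fun i => measurable_pi_apply i)
  have hm : MeasurableSet {y : (Jᶜ : Finset ι) → ℝ | ‖∑ i : (Jᶜ : Finset ι), r i (y i)‖ < c} := by
    have hc : Continuous fun y : (Jᶜ : Finset ι) → ℝ => ∑ i : (Jᶜ : Finset ι), r i (y i) :=
      continuous_finsetSum _ fun i _ => (hr i).comp (continuous_apply i)
    exact (isOpen_lt hc.norm continuous_const).measurableSet
  have h3 := h2.measure_inter_preimage_eq_mul (Set.pi Set.univ fun i : J => B i)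
    {y : (Jᶜ : Finset ι) → ℝ | ‖∑ i : (Jᶜ : Finset ι), r i (y i)‖ < c}
    (MeasurableSet.pi Set.countable_univ fun i _ => hBm i) hm
  have e1 : (fun (θ : ι → ℝ) (i : J) => θ i) ⁻¹' (Set.pi Set.univ fun i : J => B i) = {θ | ∀ i ∈ J, θ i ∈ B i} := by
    ext θ
    simp only [Set.mem_preimage, Set.mem_pi, Set.mem_univ, true_implies, Set.mem_ofPred_eq, Subtype.forall]
  have e2 : (fun (θ : ι → ℝ) (i : (Jᶜ : Finset ι)) => θ i) ⁻¹' {y : (Jᶜ : Finset ι) → ℝ | ‖∑ i : (Jᶜ : Finset ι), r i (y i)‖ < c} =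
      {θ | ‖∑ i ∈ Jᶜ, r i (θ i)‖ < c} := by
    ext θ
    simp only [Set.mem_preimage, Set.mem_ofPred_eq]
    rw [Finset.sum_coe_sort Jᶜ (fun i => r i (θ i))]
  rw [e1, e2] at h3
  unfold Measure.real
  rw [h3, ENNReal.toReal_mul]

/-- the tail alone -/
lemma cube_tail0 {r : ι → ℝ → ℂ} (hr : ∀ i, Continuous (r i)) (h0 : ∀ i, ∫ x in Set.Icc (0:ℝ) 1, r i x = 0) {b : ι → ℝ}
    (hb : ∀ i x, ‖r i x‖ ≤ b i) (J : Finset ι) {s : ℝ} (hs : 0 ≤ s) (a : ℝ) :
    (cube ι).real {θ | 2 * a ≤ ‖∑ i ∈ Jᶜ, r i (θ i)‖} ≤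
      4 * Real.exp (-(s * a) + s ^ 2 / 2 * ∑ i ∈ Jᶜ, b i ^ 2) := by
  have h1 := cube_tail (r := fun i x => if i ∈ Jᶜ then r i x else 0) (b := fun i => if i ∈ Jᶜ then b i else 0)
    (fun i => by
      split_ifs
      · exact hr i
      · exact continuous_const)
    (fun i => by
      split_ifs
      · exact h0 i
      · simp)
    (fun i x => by
      split_ifs
      · exact hb i x
      · simp) ∅ hs a
  have e1 : ∀ θ : ι → ℝ, ∑ i, (if i ∈ Jᶜ then r i (θ i) else 0) = ∑ i ∈ Jᶜ, r i (θ i) := by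
    intro θ
    rw [Finset.sum_ite_mem, Finset.univ_inter]
  have e2 : ∑ i ∈ (∅ᶜ : Finset ι), (if i ∈ Jᶜ then b i else 0) ^ 2 = ∑ i ∈ Jᶜ, b i ^ 2 := by
    simp only [Finset.compl_empty, ite_pow]
    rw [show (0:ℝ) ^ 2 = 0 by norm_num, Finset.sum_ite_mem, Finset.univ_inter]
  simp only [Finset.sum_empty, zero_add, e1, e2] at h1
  exact h1

end Run7.h113.GE
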