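import Mathlib
import Pool.Agent.Run7.h113.GE.Tail
import Pool.Agent.Run7.h113.GE.Low

/-!
Two-sided bounds for the large deviations.
-/

set_option autoImplicit false

open MeasureTheory Filter Topology Finset NumberField IsDedekindDomain
open scoped ENNReal
open Pool.Agent.H921R2.TatePole (nm two_le_nm below deg nm_eq below_le_nm card_above)
open Pool.Agent.R433.MD (norm_nm_cpow nm_pos)
open Pool.Agent.W350.EdgeV (FV mem_FV tendsto_FV abel_V)
open Pool.Agent.W350.EdgeNF (hfin below_sq_summable hpow)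
open Run7.h113.LE

namespace Run7.h113.GE

section
variable {K : Type} [Field K] [NumberField K] {m A : ℝ} (S : Sys K m A)

lemma below_of_nm {v : HeightOneSpectrum (𝓞 K)} {p : ℕ} (hp : p.Prime) (h : nm v = p) :
    (below v : ℕ) = p ∧ deg v = 1 := by
  obtain ⟨h1, h2, h3⟩ := nm_eq v
  have h4 : (below v : ℕ) ∣ p := by
    rw [← h, h1]
    exact dvd_pow_self _ h2.ne'
  have h5 : (below v : ℕ) = p := (Nat.prime_dvd_prime_iff_eq (below v).prop hp).1 h4
  refine ⟨h5, ?_⟩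
  rw [h, h5] at h1
  have h6 : p ^ deg v = p ^ 1 := by rw [pow_one]; exact h1.symm
  exact Nat.pow_right_injective hp.two_le h6

lemma Sys.G_deg (v : HeightOneSpectrum (𝓞 K)) {p : ℕ} (hb : (below v : ℕ) = p) (hn : nm v ≠ p) {z : ℂ} (hz : ‖z‖ ≤ 1) :
    ‖S.G v z‖ ≤ (m + A) * (1 / (p:ℝ) ^ 2) := by
  subst hb
  have h1 := S.near v z hz
  rw [below_inv] at h1
  obtain ⟨h3, h4, h5⟩ := nm_eq v
  have h6 : 2 ≤ deg v := by
    by_contra h7
    have h8 : deg v = 1 := by omega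
    rw [h8, pow_one] at h3
    exact hn h3
  have h7 : (below v : ℕ) ^ 2 ≤ nm v := by
    rw [h3]
    exact Nat.pow_le_pow_right (below v).prop.pos h6
  have h8 : (0:ℝ) < ((below v : ℕ) : ℝ) := by exact_mod_cast (below v).prop.pos
  have h9 : 1 / (nm v : ℝ) ≤ 1 / ((below v : ℕ) : ℝ) ^ 2 :=
    one_div_le_one_div_of_le (by positivity) (by exact_mod_cast h7)
  have h10 : ‖S.c v * z‖ ≤ m * (1 / ((below v : ℕ) : ℝ) ^ 2) := by
    rw [norm_mul]
    have h11 := S.c_norm v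
    have h12 : m / (nm v : ℝ) ≤ m * (1 / ((below v : ℕ) : ℝ) ^ 2) := by
      rw [← mul_one_div]
      exact mul_le_mul_of_nonneg_left h9 S.m_nonneg
    have h13 := norm_nonneg z
    have h14 := norm_nonneg (S.c v)
    nlinarith
  have h11 : S.G v z = (S.G v z - S.c v * z) + S.c v * z := by ring
  rw [h11]
  exact (norm_add_le _ _).trans (by linarith)

/-- the main term of the part belonging to a prime -/
lemma Sys.rp_near {σ : ℝ} (hσ : 0 ≤ σ) (Y : ℕ) (p : Nat.primesBelow Y) (x : ℝ) :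
    ‖S.rp σ Y p x - S.cc σ p * Complex.exp (2 * Real.pi * Complex.I * x)‖ ≤
      (Module.finrank ℚ K : ℝ) * ((m + A) * (1 / ((p:ℕ) : ℝ) ^ 2)) := by
  classical
  have hp := (Nat.mem_primesBelow.1 p.2).2
  have hpY := (Nat.mem_primesBelow.1 p.2).1
  have hp0 : (0:ℝ) < (p:ℕ) := by exact_mod_cast hp.pos
  set F := (FV nm (hfin (K := K)) Y).filter (fun v => (below v : ℕ) = p) with hF
  set z : HeightOneSpectrum (𝓞 K) → ℂ := fun v => (((nm v : ℝ) ^ (-σ) : ℝ) : ℂ) *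
    Complex.exp (2 * Real.pi * Complex.I * ((deg v : ℕ) * x)) with hz
  have hz1 : ∀ v, ‖z v‖ ≤ 1 := fun v => Sys.arg_le hσ v (exp_le_one (deg v) x).le
  have e1 : S.cc σ p * Complex.exp (2 * Real.pi * Complex.I * x) = ∑ v ∈ F, if nm v = p then S.c v * z v else 0 := by
    rw [← Finset.sum_filter]
    unfold Sys.cc
    rw [Finset.sum_mul]
    apply Finset.sum_congr
    · ext v
      rw [hF]
      simp only [mem_filter, mem_FV]
      constructor
      · rintro ⟨h1, h2⟩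
        exact ⟨⟨by omega, (below_of_nm hp h2).1⟩, h2⟩
      · rintro ⟨⟨h1, h2⟩, h3⟩
        exact ⟨by omega, h3⟩
    · intro v hv
      rw [mem_filter] at hv
      have h1 := (below_of_nm hp hv.2).2
      rw [hz]
      simp only
      rw [h1, Nat.cast_one, one_mul, mul_assoc]
  rw [e1]
  unfold Sys.rp
  rw [← hF]
  have e2 : ∑ v ∈ F, S.G v ((((nm v : ℝ) ^ (-σ) : ℝ) : ℂ) * Complex.exp (2 * Real.pi * Complex.I * ((deg v : ℕ) * x))) =
      ∑ v ∈ F, S.G v (z v) := rfl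
  rw [e2, ← Finset.sum_sub_distrib]
  have hm := S.m_nonneg
  have hA := S.A_nonneg
  have h1 : ∀ v ∈ F, ‖S.G v (z v) - (if nm v = p then S.c v * z v else 0)‖ ≤ (m + A) * (1 / ((p:ℕ) : ℝ) ^ 2) := by
    intro v hv
    rw [hF, mem_filter] at hv
    split_ifs with h
    · have h2 := S.near v (z v) (hz1 v)
      rw [below_inv, hv.2] at h2
      refine h2.trans (mul_le_mul_of_nonneg_right (by linarith) (by positivity))
    · rw [sub_zero]
      exact S.G_deg v hv.2 h (hz1 v)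
  refine (norm_sum_le_of_le _ h1).trans ?_
  rw [Finset.sum_const, nsmul_eq_mul]
  apply mul_le_mul_of_nonneg_right _ (by positivity)
  have := card_above ⟨(p:ℕ), hp⟩ F (by
    intro v hv
    rw [hF] at hv
    exact Subtype.ext (mem_filter.1 hv).2)
  exact_mod_cast this

lemma Sys.cc_sigma {σ : ℝ} (hσ : 0 ≤ σ) {p : ℕ} (hp : p.Prime) : ‖S.cc σ p‖ ≤ ‖S.cc 0 p‖ := by
  classical
  have h1 : S.cc σ p = S.cc 0 p * (((p:ℝ) ^ (-σ) : ℝ) : ℂ) := by
    unfold Sys.cc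
    rw [Finset.sum_mul]
    refine Finset.sum_congr rfl fun v hv => ?_
    rw [mem_filter] at hv
    rw [hv.2]
    simp
  have hp1 : (1:ℝ) ≤ p := by exact_mod_cast hp.one_lt.le
  rw [h1, norm_mul, Complex.norm_real, Real.norm_of_nonneg (by positivity)]
  exact mul_le_of_le_one_right (norm_nonneg _) (Real.rpow_le_one_of_one_le_of_nonpos hp1 (by linarith))

/-- the sum of the absolute values of the coefficients -/
noncomputable def Sys.bs (n : ℕ) : ℝ := ∑ p ∈ (Finset.Icc 1 n).filter Nat.Prime, ‖S.cc 0 p‖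

lemma Sys.bs_le (n : ℕ) (F : Finset ℕ) (hF : ∀ p ∈ F, p.Prime ∧ p ≤ n) : ∑ p ∈ F, ‖S.cc 0 p‖ ≤ S.bs n := by
  unfold Sys.bs
  apply Finset.sum_le_sum_of_subset_of_nonneg
  · intro p hp
    rw [mem_filter, mem_Icc]
    exact ⟨⟨(hF p hp).1.one_lt.le, (hF p hp).2⟩, (hF p hp).1⟩
  · intro p _ _
    exact norm_nonneg _

lemma Sys.bs_eq {n Y : ℕ} (hY : n < Y) (J : Finset (Nat.primesBelow Y)) (hJ : ∀ p, p ∈ J ↔ (p:ℕ) ≤ n) :
    ∑ p ∈ J, ‖S.cc 0 (p:ℕ)‖ = S.bs n := by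
  unfold Sys.bs
  refine Finset.sum_bij (fun p _ => (p:ℕ)) ?_ ?_ ?_ ?_
  · intro p hp
    rw [mem_filter, mem_Icc]
    have h := (Nat.mem_primesBelow.1 p.2).2
    exact ⟨⟨h.one_lt.le, (hJ p).1 hp⟩, h⟩
  · intro p _ q _ h
    exact Subtype.ext h
  · intro p hp
    rw [mem_filter, mem_Icc] at hp
    exact ⟨⟨p, Nat.mem_primesBelow.2 ⟨by omega, hp.2⟩⟩, (hJ _).2 hp.1.2, rfl⟩
  · intro p _
    rfl

end

/-- **tails of the random Euler product, with the exact growth of the traces** -/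
theorem tail_RY2 (d : ℕ) {A M : ℝ} (hA : 0 ≤ A) (hM : 0 ≤ M) {κ : ℝ} (hκ : 0 < κ) (C0 : ℝ) : ∃ C : ℝ, 0 ≤ C ∧
    ∀ (K : Type) [Field K] [NumberField K] (m : ℝ) (S : Sys K m A), Module.finrank ℚ K ≤ d → m * Module.finrank ℚ K ≤ M →
    (∀ n : ℕ, 3 ≤ n → S.bs n ≤ κ * Real.log (Real.log n) + C0) →
    ∀ (σ : ℝ), 0 ≤ σ → ∀ (Y : ℕ) (V : ℝ), C ≤ V →
      (cube (Nat.primesBelow Y)).real {θ | V ≤ ‖S.RY σ Y (pt θ)‖} ≤ Real.exp (-Real.exp (Real.exp ((V - C) / κ))) := by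
  classical
  set D : ℝ := d * (M + A) with hD
  have hD0 : 0 ≤ D := by positivity
  set a : ℝ := (M + D) ^ 2 + 2 with ha
  refine ⟨κ + |C0| + 2 * D + 2 * a, by positivity, ?_⟩
  intro K _ _ m S hd hmM hbs σ hσ Y V hV
  set C : ℝ := κ + |C0| + 2 * D + 2 * a with hC
  set y : ℝ := (V - C) / κ with hy
  have hy0 : 0 ≤ y := div_nonneg (by linarith) hκ.le
  have hVy : V = C + κ * y := by
    rw [hy]
    field_simp
    ring
  set s : ℝ := Real.exp (Real.exp y) + 1 with hs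
  have hey : 1 ≤ Real.exp y := Real.one_le_exp hy0
  have hey2 : 2.7 < Real.exp (Real.exp y) := by
    have h1 : Real.exp 1 ≤ Real.exp (Real.exp y) := Real.exp_le_exp.2 hey
    have h2 := Real.exp_one_gt_d9
    linarith
  have hs3 : 3 ≤ s := by linarith
  set n : ℕ := ⌊s⌋₊ with hn
  have hn3 : 3 ≤ n := Nat.le_floor (by exact_mod_cast hs3)
  have hns : (n:ℝ) ≤ s := Nat.floor_le (by linarith)
  have hsn : s < n + 1 := Nat.lt_floor_add_one s
  have hn0 : (0:ℝ) < n := by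
    have : 0 < n := by omega
    exact_mod_cast this
  have hlog1 : 0 < Real.log n := Real.log_pos (by
    have : (3:ℝ) ≤ n := by exact_mod_cast hn3
    linarith)
  -- the iterated logarithm
  have hll : Real.log (Real.log n) ≤ y + 1 := by
    have h1 : s ≤ Real.exp (Real.exp (y + 1)) := by
      have h2 : Real.exp (y + 1) = Real.exp 1 * Real.exp y := by rw [← Real.exp_add, add_comm]
      have h3 : Real.exp y + 1 ≤ Real.exp (y + 1) := by
        rw [h2]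
        have := Real.exp_one_gt_d9
        nlinarith
      have h4 : Real.exp (Real.exp y) + 1 ≤ Real.exp (Real.exp y + 1) := by
        rw [Real.exp_add]
        have := Real.exp_one_gt_d9
        nlinarith
      exact h4.trans (Real.exp_le_exp.2 h3)
    have h2 : Real.log n ≤ Real.exp (y + 1) := by
      rw [← Real.log_exp (Real.exp (y + 1))]
      exact Real.log_le_log hn0 (hns.trans h1)
    calc Real.log (Real.log n) ≤ Real.log (Real.exp (y + 1)) := Real.log_le_log hlog1 h2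
      _ = y + 1 := Real.log_exp _
  -- the bounds
  set b : Nat.primesBelow Y → ℝ := fun p => ‖S.cc 0 (p:ℕ)‖ + D * (1 / ((p:ℕ) : ℝ) ^ 2) with hb
  have hmM' := S.m_le hmM
  have hdr : (Module.finrank ℚ K : ℝ) ≤ d := by exact_mod_cast hd
  have hrb : ∀ (p : Nat.primesBelow Y) (x : ℝ), ‖S.rp σ Y p x‖ ≤ b p := by
    intro p x
    have h1 := S.rp_near hσ Y p x
    have h2 := S.cc_sigma hσ (Nat.mem_primesBelow.1 p.2).2
    have h3 : ‖S.cc σ p * Complex.exp (2 * Real.pi * Complex.I * x)‖ ≤ ‖S.cc 0 (p:ℕ)‖ := by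
      rw [norm_mul]
      have h4 := exp_le_one 1 x
      rw [Nat.cast_one, one_mul] at h4
      rw [h4, mul_one]
      exact h2
    have h4 : (Module.finrank ℚ K : ℝ) * ((m + A) * (1 / ((p:ℕ) : ℝ) ^ 2)) ≤ D * (1 / ((p:ℕ) : ℝ) ^ 2) := by
      rw [hD, ← mul_assoc]
      have := S.m_nonneg
      gcongr
    have h5 : S.rp σ Y p x = (S.rp σ Y p x - S.cc σ p * Complex.exp (2 * Real.pi * Complex.I * x)) +
        S.cc σ p * Complex.exp (2 * Real.pi * Complex.I * x) := by ring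
    rw [h5]
    refine (norm_add_le _ _).trans ?_
    simp only [hb]
    linarith
  set J : Finset (Nat.primesBelow Y) := univ.filter fun p => (p:ℕ) ≤ n with hJ
  have h1 := cube_tail (ι := Nat.primesBelow Y) (r := fun p => S.rp σ Y p) (fun p => S.rp_cont hσ Y p)
    (fun p => S.rp_mean hσ Y p) (b := b) hrb J (s := s) (by linarith) a
  have hinj : ∀ F : Finset (Nat.primesBelow Y), ∀ φ : ℕ → ℝ, ∑ p ∈ F, φ (p:ℕ) =
      ∑ p ∈ F.image (fun p : Nat.primesBelow Y => (p:ℕ)), φ p := by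
    intro F φ
    rw [Finset.sum_image]
    intro p _ q _ hpq
    exact Subtype.ext hpq
  -- small primes
  have hJ1 : ∑ p ∈ J, b p ≤ κ * (y + 1) + |C0| + 2 * D := by
    simp only [hb]
    rw [Finset.sum_add_distrib, ← Finset.mul_sum, hinj J (fun p => ‖S.cc 0 p‖),
      hinj J (fun p => 1 / (p:ℝ) ^ 2)]
    have h2 := S.bs_le n (J.image (fun p : Nat.primesBelow Y => (p:ℕ))) (by
      intro p hp
      rw [mem_image] at hp
      obtain ⟨q, hq, rfl⟩ := hp
      rw [hJ, mem_filter] at hq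
      exact ⟨(Nat.mem_primesBelow.1 q.2).2, hq.2⟩)
    have h3 := sum_sq_tail (P0 := 1) le_rfl (J.image (fun p : Nat.primesBelow Y => (p:ℕ))) (by
      intro p hp
      rw [mem_image] at hp
      obtain ⟨q, hq, rfl⟩ := hp
      exact (Nat.mem_primesBelow.1 q.2).2.one_lt.le)
    rw [Nat.cast_one, div_one] at h3
    have h4 := hbs n hn3
    have h5 : D * ∑ p ∈ J.image (fun p : Nat.primesBelow Y => (p:ℕ)), 1 / (p:ℝ) ^ 2 ≤ D * 2 :=
      mul_le_mul_of_nonneg_left h3 hD0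
    have h6 : κ * Real.log (Real.log n) ≤ κ * (y + 1) := mul_le_mul_of_nonneg_left hll hκ.le
    have h7 := le_abs_self C0
    linarith
  -- large primes
  have hJ2 : ∑ p ∈ Jᶜ, b p ^ 2 ≤ (M + D) ^ 2 * (2 / ((n + 1 : ℕ) : ℝ)) := by
    have h2 : ∀ p ∈ Jᶜ, b p ^ 2 ≤ (M + D) ^ 2 * (1 / ((p:ℕ) : ℝ) ^ 2) := by
      intro p _
      have hpp := (Nat.mem_primesBelow.1 p.2).2
      have hp : (1:ℝ) ≤ (p:ℕ) := by exact_mod_cast hpp.one_lt.le
      have h3 : b p ≤ (M + D) * (1 / ((p:ℕ) : ℝ)) := by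
        simp only [hb]
        have h4 : 1 / ((p:ℕ) : ℝ) ^ 2 ≤ 1 / ((p:ℕ) : ℝ) :=
          one_div_le_one_div_of_le (by linarith) (by nlinarith)
        have h5 : D * (1 / ((p:ℕ) : ℝ) ^ 2) ≤ D * (1 / ((p:ℕ) : ℝ)) := mul_le_mul_of_nonneg_left h4 hD0
        have h6 := S.cc_norm (σ := 0) le_rfl hpp
        have h7 : (m * Module.finrank ℚ K) * (1 / ((p:ℕ) : ℝ)) ≤ M * (1 / ((p:ℕ) : ℝ)) :=
          mul_le_mul_of_nonneg_right hmM (by positivity)
        linarith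
      have h6 : 0 ≤ b p := by
        simp only [hb]
        positivity
      calc b p ^ 2 ≤ ((M + D) * (1 / ((p:ℕ) : ℝ))) ^ 2 := pow_le_pow_left₀ h6 h3 2
        _ = _ := by rw [mul_pow, one_div_pow]
    refine (Finset.sum_le_sum h2).trans ?_
    rw [← Finset.mul_sum, hinj Jᶜ (fun p => 1 / (p:ℝ) ^ 2)]
    apply mul_le_mul_of_nonneg_left _ (by positivity)
    apply sum_sq_tail (by omega)
    intro p hp
    rw [mem_image] at hp
    obtain ⟨q, hq, rfl⟩ := hp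
    rw [mem_compl, hJ, mem_filter] at hq
    have : ¬ (q:ℕ) ≤ n := fun h => hq ⟨mem_univ _, h⟩
    omega
  have hsub : {θ : Nat.primesBelow Y → ℝ | V ≤ ‖S.RY σ Y (pt θ)‖} ⊆
      {θ | (∑ p ∈ J, b p) + 2 * a ≤ ‖∑ p : Nat.primesBelow Y, S.rp σ Y p (θ p)‖} := by
    intro θ hθ
    simp only [Set.mem_ofPred_eq] at hθ ⊢
    rw [← S.RY_pt]
    refine le_trans ?_ hθ
    rw [hVy, hC]
    linarith
  refine (measureReal_mono hsub).trans (h1.trans ?_)
  have h2 : s ^ 2 / 2 * ∑ p ∈ Jᶜ, b p ^ 2 ≤ s * (M + D) ^ 2 := by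
    calc s ^ 2 / 2 * ∑ p ∈ Jᶜ, b p ^ 2 ≤ s ^ 2 / 2 * ((M + D) ^ 2 * (2 / ((n + 1 : ℕ) : ℝ))) :=
          mul_le_mul_of_nonneg_left hJ2 (by positivity)
      _ = s * (M + D) ^ 2 * (s / (n + 1)) := by
          push_cast
          field_simp
      _ ≤ s * (M + D) ^ 2 * 1 := by
          apply mul_le_mul_of_nonneg_left _ (by positivity)
          rw [div_le_one (by positivity)]
          exact hsn.le
      _ = _ := mul_one _
  have h3 : -(s * a) + s ^ 2 / 2 * ∑ p ∈ Jᶜ, b p ^ 2 ≤ -(2 * s) := by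
    rw [ha]
    linarith
  calc 4 * Real.exp (-(s * a) + s ^ 2 / 2 * ∑ p ∈ Jᶜ, b p ^ 2) ≤ 4 * Real.exp (-(2 * s)) :=
        mul_le_mul_of_nonneg_left (Real.exp_le_exp.2 h3) (by norm_num)
    _ = 4 * Real.exp (-s) * Real.exp (-s) := by
        rw [mul_assoc, ← Real.exp_add]
        congr 2
        ring
    _ ≤ 1 * Real.exp (-s) := by
        apply mul_le_mul_of_nonneg_right _ (Real.exp_pos _).le
        have h4 : Real.exp (-s) ≤ Real.exp (-2) := Real.exp_le_exp.2 (by linarith)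
        have h5 : Real.exp (-2) ≤ 1 / 4 := by
          rw [Real.exp_neg, show (2:ℝ) = 1 + 1 by norm_num, Real.exp_add, one_div]
          apply inv_anti₀ (by norm_num)
          have := Real.exp_one_gt_d9
          nlinarith
        linarith
    _ = Real.exp (-s) := one_mul _
    _ ≤ Real.exp (-Real.exp (Real.exp y)) := Real.exp_le_exp.2 (by linarith)

/-- **lower bounds for the tails of the random Euler product** -/
theorem low_RY (d : ℕ) {A M : ℝ} (hA : 0 ≤ A) (hM : 0 ≤ M) {κ : ℝ} (hκ : 0 < κ) (C0 : ℝ) : ∃ C : ℝ, 0 ≤ C ∧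
    ∀ V : ℝ, 0 ≤ V → ∃ Y₁ : ℕ,
    ∀ (K : Type) [Field K] [NumberField K] (m : ℝ) (S : Sys K m A), Module.finrank ℚ K ≤ d → m * Module.finrank ℚ K ≤ M →
    (∀ n : ℕ, 3 ≤ n → κ * Real.log (Real.log n) - C0 ≤ S.bs n) → ∀ Y : ℕ, Y₁ ≤ Y →
      Real.exp (-Real.exp (Real.exp ((V + C) / κ))) ≤ (cube (Nat.primesBelow Y)).real {θ | V ≤ ‖S.RY 0 Y (pt θ)‖} := by
  classical
  set D : ℝ := d * (M + A) with hD
  have hD0 : 0 ≤ D := by positivity
  set a : ℝ := (M + D) ^ 2 + 2 with ha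
  set C₁ : ℝ := |C0| + 2 * Real.pi * M + 2 * D + 2 * a with hC₁
  have hpi := Real.pi_pos
  have hC₁0 : 0 ≤ C₁ := by positivity
  refine ⟨C₁ + 3 * κ, by positivity, ?_⟩
  intro V hV
  set y : ℝ := (V + C₁) / κ with hy
  have hy0 : 0 ≤ y := by positivity
  have hey : 1 ≤ Real.exp y := Real.one_le_exp hy0
  have hee : 2.7 < Real.exp (Real.exp y) := by
    have h1 : Real.exp 1 ≤ Real.exp (Real.exp y) := Real.exp_le_exp.2 hey
    have h2 := Real.exp_one_gt_d9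
    linarith
  set n : ℕ := ⌈Real.exp (Real.exp y)⌉₊ with hn
  have hn1 : Real.exp (Real.exp y) ≤ n := Nat.le_ceil _
  have hn2 : (n:ℝ) < Real.exp (Real.exp y) + 1 := Nat.ceil_lt_add_one (by positivity)
  have hn3 : 3 ≤ n := by
    by_contra h
    have h1 : n ≤ 2 := by omega
    have h2 : (n:ℝ) ≤ 2 := by exact_mod_cast h1
    linarith
  have hn3r : (3:ℝ) ≤ n := by exact_mod_cast hn3
  have hll : y ≤ Real.log (Real.log n) := by
    have h1 : Real.exp y ≤ Real.log n := by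
      rw [← Real.log_exp (Real.exp y)]
      exact Real.log_le_log (by positivity) hn1
    calc y = Real.log (Real.exp y) := (Real.log_exp y).symm
      _ ≤ _ := Real.log_le_log (by positivity) h1
  refine ⟨n + 1, ?_⟩
  intro K _ _ m S hd hmM hbs Y hY
  have hmM' := S.m_le hmM
  have hdr : (Module.finrank ℚ K : ℝ) ≤ d := by exact_mod_cast hd
  set J : Finset (Nat.primesBelow Y) := univ.filter fun p => (p:ℕ) ≤ n with hJ
  have hJm : ∀ p : Nat.primesBelow Y, p ∈ J ↔ (p:ℕ) ≤ n := by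
    intro p
    rw [hJ, mem_filter]
    exact ⟨fun h => h.2, fun h => ⟨mem_univ _, h⟩⟩
  have hinj : ∀ F : Finset (Nat.primesBelow Y), ∀ φ : ℕ → ℝ, ∑ p ∈ F, φ (p:ℕ) =
      ∑ p ∈ F.image (fun p : Nat.primesBelow Y => (p:ℕ)), φ p := by
    intro F φ
    rw [Finset.sum_image]
    intro p _ q _ hpq
    exact Subtype.ext hpq
  have hnear : ∀ (p : Nat.primesBelow Y) (x : ℝ),
      ‖S.rp 0 Y p x - S.cc 0 p * Complex.exp (2 * Real.pi * Complex.I * x)‖ ≤ D * (1 / ((p:ℕ) : ℝ) ^ 2) := by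
    intro p x
    refine (S.rp_near le_rfl Y p x).trans ?_
    rw [hD, ← mul_assoc]
    have := S.m_nonneg
    gcongr
  have hccn : ∀ p : Nat.primesBelow Y, ‖S.cc 0 (p:ℕ)‖ ≤ M * (1 / ((p:ℕ) : ℝ)) := by
    intro p
    refine (S.cc_norm (σ := 0) le_rfl (Nat.mem_primesBelow.1 p.2).2).trans ?_
    exact mul_le_mul_of_nonneg_right hmM (by positivity)
  -- the tail
  set b : Nat.primesBelow Y → ℝ := fun p => ‖S.cc 0 (p:ℕ)‖ + D * (1 / ((p:ℕ) : ℝ) ^ 2) with hb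
  have hrb : ∀ (p : Nat.primesBelow Y) (x : ℝ), ‖S.rp 0 Y p x‖ ≤ b p := by
    intro p x
    have h1 := hnear p x
    have h3 : ‖S.cc 0 (p:ℕ) * Complex.exp (2 * Real.pi * Complex.I * x)‖ = ‖S.cc 0 (p:ℕ)‖ := by
      rw [norm_mul]
      have h4 := exp_le_one 1 x
      rw [Nat.cast_one, one_mul] at h4
      rw [h4, mul_one]
    have h5 : S.rp 0 Y p x = (S.rp 0 Y p x - S.cc 0 p * Complex.exp (2 * Real.pi * Complex.I * x)) +
        S.cc 0 p * Complex.exp (2 * Real.pi * Complex.I * x) := by ring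
    rw [h5]
    refine (norm_add_le _ _).trans ?_
    simp only [hb]
    linarith
  have hJ2 : ∑ p ∈ Jᶜ, b p ^ 2 ≤ (M + D) ^ 2 * (2 / ((n + 1 : ℕ) : ℝ)) := by
    have h2 : ∀ p ∈ Jᶜ, b p ^ 2 ≤ (M + D) ^ 2 * (1 / ((p:ℕ) : ℝ) ^ 2) := by
      intro p _
      have hpp := (Nat.mem_primesBelow.1 p.2).2
      have hp : (1:ℝ) ≤ (p:ℕ) := by exact_mod_cast hpp.one_lt.le
      have h3 : b p ≤ (M + D) * (1 / ((p:ℕ) : ℝ)) := by
        simp only [hb]
        have h4 : 1 / ((p:ℕ) : ℝ) ^ 2 ≤ 1 / ((p:ℕ) : ℝ) :=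
          one_div_le_one_div_of_le (by linarith) (by nlinarith)
        have h5 : D * (1 / ((p:ℕ) : ℝ) ^ 2) ≤ D * (1 / ((p:ℕ) : ℝ)) := mul_le_mul_of_nonneg_left h4 hD0
        have h6 := hccn p
        linarith
      have h6 : 0 ≤ b p := by
        simp only [hb]
        positivity
      calc b p ^ 2 ≤ ((M + D) * (1 / ((p:ℕ) : ℝ))) ^ 2 := pow_le_pow_left₀ h6 h3 2
        _ = _ := by rw [mul_pow, one_div_pow]
    refine (Finset.sum_le_sum h2).trans ?_
    rw [← Finset.mul_sum, hinj Jᶜ (fun p => 1 / (p:ℝ) ^ 2)]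
    apply mul_le_mul_of_nonneg_left _ (by positivity)
    apply sum_sq_tail (by omega)
    intro p hp
    rw [mem_image] at hp
    obtain ⟨q, hq, rfl⟩ := hp
    rw [mem_compl, hJm] at hq
    omega
  have hn0 : (0:ℝ) < n := by linarith
  have htail := cube_tail0 (ι := Nat.primesBelow Y) (r := fun p => S.rp 0 Y p) (fun p => S.rp_cont le_rfl Y p)
    (fun p => S.rp_mean le_rfl Y p) (b := b) hrb J (s := n) hn0.le a
  have htail2 : (cube (Nat.primesBelow Y)).real {θ | 2 * a ≤ ‖∑ p ∈ Jᶜ, S.rp 0 Y p (θ p)‖} ≤ 1 / 2 := by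
    refine htail.trans ?_
    have h2 : (n:ℝ) ^ 2 / 2 * ∑ p ∈ Jᶜ, b p ^ 2 ≤ n * (M + D) ^ 2 := by
      calc (n:ℝ) ^ 2 / 2 * ∑ p ∈ Jᶜ, b p ^ 2 ≤ (n:ℝ) ^ 2 / 2 * ((M + D) ^ 2 * (2 / ((n + 1 : ℕ) : ℝ))) :=
            mul_le_mul_of_nonneg_left hJ2 (by positivity)
        _ = n * (M + D) ^ 2 * (n / (n + 1)) := by
            push_cast
            field_simp
        _ ≤ n * (M + D) ^ 2 * 1 := by
            apply mul_le_mul_of_nonneg_left _ (by positivity)
            rw [div_le_one (by positivity)]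
            linarith
        _ = _ := mul_one _
    have h3 : -((n:ℝ) * a) + (n:ℝ) ^ 2 / 2 * ∑ p ∈ Jᶜ, b p ^ 2 ≤ -(2 * n) := by
      rw [ha]
      linarith
    have h4 : Real.exp (-((n:ℝ) * a) + (n:ℝ) ^ 2 / 2 * ∑ p ∈ Jᶜ, b p ^ 2) ≤ Real.exp (-3) :=
      Real.exp_le_exp.2 (by linarith)
    have h5 : Real.exp (-3) ≤ 1 / 8 := by
      rw [Real.exp_neg, show (3:ℝ) = 1 + 1 + 1 by norm_num, Real.exp_add, Real.exp_add, one_div]
      apply inv_anti₀ (by norm_num)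
      have h6 := Real.exp_one_gt_d9
      have h7 : (2.7:ℝ) * 2.7 * 2.7 ≤ Real.exp 1 * Real.exp 1 * Real.exp 1 := by
        gcongr <;> linarith
      norm_num at h7 ⊢
      linarith
    linarith
  have hEv : 1 / 2 ≤ (cube (Nat.primesBelow Y)).real {θ | ‖∑ p ∈ Jᶜ, S.rp 0 Y p (θ p)‖ < 2 * a} := by
    have hm : MeasurableSet {θ : Nat.primesBelow Y → ℝ | 2 * a ≤ ‖∑ p ∈ Jᶜ, S.rp 0 Y p (θ p)‖} := by
      have hc : Continuous fun θ : Nat.primesBelow Y → ℝ => ∑ p ∈ Jᶜ, S.rp 0 Y p (θ p) :=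
        continuous_finsetSum _ fun p _ => (S.rp_cont le_rfl Y p).comp (continuous_apply p)
      exact (isClosed_le continuous_const hc.norm).measurableSet
    have h1 := probReal_compl_eq_one_sub (μ := cube (Nat.primesBelow Y)) hm
    have e : {θ : Nat.primesBelow Y → ℝ | 2 * a ≤ ‖∑ p ∈ Jᶜ, S.rp 0 Y p (θ p)‖}ᶜ =
        {θ | ‖∑ p ∈ Jᶜ, S.rp 0 Y p (θ p)‖ < 2 * a} := by
      ext θ
      simp only [Set.mem_compl_iff, Set.mem_ofPred_eq, not_le]
    rw [e] at h1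
    linarith
  -- the box
  set w : Nat.primesBelow Y → ℂ := fun p =>
    if S.cc 0 (p:ℕ) = 0 then 1 else (‖S.cc 0 (p:ℕ)‖ : ℂ) / S.cc 0 (p:ℕ) with hw
  have hw1 : ∀ p : Nat.primesBelow Y, ‖w p‖ = 1 := by
    intro p
    simp only [hw]
    split_ifs with h
    · simp
    · rw [norm_div, Complex.norm_real, Real.norm_of_nonneg (norm_nonneg _)]
      exact div_self (norm_ne_zero_iff.2 h)
  have hw2 : ∀ p : Nat.primesBelow Y, S.cc 0 (p:ℕ) * w p = (‖S.cc 0 (p:ℕ)‖ : ℂ) := by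
    intro p
    simp only [hw]
    split_ifs with h
    · rw [h]
      simp
    · exact mul_div_cancel₀ _ h
  set B : Nat.primesBelow Y → Set ℝ := fun p =>
    {x : ℝ | ‖Complex.exp (2 * Real.pi * Complex.I * x) - w p‖ ≤ 2 * Real.pi * (1 / (n:ℝ))} with hB
  have hBm : ∀ p, MeasurableSet (B p) := fun p => (isClosed_le (by fun_prop) continuous_const).measurableSet
  have hbox := cube_box J (B := B) (δ := 1 / (n:ℝ)) (by positivity) (fun p _ =>
    arc_le (hw1 p) (by positivity) (by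
      rw [div_le_div_iff₀ hn0 (by norm_num)]
      linarith))
  have hboxn : Real.exp (-(n:ℝ) ^ 2) ≤ (cube (Nat.primesBelow Y)).real {θ | ∀ p ∈ J, θ p ∈ B p} := by
    refine le_trans ?_ hbox
    have hcard : J.card ≤ n := by
      have h1 : J.card = (J.image (fun p : Nat.primesBelow Y => (p:ℕ))).card := by
        rw [Finset.card_image_of_injective _ Subtype.val_injective]
      rw [h1]
      have h2 : J.image (fun p : Nat.primesBelow Y => (p:ℕ)) ⊆ Finset.Icc 1 n := by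
        intro p hp
        rw [mem_image] at hp
        obtain ⟨q, hq, rfl⟩ := hp
        rw [mem_Icc]
        exact ⟨(Nat.mem_primesBelow.1 q.2).2.one_lt.le, (hJm q).1 hq⟩
      have h3 := Finset.card_le_card h2
      rw [Nat.card_Icc] at h3
      omega
    have h1 : (1 / (n:ℝ)) ^ n ≤ (1 / (n:ℝ)) ^ J.card :=
      pow_le_pow_of_le_one (by positivity) (by rw [div_le_one hn0]; linarith) hcard
    refine le_trans ?_ h1
    have h2 : Real.log n ≤ n := (Real.log_le_sub_one_of_pos hn0).trans (by linarith)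
    have h3 : (1 / (n:ℝ)) ^ n = Real.exp (-(n * Real.log n)) := by
      rw [Real.exp_neg, Real.exp_nat_mul, Real.exp_log hn0, one_div, inv_pow]
    rw [h3]
    apply Real.exp_le_exp.2
    nlinarith
  have hind := cube_inter J hBm (r := fun p => S.rp 0 Y p) (fun p => S.rp_cont le_rfl Y p) (2 * a)
  have hprob : Real.exp (-(n:ℝ) ^ 2) * (1 / 2) ≤ (cube (Nat.primesBelow Y)).real
      ({θ | ∀ p ∈ J, θ p ∈ B p} ∩ {θ | ‖∑ p ∈ Jᶜ, S.rp 0 Y p (θ p)‖ < 2 * a}) := by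
    rw [hind]
    exact mul_le_mul hboxn hEv (by norm_num) measureReal_nonneg
  have hfin : Real.exp (-Real.exp (Real.exp ((V + (C₁ + 3 * κ)) / κ))) ≤ Real.exp (-(n:ℝ) ^ 2) * (1 / 2) := by
    have e0 : (V + (C₁ + 3 * κ)) / κ = y + 3 := by
      rw [hy]
      field_simp
      ring
    rw [e0]
    have he1 := Real.exp_one_gt_d9
    have h1 : (1:ℝ) / 2 ≥ Real.exp (-1) := by
      rw [Real.exp_neg, one_div]
      exact inv_anti₀ (by norm_num) (by linarith)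
    have h2 : Real.exp (-Real.exp (Real.exp (y + 3))) ≤ Real.exp (-(n:ℝ) ^ 2 + -1) := by
      apply Real.exp_le_exp.2
      -- `n ^ 2 + 1 ≤ exp (exp (y + 3))`
      set E := Real.exp (Real.exp y) with hE
      have h3 : (n:ℝ) ^ 2 + 1 ≤ (E + 1) ^ 2 + 1 := by
        have : (n:ℝ) ^ 2 ≤ (E + 1) ^ 2 := pow_le_pow_left₀ hn0.le hn2.le 2
        linarith
      have h4 : (E + 1) ^ 2 + 1 ≤ E ^ 4 := by
        have h5 : E + 1 ≤ E ^ 2 - 1 := by nlinarith
        have h6 : (E + 1) ^ 2 ≤ (E ^ 2 - 1) ^ 2 := pow_le_pow_left₀ (by linarith) h5 2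
        nlinarith
      have h5 : E ^ 4 ≤ Real.exp (Real.exp (y + 3)) := by
        rw [hE, ← Real.exp_nat_mul]
        apply Real.exp_le_exp.2
        rw [Real.exp_add]
        have h6 : (4:ℝ) ≤ Real.exp 3 := by
          have := Real.add_one_le_exp (3:ℝ)
          linarith
        push_cast
        nlinarith
      linarith
    have h6 : Real.exp (-(n:ℝ) ^ 2 + -1) = Real.exp (-(n:ℝ) ^ 2) * Real.exp (-1) := Real.exp_add _ _
    rw [h6] at h2
    exact h2.trans (mul_le_mul_of_nonneg_left h1 (Real.exp_pos _).le)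
  refine hfin.trans (hprob.trans (measureReal_mono ?_))
  -- on the event the sum is large
  rintro θ ⟨h1, h2⟩
  simp only [Set.mem_ofPred_eq] at h1 h2 ⊢
  rw [S.RY_pt]
  have h3 : ∑ p : Nat.primesBelow Y, S.rp 0 Y p (θ p) = ∑ p ∈ J, S.rp 0 Y p (θ p) + ∑ p ∈ Jᶜ, S.rp 0 Y p (θ p) :=
    (Finset.sum_add_sum_compl _ _).symm
  have h4 : ‖∑ p ∈ J, S.rp 0 Y p (θ p) - ((∑ p ∈ J, ‖S.cc 0 (p:ℕ)‖ : ℝ) : ℂ)‖ ≤ 2 * Real.pi * M + 2 * D := by
    rw [Complex.ofReal_sum, ← Finset.sum_sub_distrib]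
    have h5 : ∀ p ∈ J, ‖S.rp 0 Y p (θ p) - ((‖S.cc 0 (p:ℕ)‖ : ℝ) : ℂ)‖ ≤
        M * (1 / ((p:ℕ) : ℝ)) * (2 * Real.pi * (1 / (n:ℝ))) + D * (1 / ((p:ℕ) : ℝ) ^ 2) := by
      intro p hp
      have h6 := hnear p (θ p)
      have h7 := h1 p hp
      simp only [hB, Set.mem_ofPred_eq] at h7
      have h8 : ‖S.cc 0 (p:ℕ) * Complex.exp (2 * Real.pi * Complex.I * (θ p)) - ((‖S.cc 0 (p:ℕ)‖ : ℝ) : ℂ)‖ ≤
          M * (1 / ((p:ℕ) : ℝ)) * (2 * Real.pi * (1 / (n:ℝ))) := by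
        rw [← hw2 p, ← mul_sub, norm_mul]
        exact mul_le_mul (hccn p) h7 (norm_nonneg _) (by positivity)
      have h9 : S.rp 0 Y p (θ p) - ((‖S.cc 0 (p:ℕ)‖ : ℝ) : ℂ) =
          (S.cc 0 (p:ℕ) * Complex.exp (2 * Real.pi * Complex.I * (θ p)) - ((‖S.cc 0 (p:ℕ)‖ : ℝ) : ℂ)) +
          (S.rp 0 Y p (θ p) - S.cc 0 (p:ℕ) * Complex.exp (2 * Real.pi * Complex.I * (θ p))) := by ring
      rw [h9]
      exact (norm_add_le _ _).trans (add_le_add h8 h6)
    refine (norm_sum_le_of_le _ h5).trans ?_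
    rw [Finset.sum_add_distrib, ← Finset.mul_sum]
    have h6 : ∑ p ∈ J, M * (1 / ((p:ℕ) : ℝ)) * (2 * Real.pi * (1 / (n:ℝ))) ≤ 2 * Real.pi * M := by
      have h7 : ∀ p ∈ J, M * (1 / ((p:ℕ) : ℝ)) * (2 * Real.pi * (1 / (n:ℝ))) ≤ M * (2 * Real.pi * (1 / (n:ℝ))) := by
        intro p _
        have hp : (1:ℝ) ≤ (p:ℕ) := by exact_mod_cast (Nat.mem_primesBelow.1 p.2).2.one_lt.le
        have h8 : 1 / ((p:ℕ) : ℝ) ≤ 1 := by rw [div_le_one (by linarith)]; exact hp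
        have h9 : M * (1 / ((p:ℕ) : ℝ)) ≤ M := mul_le_of_le_one_right hM h8
        exact mul_le_mul_of_nonneg_right h9 (by positivity)
      refine (Finset.sum_le_sum h7).trans ?_
      rw [Finset.sum_const, nsmul_eq_mul]
      have hcard : (J.card : ℝ) ≤ n := by
        have h1 : J.card = (J.image (fun p : Nat.primesBelow Y => (p:ℕ))).card := by
          rw [Finset.card_image_of_injective _ Subtype.val_injective]
        have h2 : J.image (fun p : Nat.primesBelow Y => (p:ℕ)) ⊆ Finset.Icc 1 n := by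
          intro p hp
          rw [mem_image] at hp
          obtain ⟨q, hq, rfl⟩ := hp
          rw [mem_Icc]
          exact ⟨(Nat.mem_primesBelow.1 q.2).2.one_lt.le, (hJm q).1 hq⟩
        have h3 := Finset.card_le_card h2
        rw [Nat.card_Icc, ← h1] at h3
        have h4 : J.card ≤ n := by omega
        exact_mod_cast h4
      calc (J.card : ℝ) * (M * (2 * Real.pi * (1 / (n:ℝ)))) ≤ n * (M * (2 * Real.pi * (1 / (n:ℝ)))) :=
            mul_le_mul_of_nonneg_right hcard (by positivity)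
        _ = 2 * Real.pi * M := by field_simp
    have h7 : D * ∑ p ∈ J, 1 / ((p:ℕ) : ℝ) ^ 2 ≤ 2 * D := by
      rw [hinj J (fun p => 1 / (p:ℝ) ^ 2)]
      have h3 := sum_sq_tail (P0 := 1) le_rfl (J.image (fun p : Nat.primesBelow Y => (p:ℕ))) (by
        intro p hp
        rw [mem_image] at hp
        obtain ⟨q, hq, rfl⟩ := hp
        exact (Nat.mem_primesBelow.1 q.2).2.one_lt.le)
      rw [Nat.cast_one, div_one] at h3
      have := mul_le_mul_of_nonneg_left h3 hD0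
      linarith
    linarith
  have h5 : ∑ p ∈ J, ‖S.cc 0 (p:ℕ)‖ = S.bs n := S.bs_eq (by omega) J hJm
  have h6 := hbs n hn3
  have h7 : κ * y ≤ κ * Real.log (Real.log n) := mul_le_mul_of_nonneg_left hll hκ.le
  have h8 : κ * y = V + C₁ := by
    rw [hy]
    field_simp
  have h9 : ‖((∑ p ∈ J, ‖S.cc 0 (p:ℕ)‖ : ℝ) : ℂ)‖ = S.bs n := by
    rw [h5, Complex.norm_real, Real.norm_of_nonneg]
    unfold Sys.bs
    exact Finset.sum_nonneg fun _ _ => norm_nonneg _
  have h10 := le_abs_self C0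
  set P := ∑ p ∈ J, S.rp 0 Y p (θ p)
  set Q := ∑ p ∈ Jᶜ, S.rp 0 Y p (θ p)
  set R : ℂ := ((∑ p ∈ J, ‖S.cc 0 (p:ℕ)‖ : ℝ) : ℂ)
  have h11 : ‖R‖ ≤ ‖P + Q‖ + ‖P - R‖ + ‖Q‖ := by
    have e : R = (P + Q) + (-(P - R)) + (-Q) := by ring
    calc ‖R‖ = ‖(P + Q) + (-(P - R)) + (-Q)‖ := by rw [← e]
      _ ≤ ‖P + Q‖ + ‖-(P - R)‖ + ‖-Q‖ := norm_add₃_le
      _ = _ := by rw [norm_neg, norm_neg]
  rw [h3]
  linarith

end Run7.h113.GE
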