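import Mathlib
import Pool.Agent.Run7.h113.GE.Two

/-!
Two-sided bounds for the frequency of the large boundary values.
-/

set_option autoImplicit false

open MeasureTheory Filter Topology Finset NumberField IsDedekindDomain
open scoped ENNReal
open Run7.h113.LE

namespace Run7.h113.GE

/-- a continuous cut-off -/
noncomputable def cut (V : ℝ) (z : ℂ) : ℝ := max 0 (min 1 (‖z‖ - V))

lemma cut_cont (V : ℝ) : Continuous (cut V) :=
  continuous_const.max (continuous_const.min (continuous_norm.sub continuous_const))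

lemma cut_nonneg (V : ℝ) (z : ℂ) : 0 ≤ cut V z := le_max_left _ _

lemma cut_le (V : ℝ) (z : ℂ) : cut V z ≤ 1 := max_le zero_le_one (min_le_left _ _)

lemma cut_one {V : ℝ} {z : ℂ} (h : V + 1 ≤ ‖z‖) : cut V z = 1 := by
  unfold cut
  rw [min_eq_left (by linarith), max_eq_right zero_le_one]

lemma cut_zero {V : ℝ} {z : ℂ} (h : ‖z‖ ≤ V) : cut V z = 0 := by
  unfold cut
  rw [max_eq_left]
  exact (min_le_right _ _).trans (by linarith)

lemma cut_cls (M V : ℝ) : Cls (kp M) (cut V) := ⟨cut_cont V, 1, fun z => by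
    have hκ := kp_pos M
    rw [abs_of_nonneg (cut_nonneg V z), one_mul]
    exact (cut_le V z).trans (Real.one_le_exp (by positivity))⟩

section
variable {K : Type} [Field K] [NumberField K] {m A : ℝ} {S : Sys K m A}

lemma ind_upper {g : ℝ → ℂ} (hg : AEStronglyMeasurable g volume) (V : ℝ) {T H : ℝ} (hH : 0 < H) {B : ℝ}
    (h : ∫ t in T..(T + H), cut (V - 1) (g t) ≤ B) :
    volume {t : ℝ | t ∈ Set.Icc T (T + H) ∧ V ≤ ‖g t‖} ≤ ENNReal.ofReal B := by
  have hgm : AEStronglyMeasurable g (volume.restrict (Set.Icc T (T + H))) := hg.restrict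
  have hfg : AEStronglyMeasurable (fun t => cut (V - 1) (g t)) (volume.restrict (Set.Icc T (T + H))) :=
    (cut_cont _).comp_aestronglyMeasurable hgm
  have hfi : Integrable (fun t => cut (V - 1) (g t)) (volume.restrict (Set.Icc T (T + H))) := by
    refine Integrable.of_bound hfg 1 (Eventually.of_forall fun t => ?_)
    rw [Real.norm_eq_abs, abs_of_nonneg (cut_nonneg _ _)]
    exact cut_le _ _
  have hnull : NullMeasurableSet {t : ℝ | V ≤ ‖g t‖} (volume.restrict (Set.Icc T (T + H))) :=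
    nullMeasurableSet_le aemeasurable_const hgm.norm.aemeasurable
  have h5 : volume {t : ℝ | t ∈ Set.Icc T (T + H) ∧ V ≤ ‖g t‖} = (volume.restrict (Set.Icc T (T + H))) {t : ℝ | V ≤ ‖g t‖} := by
    rw [Measure.restrict_apply₀ hnull]
    congr 1
    ext t
    simp only [Set.mem_ofPred_eq, Set.mem_inter_iff]
    exact and_comm
  rw [h5]
  have h6 : (volume.restrict (Set.Icc T (T + H))) {t : ℝ | V ≤ ‖g t‖} ≤
      ∫⁻ t, ENNReal.ofReal (cut (V - 1) (g t)) ∂(volume.restrict (Set.Icc T (T + H))) := by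
    rw [← lintegral_indicator_one₀ hnull]
    refine lintegral_mono fun t => ?_
    simp only [Set.indicator_apply, Set.mem_ofPred_eq, Pi.one_apply]
    split_ifs with h7
    · rw [cut_one (by linarith), ENNReal.ofReal_one]
    · exact zero_le
  refine h6.trans ?_
  rw [← ofReal_integral_eq_lintegral_ofReal hfi (Eventually.of_forall fun t => cut_nonneg _ _)]
  apply ENNReal.ofReal_le_ofReal
  rw [integral_Icc_eq_integral_Ioc, ← intervalIntegral.integral_of_le (by linarith)]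
  exact h

lemma ind_lower {g : ℝ → ℂ} (hg : AEStronglyMeasurable g volume) (V : ℝ) {T H : ℝ} (hH : 0 < H) {B : ℝ}
    (h : B ≤ ∫ t in T..(T + H), cut V (g t)) :
    ENNReal.ofReal B ≤ volume {t : ℝ | t ∈ Set.Icc T (T + H) ∧ V ≤ ‖g t‖} := by
  have hgm : AEStronglyMeasurable g (volume.restrict (Set.Icc T (T + H))) := hg.restrict
  have hfg : AEStronglyMeasurable (fun t => cut V (g t)) (volume.restrict (Set.Icc T (T + H))) :=
    (cut_cont _).comp_aestronglyMeasurable hgm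
  have hfi : Integrable (fun t => cut V (g t)) (volume.restrict (Set.Icc T (T + H))) := by
    refine Integrable.of_bound hfg 1 (Eventually.of_forall fun t => ?_)
    rw [Real.norm_eq_abs, abs_of_nonneg (cut_nonneg _ _)]
    exact cut_le _ _
  have hnull : NullMeasurableSet {t : ℝ | V ≤ ‖g t‖} (volume.restrict (Set.Icc T (T + H))) :=
    nullMeasurableSet_le aemeasurable_const hgm.norm.aemeasurable
  have h5 : volume {t : ℝ | t ∈ Set.Icc T (T + H) ∧ V ≤ ‖g t‖} = (volume.restrict (Set.Icc T (T + H))) {t : ℝ | V ≤ ‖g t‖} := by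
    rw [Measure.restrict_apply₀ hnull]
    congr 1
    ext t
    simp only [Set.mem_ofPred_eq, Set.mem_inter_iff]
    exact and_comm
  rw [h5]
  have h6 : ∫⁻ t, ENNReal.ofReal (cut V (g t)) ∂(volume.restrict (Set.Icc T (T + H))) ≤
      (volume.restrict (Set.Icc T (T + H))) {t : ℝ | V ≤ ‖g t‖} := by
    rw [← lintegral_indicator_one₀ hnull]
    refine lintegral_mono fun t => ?_
    simp only [Set.indicator_apply, Set.mem_ofPred_eq, Pi.one_apply]
    split_ifs with h7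
    · rw [← ENNReal.ofReal_one]
      exact ENNReal.ofReal_le_ofReal (cut_le _ _)
    · rw [cut_zero (by push Not at h7; exact h7.le), ENNReal.ofReal_zero]
  refine le_trans ?_ h6
  rw [← ofReal_integral_eq_lintegral_ofReal hfi (Eventually.of_forall fun t => cut_nonneg _ _)]
  apply ENNReal.ofReal_le_ofReal
  rw [integral_Icc_eq_integral_Ioc, ← intervalIntegral.integral_of_le (by linarith)]
  exact h

variable (S)

lemma Sys.RYpt_cont {σ : ℝ} (hσ : 0 ≤ σ) (Y : ℕ) : Continuous fun θ : Nat.primesBelow Y → ℝ => S.RY σ Y (pt θ) :=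
  (S.RY_cont hσ Y).comp pt_cont

lemma Sys.cube_upper {σ : ℝ} (hσ : 0 ≤ σ) (Y : ℕ) (V : ℝ) :
    ∫ θ, cut V (S.RY σ Y (pt θ)) ∂(cube (Nat.primesBelow Y)) ≤
      (cube (Nat.primesBelow Y)).real {θ | V ≤ ‖S.RY σ Y (pt θ)‖} := by
  have hmeas : MeasurableSet {θ : Nat.primesBelow Y → ℝ | V ≤ ‖S.RY σ Y (pt θ)‖} :=
    (isClosed_le continuous_const (S.RYpt_cont hσ Y).norm).measurableSet
  rw [← integral_indicator_one hmeas]
  refine integral_mono_of_nonneg (Eventually.of_forall fun θ => cut_nonneg _ _) ?_ (Eventually.of_forall fun θ => ?_)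
  · exact (integrable_const (1:ℝ)).indicator hmeas
  · simp only [Set.indicator_apply, Set.mem_ofPred_eq, Pi.one_apply]
    split_ifs with h4
    · exact cut_le _ _
    · push Not at h4
      rw [cut_zero h4.le]

lemma Sys.cube_lower {σ : ℝ} (hσ : 0 ≤ σ) (Y : ℕ) (V : ℝ) :
    (cube (Nat.primesBelow Y)).real {θ | V + 1 ≤ ‖S.RY σ Y (pt θ)‖} ≤
      ∫ θ, cut V (S.RY σ Y (pt θ)) ∂(cube (Nat.primesBelow Y)) := by
  have hmeas : MeasurableSet {θ : Nat.primesBelow Y → ℝ | V + 1 ≤ ‖S.RY σ Y (pt θ)‖} :=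
    (isClosed_le continuous_const (S.RYpt_cont hσ Y).norm).measurableSet
  rw [← integral_indicator_one hmeas]
  refine integral_mono ((integrable_const (1:ℝ)).indicator hmeas) ?_ fun θ => ?_
  · refine Integrable.of_bound (C := 1) ((cut_cont V).comp (S.RYpt_cont hσ Y)).aestronglyMeasurable
      (Eventually.of_forall fun θ => ?_)
    rw [Real.norm_eq_abs, abs_of_nonneg (cut_nonneg _ _)]
    exact cut_le _ _
  · simp only [Set.indicator_apply, Set.mem_ofPred_eq, Pi.one_apply]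
    split_ifs with h4
    · rw [cut_one h4]
    · exact cut_nonneg _ _

end

lemma half_exp {y : ℝ} (hy : 0 ≤ y) :
    2 * Real.exp (-Real.exp (Real.exp (y + 1))) ≤ Real.exp (-Real.exp (Real.exp y)) := by
  set X := Real.exp (Real.exp y) with hX
  have he1 := Real.exp_one_gt_d9
  have hX2 : 2 ≤ X := by
    have h5 : Real.exp 1 ≤ X := Real.exp_le_exp.2 (Real.one_le_exp hy)
    linarith
  have h5 : X + 1 ≤ Real.exp (Real.exp (y + 1)) := by
    have h6 : Real.exp y + 1 ≤ Real.exp (y + 1) := by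
      rw [Real.exp_add]
      have := Real.one_le_exp hy
      nlinarith
    have h7 : Real.exp (Real.exp y + 1) ≤ Real.exp (Real.exp (y + 1)) := Real.exp_le_exp.2 h6
    rw [Real.exp_add] at h7
    nlinarith
  have h6 : Real.exp (-Real.exp (Real.exp (y + 1))) ≤ Real.exp (-(X + 1)) := Real.exp_le_exp.2 (by linarith)
  have h7 : Real.exp (-(X + 1)) = Real.exp (-X) * Real.exp (-1) := by
    rw [← Real.exp_add]
    congr 1
    ring
  have h8 : Real.exp (-1) ≤ 1 / 2 := by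
    rw [Real.exp_neg, one_div]
    exact inv_anti₀ (by norm_num) (by linarith)
  have h9 := Real.exp_pos (-X)
  nlinarith

/-- **upper bound** -/
theorem up_main (d : ℕ) {A M : ℝ} (hA : 0 ≤ A) (hM : 0 ≤ M) {κ : ℝ} (hκ : 0 < κ) (C0 : ℝ) : ∃ C : ℝ, 0 ≤ C ∧
    ∀ V : ℝ, C ≤ V → ∃ H₀ : ℝ, 0 < H₀ ∧
    ∀ (K : Type) [Field K] [NumberField K] (m : ℝ) (S : Sys K m A), Module.finrank ℚ K ≤ d → m * Module.finrank ℚ K ≤ M →
    (∀ n : ℕ, 3 ≤ n → S.bs n ≤ κ * Real.log (Real.log n) + C0) →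
    ∀ (σ : ℝ), 0 ≤ σ → ∀ g : ℝ → ℂ, S.IsLim σ g → ∀ H : ℝ, H₀ ≤ H → ∀ T : ℝ,
      volume {t : ℝ | t ∈ Set.Icc T (T + H) ∧ V ≤ ‖g t‖} ≤
        ENNReal.ofReal (H * Real.exp (-Real.exp (Real.exp ((V - C) / κ)))) := by
  obtain ⟨C, hC0, hC⟩ := tail_RY2 d hA hM hκ C0
  refine ⟨C + 1 + κ, by positivity, ?_⟩
  intro V hV
  set y' : ℝ := (V - (C + 1 + κ)) / κ with hy'
  have hy0 : 0 ≤ y' := div_nonneg (by linarith) hκ.le
  have hy : (V - 1 - C) / κ = y' + 1 := by
    rw [hy']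
    field_simp
    ring
  set ε : ℝ := Real.exp (-Real.exp (Real.exp (y' + 1))) with hε
  obtain ⟨H₀, Y₀, hH₀, hmain⟩ := main_law d A M hA hM (cut_cls M (V - 1)) (ε := ε) (Real.exp_pos _)
  refine ⟨H₀, hH₀, ?_⟩
  intro K _ _ m S hd hmM hbs σ hσ g hg H hH T
  have h1 := hmain K m S hd hmM σ hσ g hg H hH T Y₀ le_rfl
  have hHp : 0 < H := hH₀.trans_le hH
  have h2 : ∫ θ, cut (V - 1) (S.RY σ Y₀ (pt θ)) ∂(cube (Nat.primesBelow Y₀)) ≤ ε := by
    have h3 := hC K m S hd hmM hbs σ hσ Y₀ (V - 1) (by linarith)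
    rw [hy] at h3
    exact (S.cube_upper hσ Y₀ (V - 1)).trans h3
  refine ind_upper (hg.aesm hσ) V hHp ?_
  have h4 := (abs_le.1 h1).2
  have h5 : (1 / H) * (∫ t in T..(T + H), cut (V - 1) (g t)) ≤ 2 * ε := by linarith
  rw [one_div, inv_mul_le_iff₀ hHp] at h5
  exact h5.trans (mul_le_mul_of_nonneg_left (half_exp hy0) hHp.le)

/-- **lower bound** -/
theorem low_main (d : ℕ) {A M : ℝ} (hA : 0 ≤ A) (hM : 0 ≤ M) {κ : ℝ} (hκ : 0 < κ) (C0 : ℝ) : ∃ C : ℝ, 0 ≤ C ∧
    ∀ V : ℝ, 0 ≤ V → ∃ H₀ : ℝ, 0 < H₀ ∧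
    ∀ (K : Type) [Field K] [NumberField K] (m : ℝ) (S : Sys K m A), Module.finrank ℚ K ≤ d → m * Module.finrank ℚ K ≤ M →
    (∀ n : ℕ, 3 ≤ n → κ * Real.log (Real.log n) - C0 ≤ S.bs n) →
    ∀ g : ℝ → ℂ, S.IsLim 0 g → ∀ H : ℝ, H₀ ≤ H → ∀ T : ℝ,
      ENNReal.ofReal (H * Real.exp (-Real.exp (Real.exp ((V + C) / κ)))) ≤
        volume {t : ℝ | t ∈ Set.Icc T (T + H) ∧ V ≤ ‖g t‖} := by
  obtain ⟨C, hC0, hC⟩ := low_RY d hA hM hκ C0
  refine ⟨C + 1 + κ, by positivity, ?_⟩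
  intro V hV
  set y : ℝ := (V + 1 + C) / κ with hy
  have hy0 : 0 ≤ y := by positivity
  have hy' : (V + (C + 1 + κ)) / κ = y + 1 := by
    rw [hy]
    field_simp
    ring
  set ε : ℝ := Real.exp (-Real.exp (Real.exp (y + 1))) with hε
  obtain ⟨Y₁, hY₁⟩ := hC (V + 1) (by linarith)
  obtain ⟨H₀, Y₀, hH₀, hmain⟩ := main_law d A M hA hM (cut_cls M V) (ε := ε) (Real.exp_pos _)
  refine ⟨H₀, hH₀, ?_⟩
  intro K _ _ m S hd hmM hbs g hg H hH T
  have h1 := hmain K m S hd hmM 0 le_rfl g hg H hH T (max Y₀ Y₁) (le_max_left _ _)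
  have hHp : 0 < H := hH₀.trans_le hH
  have h2 : Real.exp (-Real.exp (Real.exp y)) ≤
      ∫ θ, cut V (S.RY 0 (max Y₀ Y₁) (pt θ)) ∂(cube (Nat.primesBelow (max Y₀ Y₁))) := by
    have h3 := hY₁ K m S hd hmM hbs (max Y₀ Y₁) (le_max_right _ _)
    rw [← hy] at h3
    exact h3.trans (S.cube_lower le_rfl _ V)
  refine ind_lower (hg.aesm le_rfl) V hHp ?_
  have h4 := (abs_le.1 h1).1
  have h6 := half_exp hy0
  have h5 : ε ≤ (1 / H) * (∫ t in T..(T + H), cut V (g t)) := by linarith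
  rw [one_div, le_inv_mul_iff₀ hHp] at h5
  rw [hy']
  exact h5

end Run7.h113.GE
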