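import Mathlib
import Pool.Agent.Run7.h113.GE.Win

/-!
Systems of Euler factors of the form `∏ (1 - a_j z)⁻¹`.
-/

set_option autoImplicit false

open MeasureTheory Filter Topology Finset NumberField IsDedekindDomain
open Pool.Agent.H921R2.TatePole (nm two_le_nm below deg nm_eq below_le_nm card_above)
open Pool.Agent.R433.MD (norm_nm_cpow nm_pos)
open Run7.h113.LE

namespace Run7.h113.GE

lemma one_sub_slit {w : ℂ} (hw : ‖w‖ ≤ 1 / 2) : 1 - w ∈ Complex.slitPlane := by
  refine Or.inl ?_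
  have := Complex.abs_re_le_norm w
  rw [Complex.sub_re, Complex.one_re]
  have h2 := (abs_le.1 this).2
  linarith

lemma log_near {w : ℂ} (hw : ‖w‖ ≤ 1 / 2) : ‖-Complex.log (1 - w) - w‖ ≤ ‖w‖ ^ 2 := by
  have h1 := Complex.norm_log_one_add_sub_self_le (z := -w) (by rw [norm_neg]; linarith)
  rw [norm_neg, ← sub_eq_add_neg, sub_neg_eq_add] at h1
  have e : -Complex.log (1 - w) - w = -(Complex.log (1 - w) + w) := by ring
  rw [e, norm_neg]
  refine h1.trans ?_
  have h2 : (1 - ‖w‖)⁻¹ ≤ 2 := by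
    rw [inv_le_comm₀ (by linarith) (by norm_num)]
    linarith
  have h3 : 0 ≤ ‖w‖ ^ 2 := by positivity
  nlinarith

lemma log_lip2 {w w' : ℂ} (hw : ‖w‖ ≤ 1 / 2) (hw' : ‖w'‖ ≤ 1 / 2) :
    ‖Complex.log (1 - w) - Complex.log (1 - w')‖ ≤ 2 * ‖w - w'‖ := by
  have hball : ∀ z ∈ Metric.closedBall (1:ℂ) (1 / 2), z ∈ Complex.slitPlane ∧ ‖z⁻¹‖ ≤ 2 := by
    intro z hz
    rw [mem_closedBall_iff_norm] at hz
    have h1 : 1 / 2 ≤ z.re := by
      have := Complex.abs_re_le_norm (z - 1)
      rw [Complex.sub_re, Complex.one_re, abs_le] at this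
      linarith [this.1]
    refine ⟨Or.inl (by linarith), ?_⟩
    rw [norm_inv]
    have h2 : 1 / 2 ≤ ‖z‖ := h1.trans (Complex.re_le_norm z)
    rw [inv_le_comm₀ (by linarith) (by norm_num)]
    linarith
  have h := Convex.norm_image_sub_le_of_norm_deriv_le (𝕜 := ℂ) (f := Complex.log)
    (s := Metric.closedBall (1:ℂ) (1 / 2)) (x := 1 - w') (y := 1 - w) (C := 2)
    (fun w hw => (Complex.differentiableAt_log (hball w hw).1))
    (fun w hw => by
      rw [(Complex.hasDerivAt_log (hball w hw).1).deriv]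
      exact (hball w hw).2)
    (convex_closedBall _ _) (by rw [mem_closedBall_iff_norm]; simpa using hw')
    (by rw [mem_closedBall_iff_norm]; simpa using hw)
  refine h.trans (le_of_eq ?_)
  congr 1
  rw [← norm_neg]
  congr 1
  ring

section
variable {K : Type} [Field K] [NumberField K] {N : ℕ} {A : ℝ}

lemma az_le {a : HeightOneSpectrum (𝓞 K) → Fin N → ℂ} (ha : ∀ v j, ‖a v j‖ ≤ 1 / (nm v : ℝ)) (v : HeightOneSpectrum (𝓞 K))
    (j : Fin N) {z : ℂ} (hz : ‖z‖ ≤ 1) : ‖a v j * z‖ ≤ 1 / (nm v : ℝ) ∧ ‖a v j * z‖ ≤ 1 / 2 := by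
  have h1 : ‖a v j * z‖ ≤ 1 / (nm v : ℝ) := by
    rw [norm_mul]
    exact (mul_le_of_le_one_right (norm_nonneg _) hz).trans (ha v j)
  exact ⟨h1, h1.trans (nm_inv_le v)⟩

/-- the system with the local factors `∏ (1 - a_j z)⁻¹` -/
noncomputable def gSys (a : HeightOneSpectrum (𝓞 K) → Fin N → ℂ) (ha : ∀ v j, ‖a v j‖ ≤ 1 / (nm v : ℝ))
    (hA : (N:ℝ) ≤ A) : Sys K N A where
  G v z := ∑ j, -Complex.log (1 - a v j * z)
  c v := ∑ j, a v j
  m_nonneg := Nat.cast_nonneg N
  A_nonneg := (Nat.cast_nonneg N).trans hA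
  cont v := by
    intro z hz
    rw [mem_closedBall_zero_iff] at hz
    apply ContinuousAt.continuousWithinAt
    refine tendsto_finsetSum _ fun j _ => ?_
    exact ((continuousAt_const.sub (continuousAt_const.mul continuousAt_id)).clog (one_sub_slit (az_le ha v j hz).2)).neg
  diff v := by
    intro z hz
    rw [mem_ball_zero_iff] at hz
    apply DifferentiableAt.differentiableWithinAt
    refine DifferentiableAt.fun_sum fun j _ => ?_
    refine DifferentiableAt.fun_neg ?_
    refine DifferentiableAt.clog ?_ (one_sub_slit (az_le ha v j hz.le).2)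
    fun_prop
  zero v := by simp
  c_norm v := by
    refine (norm_sum_le_of_le _ fun j _ => ha v j).trans (le_of_eq ?_)
    rw [Finset.sum_const, Finset.card_univ, Fintype.card_fin, nsmul_eq_mul]
    ring
  near v z hz := by
    rw [Finset.sum_mul, ← Finset.sum_sub_distrib]
    have hb : (0:ℝ) < ((below v : ℕ) : ℝ) := by exact_mod_cast (below v).prop.pos
    have hbn : ((below v : ℕ) : ℝ) ≤ nm v := by exact_mod_cast below_le_nm v
    have h1 : ∀ j ∈ (univ : Finset (Fin N)), ‖-Complex.log (1 - a v j * z) - a v j * z‖ ≤ 1 / ((below v : ℕ) : ℝ) ^ 2 := by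
      intro j _
      obtain ⟨h2, h3⟩ := az_le ha v j hz
      refine (log_near h3).trans ?_
      have h4 : ‖a v j * z‖ ≤ 1 / ((below v : ℕ) : ℝ) := h2.trans (one_div_le_one_div_of_le hb hbn)
      calc ‖a v j * z‖ ^ 2 ≤ (1 / ((below v : ℕ) : ℝ)) ^ 2 := pow_le_pow_left₀ (norm_nonneg _) h4 2
        _ = _ := by rw [one_div_pow]
    refine (norm_sum_le_of_le _ h1).trans ?_
    rw [Finset.sum_const, Finset.card_univ, Fintype.card_fin, nsmul_eq_mul, below_inv]
    exact mul_le_mul_of_nonneg_right hA (by positivity)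
  lip v z w hz hw := by
    rw [← Finset.sum_sub_distrib]
    have h1 : ∀ j ∈ (univ : Finset (Fin N)), ‖-Complex.log (1 - a v j * z) - -Complex.log (1 - a v j * w)‖ ≤ ‖z - w‖ := by
      intro j _
      have h2 := log_lip2 (az_le ha v j hz).2 (az_le ha v j hw).2
      rw [neg_sub_neg, norm_sub_rev]
      refine h2.trans ?_
      rw [← mul_sub, norm_mul]
      have h3 := (ha v j).trans (nm_inv_le v)
      have h4 := norm_nonneg (z - w)
      nlinarith [norm_nonneg (a v j)]
    refine (norm_sum_le_of_le _ h1).trans ?_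
    rw [Finset.sum_const, Finset.card_univ, Fintype.card_fin, nsmul_eq_mul]
    exact mul_le_mul_of_nonneg_right hA (norm_nonneg _)

end

end Run7.h113.GE
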