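import Mathlib
import Pool.Agent.Run7.h113.GE.Var
import Pool.Agent.TH958.BV.Defs

/-!
The `L`-functions of projective varieties over number fields: definitions and the associated systems.
-/

set_option autoImplicit false

open MeasureTheory Filter Topology NumberField IsDedekindDomain
open Pool.Agent.TH958.BV (IsFrobenius edgePoint angle)

namespace Run7.h113.GE

section defs
variable {K : Type} [Field K] [NumberField K] {N : ℕ}

/-- The sum of the logarithms of the Euler factors of `L_S(s)` at `s` over the primes `v ∉ S` of norm less than `x`: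
`∑ - log (1 - α_{v,j} q_v^{-s})`, where `q_v` is the norm of `v`. -/
noncomputable def partialLog (S : Set (HeightOneSpectrum (𝓞 K))) (α : HeightOneSpectrum (𝓞 K) → Fin N → ℂ) (s : ℂ)
    (x : ℕ) : ℂ :=
  ∑ᶠ v ∈ {v : HeightOneSpectrum (𝓞 K) | v ∉ S ∧ Ideal.absNorm v.asIdeal < x},
    ∑ j, -Complex.log (1 - α v j * (Ideal.absNorm v.asIdeal : ℂ) ^ (-s))

/-- The value of `log L_S(s)` at `s`: the limit of the sums `partialLog S α s x` as `x → ∞`. -/
noncomputable def logValue (S : Set (HeightOneSpectrum (𝓞 K))) (α : HeightOneSpectrum (𝓞 K) → Fin N → ℂ) (s : ℂ) : ℂ :=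
  limUnder atTop (partialLog S α s)

/-- The Euler product `L_S(s) = ∏_{v ∉ S} ∏_j (1 - α_{v,j} q_v^{-s})⁻¹`. -/
noncomputable def LSeries (S : Set (HeightOneSpectrum (𝓞 K))) (α : HeightOneSpectrum (𝓞 K) → Fin N → ℂ) (s : ℂ) : ℂ :=
  ∏' v : {v : HeightOneSpectrum (𝓞 K) // v ∉ S},
    ∏ j, (1 - α v.1 j * (Ideal.absNorm v.1.asIdeal : ℂ) ^ (-s))⁻¹

/-- The sum over the prime numbers `p ≤ n` of `p^{-i/2-1} |∑ α_{v,j}|`, where the inner sum is over `j` and the primes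
`v ∉ S` of `K` of norm `p`. -/
noncomputable def traceSum (S : Set (HeightOneSpectrum (𝓞 K))) (i : ℕ) (α : HeightOneSpectrum (𝓞 K) → Fin N → ℂ)
    (n : ℕ) : ℝ :=
  ∑ p ∈ (Finset.Icc 1 n).filter Nat.Prime,
    (p : ℝ) ^ (-((i : ℝ) / 2 + 1)) *
      ‖∑ᶠ v ∈ {v : HeightOneSpectrum (𝓞 K) | v ∉ S ∧ Ideal.absNorm v.asIdeal = p}, ∑ j, α v j‖

end defs

open Pool.Agent.H921R2.TatePole (nm two_le_nm below deg nm_eq below_le_nm card_above)
open Pool.Agent.R433.MD (norm_nm_cpow nm_pos)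
open Pool.Agent.W350.EdgeV (FV mem_FV tendsto_FV)
open Pool.Agent.W350.EdgeNF (hfin)
open Run7.h113.LE

section
variable {K : Type} [Field K] [NumberField K] {N : ℕ}

lemma norm_frob {n : ℕ} {X : Set (MvPolynomial (Fin n) (𝓞 K))} {d i : ℕ}
    {v : HeightOneSpectrum (𝓞 K)} {α : Fin N → ℂ} (h : IsFrobenius X d i v α) (j : Fin N) :
    ‖α j‖ = (nm v : ℝ) ^ ((i : ℝ) / 2) := by
  obtain ⟨β, h1, h2, h3⟩ := h
  refine h2 i (α j) ?_
  rw [h1]
  exact Multiset.mem_map_of_mem _ (Finset.mem_univ_val j)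

open Classical in
/-- the normalised eigenvalues -/
noncomputable def nrm (S : Set (HeightOneSpectrum (𝓞 K))) (i : ℕ) (α : HeightOneSpectrum (𝓞 K) → Fin N → ℂ)
    (v : HeightOneSpectrum (𝓞 K)) (j : Fin N) : ℂ :=
  if v ∈ S then 0 else α v j * (((nm v : ℝ) ^ (-((i : ℝ) / 2 + 1)) : ℝ) : ℂ)

lemma nrm_le {S : Set (HeightOneSpectrum (𝓞 K))} {i : ℕ} {α : HeightOneSpectrum (𝓞 K) → Fin N → ℂ}
    (hα : ∀ v, v ∉ S → ∀ j, ‖α v j‖ = (nm v : ℝ) ^ ((i : ℝ) / 2)) (v : HeightOneSpectrum (𝓞 K)) (j : Fin N) :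
    ‖nrm S i α v j‖ ≤ 1 / (nm v : ℝ) := by
  have hq : (0 : ℝ) < nm v := by exact_mod_cast nm_pos v
  unfold nrm
  split_ifs with h
  · rw [norm_zero]
    positivity
  · rw [norm_mul, hα v h j, Complex.norm_real, Real.norm_of_nonneg (by positivity), ← Real.rpow_add hq]
    rw [show (i:ℝ) / 2 + -((i:ℝ) / 2 + 1) = -1 by ring, Real.rpow_neg_one, one_div]

/-- the system of a variety -/
noncomputable def vSys {S : Set (HeightOneSpectrum (𝓞 K))} {i : ℕ} {α : HeightOneSpectrum (𝓞 K) → Fin N → ℂ}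
    (hα : ∀ v, v ∉ S → ∀ j, ‖α v j‖ = (nm v : ℝ) ^ ((i : ℝ) / 2)) {A : ℝ} (hA : (N:ℝ) ≤ A) : Sys K N A :=
  gSys (nrm S i α) (nrm_le hα) hA

/-- the real edge point -/
noncomputable def eg (i : ℕ) : ℂ := (((i : ℝ) / 2 + 1 : ℝ) : ℂ)

variable {S : Set (HeightOneSpectrum (𝓞 K))} {i : ℕ} {α : HeightOneSpectrum (𝓞 K) → Fin N → ℂ}
  (hα : ∀ v, v ∉ S → ∀ j, ‖α v j‖ = (nm v : ℝ) ^ ((i : ℝ) / 2)) {A : ℝ} (hA : (N:ℝ) ≤ A)

lemma cp_edge (v : HeightOneSpectrum (𝓞 K)) (u : ℂ) :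
    ((Ideal.absNorm v.asIdeal : ℕ) : ℂ) ^ (-(eg i + u)) =
      (((nm v : ℝ) ^ (-((i : ℝ) / 2 + 1)) : ℝ) : ℂ) * ((nm v : ℕ) : ℂ) ^ (-u) := by
  have h0 : (0:ℝ) < nm v := by exact_mod_cast nm_pos v
  have hne : ((nm v : ℕ) : ℂ) ≠ 0 := by exact_mod_cast (nm_pos v).ne'
  show ((nm v : ℕ) : ℂ) ^ (-(eg i + u)) = _
  rw [neg_add, Complex.cpow_add _ _ hne]
  congr 1
  rw [Complex.ofReal_cpow h0.le]
  unfold eg
  push_cast
  rfl

lemma ll_notMem {v : HeightOneSpectrum (𝓞 K)} (hv : v ∉ S) (u : ℂ) :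
    (vSys hα hA).ll u v = ∑ j, -Complex.log (1 - α v j * (Ideal.absNorm v.asIdeal : ℂ) ^ (-(eg i + u))) := by
  show ∑ j, -Complex.log (1 - nrm S i α v j * ((nm v : ℕ) : ℂ) ^ (-u)) = _
  refine Finset.sum_congr rfl fun j _ => ?_
  unfold nrm
  rw [if_neg hv, cp_edge, mul_assoc]

lemma ll_mem {v : HeightOneSpectrum (𝓞 K)} (hv : v ∈ S) (u : ℂ) : (vSys hα hA).ll u v = 0 := by
  show ∑ j, -Complex.log (1 - nrm S i α v j * ((nm v : ℕ) : ℂ) ^ (-u)) = _
  refine Finset.sum_eq_zero fun j _ => ?_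
  unfold nrm
  rw [if_pos hv]
  simp

lemma partialLog_eq (u : ℂ) (x : ℕ) : partialLog S α (eg i + u) x = (vSys hα hA).Sx x u := by
  classical
  unfold partialLog Sys.Sx
  have e : {v : HeightOneSpectrum (𝓞 K) | v ∉ S ∧ Ideal.absNorm v.asIdeal < x} =
      (((FV nm hfin x).filter fun v => v ∉ S : Finset (HeightOneSpectrum (𝓞 K))) : Set (HeightOneSpectrum (𝓞 K))) := by
    ext v
    simp only [Set.mem_ofPred_eq, Finset.coe_filter, mem_FV]
    exact and_comm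
  rw [e, finsum_mem_coe_finset, Finset.sum_filter]
  refine Finset.sum_congr rfl fun v _ => ?_
  by_cases hv : v ∈ S
  · rw [if_neg (by simpa using hv)]
    exact (ll_mem hα hA hv u).symm
  · rw [if_pos hv]
    exact (ll_notMem hα hA hv u).symm

lemma lim_eq {u l : ℂ} (h : Tendsto (fun x => (vSys hα hA).Sx x u) atTop (𝓝 l)) :
    Tendsto (partialLog S α (eg i + u)) atTop (𝓝 l) ∧ logValue S α (eg i + u) = l := by
  have h1 : Tendsto (partialLog S α (eg i + u)) atTop (𝓝 l) := h.congr fun x => (partialLog_eq hα hA u x).symm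
  exact ⟨h1, h1.limUnder_eq⟩

lemma edge_eq (σ t : ℝ) : (σ : ℂ) + edgePoint i t = eg i + ((σ:ℂ) + t * Complex.I) := by
  unfold edgePoint eg
  ring

lemma edge_eq0 (t : ℝ) : edgePoint i t = eg i + (((0:ℝ):ℂ) + t * Complex.I) := by
  rw [← edge_eq, Complex.ofReal_zero, zero_add]

/-- the boundary values and the values to the right of the edge -/
lemma isLim_logValue {σ : ℝ} (hσ : 0 ≤ σ) : (vSys hα hA).IsLim σ (fun t => logValue S α (σ + edgePoint i t)) := by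
  unfold Sys.IsLim
  rcases hσ.eq_or_lt with h | h
  · subst h
    filter_upwards [(vSys hα hA).Ex_ae] with t ht
    have h1 := (vSys hα hA).Lam_tendsto ht
    rw [edge_eq, (lim_eq hα hA h1).2]
    exact h1
  · refine Eventually.of_forall fun t => ?_
    have h1 := (vSys hα hA).LL_lim h t
    beta_reduce
    rw [edge_eq, (lim_eq hα hA h1).2]
    exact h1

lemma LL_eq {u : ℂ} (hu : 0 < u.re) : Tendsto (partialLog S α (eg i + u)) atTop (𝓝 ((vSys hα hA).LL u)) ∧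
    logValue S α (eg i + u) = (vSys hα hA).LL u := by
  refine lim_eq hα hA ?_
  have h1 := (vSys hα hA).LL_lim hu u.im
  rw [Complex.re_add_im] at h1
  exact h1

lemma eg_re (u : ℂ) : (eg i + u).re = (i:ℝ) / 2 + 1 + u.re := by
  unfold eg
  rw [Complex.add_re, Complex.ofReal_re]

include hα in
/-- the exponential of the logarithm -/
lemma exp_logValue {u : ℂ} (hu : 0 < u.re) : Complex.exp (logValue S α (eg i + u)) = LSeries S α (eg i + u) := by
  rw [(LL_eq hα (le_refl (N:ℝ)) hu).2]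
  set Y := vSys hα (le_refl (N:ℝ)) with hY
  unfold Sys.LL LSeries
  have h1 : ∑' v, Y.ll u v = ∑' v : {v : HeightOneSpectrum (𝓞 K) // v ∉ S}, Y.ll u v.1 := by
    rw [show (∑' v : {v : HeightOneSpectrum (𝓞 K) // v ∉ S}, Y.ll u v.1) =
      ∑' v : ({v : HeightOneSpectrum (𝓞 K) | v ∉ S} : Set (HeightOneSpectrum (𝓞 K))), Y.ll u v.1 from rfl,
      tsum_subtype ({v : HeightOneSpectrum (𝓞 K) | v ∉ S}) (Y.ll u)]
    refine tsum_congr fun v => ?_
    by_cases hv : v ∈ S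
    · rw [Set.indicator_of_notMem (by simpa using hv), ll_mem hα _ hv]
    · rw [Set.indicator_of_mem (by simpa using hv)]
  rw [h1]
  have hs : Summable fun v : {v : HeightOneSpectrum (𝓞 K) // v ∉ S} => Y.ll u v.1 :=
    (Y.ll_summable hu).subtype _
  rw [← hs.hasSum.cexp.tprod_eq]
  refine tprod_congr fun v => ?_
  simp only [Function.comp_apply]
  rw [ll_notMem hα _ v.2, Complex.exp_sum]
  refine Finset.prod_congr rfl fun j _ => ?_
  have hz : ‖nrm S i α v.1 j * ((nm v.1 : ℕ) : ℂ) ^ (-u)‖ ≤ 1 / 2 := (az_le (nrm_le hα) v.1 j (cp_le v.1 hu.le)).2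
  have e : α v.1 j * (Ideal.absNorm v.1.asIdeal : ℂ) ^ (-(eg i + u)) = nrm S i α v.1 j * ((nm v.1 : ℕ) : ℂ) ^ (-u) := by
    unfold nrm
    rw [if_neg v.2, cp_edge, mul_assoc]
  rw [e, Complex.exp_neg, Complex.exp_log (Complex.slitPlane_ne_zero (one_sub_slit hz))]

end

end Run7.h113.GE
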