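import Mathlib
import Pool.Agent.Run7.h113.GE.VarDef

/-!
The traces, the angles and an example.
-/

set_option autoImplicit false

open MeasureTheory Filter Topology NumberField IsDedekindDomain
open Pool.Agent.TH958.BV (IsFrobenius edgePoint angle cone)
open Pool.Agent.H921R2.TatePole (nm two_le_nm below deg nm_eq below_le_nm card_above)
open Pool.Agent.R433.MD (norm_nm_cpow nm_pos)
open Pool.Agent.W350.EdgeV (FV mem_FV tendsto_FV)
open Pool.Agent.W350.EdgeNF (hfin)
open Run7.h113.LE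

namespace Run7.h113.GE

section
variable {K : Type} [Field K] [NumberField K] {N : ℕ} {S : Set (HeightOneSpectrum (𝓞 K))} {i : ℕ}
  {α : HeightOneSpectrum (𝓞 K) → Fin N → ℂ}
  (hα : ∀ v, v ∉ S → ∀ j, ‖α v j‖ = (nm v : ℝ) ^ ((i : ℝ) / 2)) {A : ℝ} (hA : (N:ℝ) ≤ A)

lemma traceSum_eq (n : ℕ) : traceSum S i α n = (vSys hα hA).bs n := by
  classical
  unfold traceSum Sys.bs
  refine Finset.sum_congr rfl fun p hp => ?_
  rw [Finset.mem_filter] at hp
  have hp0 : (0:ℝ) < p := by exact_mod_cast hp.2.pos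
  have e : {v : HeightOneSpectrum (𝓞 K) | v ∉ S ∧ Ideal.absNorm v.asIdeal = p} =
      ((((FV nm hfin (p + 1)).filter (fun v => nm v = p)).filter fun v => v ∉ S :
        Finset (HeightOneSpectrum (𝓞 K))) : Set (HeightOneSpectrum (𝓞 K))) := by
    ext v
    simp only [Set.mem_ofPred_eq, Finset.coe_filter, mem_FV, Finset.mem_filter]
    constructor
    · rintro ⟨h1, h2⟩
      have h3 : nm v = p := h2
      exact ⟨⟨by omega, h3⟩, h1⟩
    · rintro ⟨⟨h1, h2⟩, h3⟩
      exact ⟨h3, h2⟩
  rw [e, finsum_mem_coe_finset, Finset.sum_filter]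
  have e2 : (vSys hα hA).cc 0 p = (((p : ℝ) ^ (-((i : ℝ) / 2 + 1)) : ℝ) : ℂ) *
      ∑ v ∈ (FV nm hfin (p + 1)).filter (fun v => nm v = p), if v ∉ S then ∑ j, α v j else 0 := by
    unfold Sys.cc
    rw [Finset.mul_sum]
    apply Finset.sum_congr
    · ext v
      simp only [Finset.mem_filter]
    · intro v hv
      rw [Finset.mem_filter] at hv
      have h0 : (vSys hα hA).c v = ∑ j, nrm S i α v j := rfl
      rw [h0, hv.2, neg_zero, Real.rpow_zero, Complex.ofReal_one, mul_one]
      unfold nrm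
      by_cases hvS : v ∈ S
      · simp [hvS]
      · rw [if_pos hvS, Finset.mul_sum]
        refine Finset.sum_congr rfl fun j _ => ?_
        rw [if_neg hvS, hv.2, mul_comm]
  rw [e2, norm_mul, Complex.norm_real, Real.norm_of_nonneg (by positivity)]

include hα in
/-- the boundary values in every angle -/
lemma ae_angle : ∀ᵐ t : ℝ, Tendsto (partialLog S α (edgePoint i t)) atTop (𝓝 (logValue S α (edgePoint i t))) ∧
    ∀ C : ℝ, Tendsto (logValue S α) (𝓝[angle i t C] (edgePoint i t)) (𝓝 (logValue S α (edgePoint i t))) := by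
  set Y := vSys hα (le_refl (N:ℝ)) with hY
  filter_upwards [Y.Ex_ae] with t ht
  obtain ⟨h1, h2⟩ := lim_eq hα (le_refl (N:ℝ)) (Y.Lam_tendsto ht)
  rw [← edge_eq0] at h1 h2
  rw [h2]
  refine ⟨h1, fun C => ?_⟩
  have h1 := Y.LL_angle ht C
  have hmap : Tendsto (fun s : ℂ => s - eg i) (𝓝[angle i t C] (edgePoint i t))
      (𝓝[{u : ℂ | 0 < u.re ∧ ‖u - t * Complex.I‖ ≤ C * u.re}] (t * Complex.I)) := by
    apply tendsto_nhdsWithin_of_tendsto_nhds_of_eventually_within
    · have h2 : Tendsto (fun s : ℂ => s - eg i) (𝓝 (edgePoint i t)) (𝓝 (edgePoint i t - eg i)) :=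
        (continuous_id.sub continuous_const).tendsto _
      have e : edgePoint i t - eg i = t * Complex.I := by
        rw [edge_eq0]
        push_cast
        ring
      rw [e] at h2
      exact h2.mono_left nhdsWithin_le_nhds
    · filter_upwards [self_mem_nhdsWithin] with s hs
      obtain ⟨h2, h3⟩ := hs
      have e1 : (s - eg i).re = s.re - ((i:ℝ) / 2 + 1) := by
        unfold eg
        rw [Complex.sub_re, Complex.ofReal_re]
      have e2 : s - eg i - t * Complex.I = s - edgePoint i t := by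
        rw [edge_eq0]
        push_cast
        ring
      refine ⟨by rw [e1]; linarith, ?_⟩
      rw [e1, e2]
      exact h3
  refine (h1.comp hmap).congr' ?_
  filter_upwards [self_mem_nhdsWithin] with s hs
  have e1 : (s - eg i).re = s.re - ((i:ℝ) / 2 + 1) := by
    unfold eg
    rw [Complex.sub_re, Complex.ofReal_re]
  have h2 := (LL_eq hα (le_refl (N:ℝ)) (u := s - eg i) (by rw [e1]; linarith [hs.1])).2
  rw [add_sub_cancel] at h2
  exact h2.symm

end

/-! ### rational points of the projective line -/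

lemma nat_notMem {K : Type} [Field K] [NumberField K] (v : HeightOneSpectrum (𝓞 K)) {k : ℕ} (hk : 0 < k)
    (hkp : k < (below v : ℕ)) : (k : 𝓞 K) ∉ v.asIdeal := by
  intro h6
  have hp := (below v).prop
  have h1 := (nm_eq v).2.2
  have hc : Nat.Coprime (below v : ℕ) k := by
    rw [Nat.Prime.coprime_iff_not_dvd hp]
    intro hd
    have := Nat.le_of_dvd hk hd
    omega
  have h2 : ((Nat.gcdA (below v : ℕ) k : ℤ) : 𝓞 K) * ((below v : ℕ) : 𝓞 K) +
      ((Nat.gcdB (below v : ℕ) k : ℤ) : 𝓞 K) * k = 1 := by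
    have h3 := Nat.gcd_eq_gcd_ab (below v : ℕ) k
    rw [Nat.coprime_iff_gcd_eq_one.1 hc] at h3
    have h4 : (((below v : ℕ) : ℤ) * Nat.gcdA (below v : ℕ) k + (k:ℕ) * Nat.gcdB (below v : ℕ) k : ℤ) = 1 := by
      rw [← h3]; norm_num
    have h5 := congrArg (fun z : ℤ => (z : 𝓞 K)) h4
    push_cast at h5
    linear_combination h5
  have h3 : (1 : 𝓞 K) ∈ v.asIdeal := by
    rw [← h2]
    exact v.asIdeal.add_mem (v.asIdeal.mul_mem_left _ h1) (v.asIdeal.mul_mem_left _ h6)
  exact v.isPrime.ne_top ((Ideal.eq_top_iff_one _).2 h3)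

/-- the variety of the points `(0 : 1), (1 : 1), …, (N - 1 : 1)` of the projective line -/
noncomputable def ptsVar (N : ℕ) : Set (MvPolynomial (Fin 2) (𝓞 ℚ)) :=
  {∏ a ∈ Finset.range N, (MvPolynomial.X 0 - MvPolynomial.C (a : 𝓞 ℚ) * MvPolynomial.X 1)}

lemma cone_ptsVar (N : ℕ) {v : HeightOneSpectrum (𝓞 ℚ)} (hv : N ≤ (below v : ℕ)) {κ : Type} [Field κ] [Finite κ]
    (φ : 𝓞 ℚ →+* κ) (hker : RingHom.ker φ = v.asIdeal) : cone (ptsVar N) φ = (Nat.card κ - 1) * N := by
  classical
  have hinj : ∀ a b : ℕ, a < b → b < N → (a : κ) ≠ (b : κ) := by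
    intro a b hab hb h
    have h1 : ((b - a : ℕ) : 𝓞 ℚ) ∈ v.asIdeal := by
      rw [← hker, RingHom.mem_ker, map_natCast, Nat.cast_sub hab.le, h, sub_self]
    exact nat_notMem v (by omega) (by omega) h1
  unfold cone
  have hev : ∀ u : Fin 2 → κ, (∀ f ∈ ptsVar N, MvPolynomial.eval₂ φ u f = 0) ↔ ∃ a < N, u 0 = a * u 1 := by
    intro u
    unfold ptsVar
    simp only [Set.mem_singleton_iff, forall_eq, MvPolynomial.eval₂_prod, MvPolynomial.eval₂_sub, MvPolynomial.eval₂_mul,
      MvPolynomial.eval₂_X, map_natCast, MvPolynomial.eval₂_natCast, Finset.prod_eq_zero_iff, Finset.mem_range,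
      sub_eq_zero]
  have hbij : Function.Bijective (fun p : κˣ × Fin N =>
      (⟨![((p.2 : ℕ) : κ) * p.1, p.1], by
        refine ⟨fun h => ?_, (hev _).2 ⟨p.2, p.2.2, by simp⟩⟩
        have := congrFun h 1
        simp at this⟩ : {u : Fin 2 → κ // u ≠ 0 ∧ ∀ f ∈ ptsVar N, MvPolynomial.eval₂ φ u f = 0})) := by
    constructor
    · rintro ⟨y, a⟩ ⟨y', a'⟩ h
      have h1 := congrArg Subtype.val h
      have h2 := congrFun h1 1
      have h3 := congrFun h1 0
      simp only [Matrix.cons_val_zero, Matrix.cons_val_one] at h2 h3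
      have h4 : y = y' := Units.ext h2
      subst h4
      have h5 : ((a : ℕ) : κ) = ((a' : ℕ) : κ) := mul_right_cancel₀ y.ne_zero h3
      have h6 : a = a' := by
        apply Fin.ext
        rcases lt_trichotomy (a : ℕ) (a' : ℕ) with h | h | h
        · exact absurd h5 (hinj _ _ h a'.2)
        · exact h
        · exact absurd h5.symm (hinj _ _ h a.2)
      rw [h6]
    · rintro ⟨u, hu0, hu⟩
      obtain ⟨a, ha, h1⟩ := (hev u).1 hu
      have h2 : u 1 ≠ 0 := by
        intro h3
        apply hu0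
        funext k
        fin_cases k
        · simp [h1, h3]
        · simpa using h3
      refine ⟨(Units.mk0 (u 1) h2, ⟨a, ha⟩), ?_⟩
      apply Subtype.ext
      funext k
      fin_cases k
      · simp [h1]
      · simp
  rw [← Nat.card_eq_of_bijective _ hbij, Nat.card_prod, Nat.card_fin, Nat.card_units]

lemma frob_ptsVar (N : ℕ) {v : HeightOneSpectrum (𝓞 ℚ)} (hv : N ≤ (below v : ℕ)) :
    IsFrobenius (ptsVar N) 0 0 v (fun _ : Fin N => (1:ℂ)) := by
  refine ⟨fun k => if k = 0 then Finset.univ.val.map (fun _ : Fin N => (1:ℂ)) else 0, by simp, ?_, ?_⟩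
  · intro k z hz
    beta_reduce at hz
    split_ifs at hz with h
    · subst h
      rw [Multiset.mem_map] at hz
      obtain ⟨_, _, rfl⟩ := hz
      simp
    · simp at hz
  · intro κ _ _ φ e hker hcard
    rw [cone_ptsVar N hv φ hker, hcard]
    have h1 : 1 ≤ Ideal.absNorm v.asIdeal ^ e := Nat.one_le_pow _ _ (nm_pos v)
    push_cast [Nat.cast_sub h1]
    simp

/-- the prime of `ℚ` belonging to a prime number -/
lemma exists_place {p : ℕ} (hp : p.Prime) : ∃ v : HeightOneSpectrum (𝓞 ℚ), nm v = p := by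
  have h1 : Ideal.absNorm (Ideal.span {((p : ℕ) : 𝓞 ℚ)}) = p := by
    rw [Ideal.absNorm_span_natCast, RingOfIntegers.rank, Module.finrank_self, pow_one]
  have h2 : (Ideal.span {((p : ℕ) : 𝓞 ℚ)}).IsPrime := Ideal.isPrime_of_irreducible_absNorm (by rw [h1]; exact hp)
  have h3 : Ideal.span {((p : ℕ) : 𝓞 ℚ)} ≠ ⊥ := by
    intro h
    rw [h, Ideal.absNorm_bot] at h1
    exact hp.ne_zero h1.symm
  exact ⟨⟨_, h2, h3⟩, h1⟩

/-- the excluded primes -/
def exS (N : ℕ) : Set (HeightOneSpectrum (𝓞 ℚ)) := {v | (below v : ℕ) < N}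

lemma exS_finite (N : ℕ) : (exS N).Finite := by
  refine (hfin (K := ℚ) N).subset fun v hv => ?_
  have h1 : (below v : ℕ) < N := hv
  have h2 := deg_le v
  rw [Module.finrank_self] at h2
  obtain ⟨h3, h4, h5⟩ := nm_eq v
  have h6 : deg v = 1 := by omega
  rw [h6, pow_one] at h3
  show nm v < N
  omega

lemma traceSum_pts (N : ℕ) : ∃ C0 : ℝ, ∀ n : ℕ, 3 ≤ n →
    (N:ℝ) * Real.log (Real.log n) - C0 ≤ traceSum (exS N) 0 (fun _ (_ : Fin N) => (1:ℂ)) n := by
  classical
  obtain ⟨C, hC⟩ := Pool.Agent.Helper256.KM.mertens_inv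
  refine ⟨N * C + N * N, fun n hn => ?_⟩
  have h1 := (abs_le.1 (hC n hn)).1
  have h2 : ∀ p ∈ (Finset.Icc 1 n).filter Nat.Prime, (N:ℝ) * (1 / (p:ℝ)) - (if p < N then (N:ℝ) * (1 / (p:ℝ)) else 0) ≤
      (p : ℝ) ^ (-(((0:ℕ) : ℝ) / 2 + 1)) *
      ‖∑ᶠ v ∈ {v : HeightOneSpectrum (𝓞 ℚ) | v ∉ exS N ∧ Ideal.absNorm v.asIdeal = p}, ∑ _j : Fin N, (1:ℂ)‖ := by
    intro p hp
    rw [Finset.mem_filter] at hp
    have hp0 : (0:ℝ) < p := by exact_mod_cast hp.2.pos
    split_ifs with h
    · rw [sub_self]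
      positivity
    · obtain ⟨v, hv⟩ := exists_place hp.2
      have hb := (below_of_nm hp.2 hv).1
      have e : {v : HeightOneSpectrum (𝓞 ℚ) | v ∉ exS N ∧ Ideal.absNorm v.asIdeal = p} = {v} := by
        ext w
        simp only [Set.mem_ofPred_eq, Set.mem_singleton_iff]
        constructor
        · rintro ⟨_, h4⟩
          have h3 := card_nm (K := ℚ) hp.2 {v, w} (by
            intro x hx
            rw [Finset.mem_insert, Finset.mem_singleton] at hx
            rcases hx with rfl | rfl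
            · exact hv
            · exact h4)
          rw [Module.finrank_self] at h3
          by_contra hne
          rw [Finset.card_pair (fun h => hne h.symm)] at h3
          omega
        · rintro rfl
          refine ⟨fun h4 => ?_, hv⟩
          have h5 : (below w : ℕ) < N := h4
          omega
      rw [e, finsum_mem_singleton]
      simp only [Finset.sum_const, Finset.card_univ, Fintype.card_fin, nsmul_eq_mul, mul_one, Complex.norm_natCast]
      rw [sub_zero, Nat.cast_zero, zero_div, zero_add, Real.rpow_neg_one, one_div, mul_comm]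
  have h3 := Finset.sum_le_sum h2
  rw [Finset.sum_sub_distrib, ← Finset.mul_sum] at h3
  have h4 : ∑ p ∈ (Finset.Icc 1 n).filter Nat.Prime, (if p < N then (N:ℝ) * (1 / (p:ℝ)) else 0) ≤ N * N := by
    rw [← Finset.sum_filter]
    have h5 : ∀ p ∈ ((Finset.Icc 1 n).filter Nat.Prime).filter (fun p => p < N), (N:ℝ) * (1 / (p:ℝ)) ≤ N := by
      intro p hp
      rw [Finset.mem_filter, Finset.mem_filter] at hp
      have hp1 : (1:ℝ) ≤ p := by exact_mod_cast hp.1.2.one_lt.le
      have : 1 / (p:ℝ) ≤ 1 := by rw [div_le_one (by linarith)]; exact hp1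
      exact mul_le_of_le_one_right (Nat.cast_nonneg _) this
    refine (Finset.sum_le_sum h5).trans ?_
    rw [Finset.sum_const, nsmul_eq_mul]
    apply mul_le_mul_of_nonneg_right _ (Nat.cast_nonneg _)
    have h6 : ((Finset.Icc 1 n).filter Nat.Prime).filter (fun p => p < N) ⊆ Finset.range N := by
      intro p hp
      rw [Finset.mem_filter] at hp
      exact Finset.mem_range.2 hp.2
    have h7 := Finset.card_le_card h6
    rw [Finset.card_range] at h7
    exact_mod_cast h7
  unfold traceSum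
  have h5 : (N:ℝ) * (Real.log (Real.log n) - C) ≤ N * ∑ p ∈ (Finset.Icc 1 n).filter Nat.Prime, 1 / (p:ℝ) :=
    mul_le_mul_of_nonneg_left (by linarith) (Nat.cast_nonneg _)
  linarith

end Run7.h113.GE
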